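import Pool.Agent.E8helper91.ZO.Sym4

/-!
# The zero-one law
-/

set_option autoImplicit false
set_option linter.unusedSectionVars false

open CategoryTheory Limits MonoidalCategory Module
open Pool.Agent.Y112.SR Pool.Agent.Y112.KD Pool.Agent.Y112.SC Pool.Agent.Y133.Half

namespace Pool.Agent.E8helper91.ZO

universe v u w

section

variable {C : Type u} [Category.{v} C] [Preadditive C] [Linear ℚ C] [MonoidalCategory C]
  [MonoidalPreadditive C] [MonoidalLinear ℚ C] [SymmetricCategory C] [RightRigidCategory C]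
  {K : Type w} [Field K] (R : SuperRealisation C K) (hU : UnitQ C)

lemma pinC_id (M N : C) : ∀ n, pinC M N (𝟙 M) n = 𝟙 _
  | 0 => rfl
  | n + 1 => by
    change 𝟙 M ⊗ₘ pinC M N (𝟙 M) n = 𝟙 (M ⊗ tw M N n)
    rw [pinC_id M N n, id_tensorHom_id]

lemma cplus_mem {M : C} : R.CPlus M ↔ 𝟙 M ∈ idI R M := by
  rw [mem_idI, CategoryTheory.Functor.map_id, Category.id_comp]
  rfl

/-- If the sign conjecture holds, all components are algebraic. -/
lemma allAlg_of_cplus {M : C} (h : R.CPlus M) (P N : C) (m n : ℕ) (f : tw M P m ⟶ tw M N n) :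
    AllAlg R M P N m n f := by
  have h1 := allAlg_of_idI ((cplus_mem R).1 h) P N m n f
  rwa [pinC_id, pinC_id, Category.id_comp, Category.comp_id] at h1

lemma goodSet_of_allAlg {M P N : C} {n : ℕ} {f : P ⟶ tw M N n}
    (h : AllAlg R M P N 0 n f) : f ∈ goodSet R M N P n := by
  have hK := R_charZero R
  have h2 : (2 : K) ≠ 0 := two_ne_zero
  intro m _
  have h0 : ∃ w : P ⟶ tw M N n, R.H.map w = R.H.map f ≫ parAt R M N n m := by
    obtain ⟨w, hw⟩ := h [] [m]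
    refine ⟨w, ?_⟩
    have h3 : parWord R M N n [m] = parAt R M N n m := Category.comp_id _
    rw [h3] at hw
    exact hw.trans (Category.id_comp _)
  obtain ⟨w, hw'⟩ := h0
  refine ⟨(2 : ℚ)⁻¹ • (f + w : P ⟶ tw M N n), ?_⟩
  have h5 : R.H.map ((2 : ℚ)⁻¹ • (f + w : P ⟶ tw M N n)) =
      (((2 : ℚ)⁻¹ : ℚ) : K) • R.H.map (f + w : P ⟶ tw M N n) := R_smul R _ _
  have h6 : R.H.map (f + w : P ⟶ tw M N n) = R.H.map f + R.H.map w := Functor.map_add _
  rw [h5, h6, hw', smul_smul, Preadditive.comp_add, Category.comp_id]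
  push_cast
  rw [mul_inv_cancel₀ h2, one_smul]

include hU in
/-- Numerical approximation by morphisms all of whose components are algebraic. -/
lemma approx {M : C} (h : NumCPlus R hU M) (P N : C) (m n : ℕ) (f : tw M P m ⟶ tw M N n) :
    ∃ f' : tw M P m ⟶ tw M N n, AllAlg R M P N m n f' ∧ NumZero hU (f - f') := by
  obtain ⟨u, hu, huN⟩ := (numCPlus_iff hU M).1 h
  refine ⟨pinC M P u m ≫ f ≫ pinC M N u n, allAlg_of_idI hu P N m n f, ?_⟩
  have h1 : NZ R (𝟙 _ - R.H.map u) := by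
    rw [← CategoryTheory.Functor.map_id, ← Functor.map_sub]
    exact (numZero_iff hU _).1 huN
  have h2 := NZ_sub_pin (Op.map u) h1 P m
  have h3 := NZ_sub_pin (Op.map u) h1 N n
  rw [numZero_iff (R := R) hU, Functor.map_sub, Functor.map_comp, Functor.map_comp, ← pin_eq,
    ← pin_eq]
  have h4 : R.H.map f - pin R M P (R.H.map u) m ≫ R.H.map f ≫ pin R M N (R.H.map u) n =
      (𝟙 _ - pin R M P (R.H.map u) m) ≫ R.H.map f +
        (pin R M P (R.H.map u) m ≫ R.H.map f) ≫ (𝟙 _ - pin R M N (R.H.map u) n) := by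
    rw [Preadditive.sub_comp, Preadditive.comp_sub, Category.id_comp, Category.comp_id,
      Category.assoc]
    abel
  rw [h4]
  exact (NZ.comp_right h2 (Op.map f)).add
    (NZ.comp_left h3 (Op.comp (pin_mem (Op.map u) m) (Op.map f)))

lemma numDim_good_le {M P N : C} {n : ℕ} :
    numDim hU (goodSet R M N P n) ≤ numDim hU (Set.univ : Set (P ⟶ tw M N n)) := by
  have hfin := finite_quot R hU P (tw M N n)
  exact Submodule.finrank_mono (Submodule.map_mono (Submodule.span_mono (Set.subset_univ _)))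

include hU in
lemma approx0 {M : C} (h : NumCPlus R hU M) (P N : C) (n : ℕ) (f : P ⟶ tw M N n) :
    ∃ f' : P ⟶ tw M N n, f' ∈ goodSet R M N P n ∧ NumZero hU (f - f') := by
  obtain ⟨f', h1, h2⟩ := approx R hU h P N 0 n f
  exact ⟨f', goodSet_of_allAlg R h1, h2⟩

lemma numDim_good_eq {M : C} (h : NumCPlus R hU M) (P N : C) (n : ℕ) :
    numDim hU (goodSet R M N P n) = numDim hU (Set.univ : Set (P ⟶ tw M N n)) := by
  apply le_antisymm (numDim_good_le R hU)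
  have hfin := finite_quot R hU P (tw M N n)
  apply Submodule.finrank_mono
  rw [Submodule.map_le_iff_le_comap]
  intro f _
  obtain ⟨f', h3, h2⟩ := approx0 R hU h P N n f
  refine ⟨f', Submodule.subset_span h3, ?_⟩
  rw [eq_comm, ← sub_eq_zero, ← map_sub, Submodule.mkQ_apply, Submodule.Quotient.mk_eq_zero]
  exact h2

/-- The exceptional case. -/
lemma exceptional {M : C} (h : NumCPlus R hU M) (hC : ¬ R.CPlus M) :
    (∃ φ : M ⟶ M, NumZero hU φ ∧ R.H.map φ ≠ 0) ∧ 2 ≤ dm R M ∧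
    ∀ (P N : C) (m n : ℕ), numDim hU (Set.univ : Set (tw M P m ⟶ tw M N n)) ≤
      (dm R M - 2) ^ (m + n) * (dm R P * dm R N) := by
  obtain ⟨e, he, hee, htr⟩ := exists_eps (R := R) M
  obtain ⟨u, hu, huN⟩ := (numCPlus_iff hU M).1 h
  have hNZ := NZ_of_unit hU he htr hu huN
  have he1 : e ≠ 𝟙 _ := by
    rintro rfl
    exact hC (cplus_of_one hU he)
  have heO := idJ_Op he
  have hrk := rkI_add_two_le heO hee hNZ he1
  refine ⟨exists_phantom hU (Submodule.sub_mem _ (Op.id M) heO) hNZ (sub_ne_zero.2 he1.symm),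
    by omega, fun P N m n => ?_⟩
  have h1 : numDim hU (Set.univ : Set (tw M P m ⟶ tw M N n)) ≤
      rB R (tw M P m) (tw M N n) (𝟙 _) (𝟙 _) :=
    numDim_le_rB hU fun f _ => by rw [Category.comp_id, sub_self]; exact NZ.zero
  have h2 := rB_le_rkI (pin_mem (N := N) heO n) (NZ_sub_pin heO hNZ P m) (NZ_sub_pin heO hNZ N n)
  rw [rkI_pin hee, rkI_pin hee] at h2
  refine h1.trans (h2.trans ?_)
  have h3 : rkI e ≤ dm R M - 2 := by omega
  calc rkI e ^ m * dm R P * (rkI e ^ n * dm R N)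
      ≤ (dm R M - 2) ^ m * dm R P * ((dm R M - 2) ^ n * dm R N) := by gcongr
    _ = _ := by rw [pow_add]; ring

/-- The main case. -/
lemma main_case {M : C} (h : ¬ NumCPlus R hU M) (P N : C) (n : ℕ) :
    numDim hU (goodSet R M N P n) ^ 2 * (dm R M ^ 2) ^ n ≤
      (dm R M ^ 2 - 1) ^ n * (numDim hU (Set.univ : Set (P ⟶ P)) *
        numDim hU (Set.univ : Set (tw M N n ⟶ tw M N n))) := by
  obtain ⟨e, he, hee, htr⟩ := exists_eps (R := R) M
  have hN : ¬ NZ R (𝟙 _ - e) := fun hN => h ((numCPlus_iff hU M).2 (exists_unit hU he hN))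
  have heO := idJ_Op he
  have h1 : numDim hU (goodSet R M N P n) ≤ rB R P (tw M N n) (𝟙 _) (pin R M N e n) :=
    numDim_le_rB hU fun f hf => good_conc he htr n hf
  have h2 := cs P (tw M N n) (Op.id P) (Category.comp_id _) (pin_mem (N := N) heO n)
    (pin_idem hee n)
  have h3 := ratio (N := N) heO hee hN n
  have h4 := rB_le_numDim (R := R) hU P P
  have h5 := rB_le_numDim (R := R) hU (tw M N n) (tw M N n)
  calc numDim hU (goodSet R M N P n) ^ 2 * (dm R M ^ 2) ^ n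
      ≤ (en R P (𝟙 _) * en R (tw M N n) (pin R M N e n)) * (dm R M ^ 2) ^ n :=
        Nat.mul_le_mul_right _ ((Nat.pow_le_pow_left h1 2).trans h2)
    _ = en R P (𝟙 _) * ((dm R M ^ 2) ^ n * en R (tw M N n) (pin R M N e n)) := by ring
    _ ≤ en R P (𝟙 _) * ((dm R M ^ 2 - 1) ^ n * en R (tw M N n) (𝟙 _)) :=
        Nat.mul_le_mul_left _ h3
    _ = (dm R M ^ 2 - 1) ^ n * (en R P (𝟙 _) * en R (tw M N n) (𝟙 _)) := by ring
    _ ≤ _ := Nat.mul_le_mul_left _ (Nat.mul_le_mul h4 h5)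

lemma dm_tw (M N : C) : ∀ n, dm R (tw M N n) = dm R M ^ n * dm R N
  | 0 => by rw [pow_zero, one_mul]; rfl
  | n + 1 => by
    have h1 : dm R (tw M N (n + 1)) = dm R (M ⊗ tw M N n) := rfl
    rw [h1, dm_tensor, dm_tw M N n, pow_succ]
    ring

lemma numDim_univ_le (P Q : C) :
    numDim hU (Set.univ : Set (P ⟶ Q)) ≤ dm R P * dm R Q :=
  (numDim_le_rB (R := R) (E := 𝟙 _) hU fun f _ => by
    rw [Category.comp_id, sub_self]; exact NZ.zero).trans (rB_le _ _ _ _)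

lemma pow4_le (b : ℕ) (hb : 2 ≤ b) : (b - 2) ^ 4 ≤ b ^ 2 * (b ^ 2 - 1) := by
  obtain ⟨c, rfl⟩ : ∃ c, b = c + 2 := ⟨b - 2, by omega⟩
  rw [Nat.add_sub_cancel]
  have h6 : c ^ 2 ≤ (c + 2) ^ 2 := Nat.pow_le_pow_left (by omega) 2
  have h7 : c ^ 2 ≤ (c + 2) ^ 2 - 1 := by
    have : c ^ 2 + 1 ≤ (c + 2) ^ 2 := by nlinarith
    omega
  calc c ^ 4 = c ^ 2 * c ^ 2 := by ring
    _ ≤ _ := Nat.mul_le_mul h6 h7

/-- The gap. -/
lemma gap {M : C} (hC : ¬ R.CPlus M) (N : C) (n : ℕ) :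
    numDim hU (goodSet R M N (tw M N n) n) ^ 2 ≤
      (dm R M ^ 2 * (dm R M ^ 2 - 1)) ^ n * dm R N ^ 4 := by
  have hb0 : 0 < dm R M := by
    by_contra h0
    apply hC
    have h1 : dm R M = 0 := by omega
    refine ⟨0, ?_⟩
    have h2 : Subsingleton (R.H.obj M) := Module.finrank_zero_iff.1 h1
    apply ModuleCat.hom_ext
    apply LinearMap.ext
    intro x
    exact Subsingleton.elim _ _
  by_cases h : NumCPlus R hU M
  · obtain ⟨-, h2, h3⟩ := exceptional R hU h hC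
    have h4 := (numDim_good_le R hU (M := M) (N := N) (P := tw M N n) (n := n)).trans
      (h3 N N n n)
    set b := dm R M
    have h5 : (b - 2) ^ 4 ≤ b ^ 2 * (b ^ 2 - 1) := pow4_le b h2
    calc numDim hU (goodSet R M N (tw M N n) n) ^ 2
        ≤ ((b - 2) ^ (n + n) * (dm R N * dm R N)) ^ 2 := Nat.pow_le_pow_left h4 2
      _ = ((b - 2) ^ 4) ^ n * dm R N ^ 4 := by
        rw [mul_pow, ← pow_mul, ← pow_mul]
        congr 1
        · congr 1; ring
        · ring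
      _ ≤ _ := Nat.mul_le_mul_right _ (Nat.pow_le_pow_left h5 n)
  · have h1 := main_case R hU h (tw M N n) N n
    have h2 := numDim_univ_le R hU (tw M N n) (tw M N n)
    rw [dm_tw] at h2
    set b := dm R M
    have h3 : 0 < (b ^ 2) ^ n := by positivity
    apply Nat.le_of_mul_le_mul_right _ h3
    refine h1.trans ((Nat.mul_le_mul_left _ (Nat.mul_le_mul h2 h2)).trans (le_of_eq ?_))
    rw [mul_pow (b ^ 2) (b ^ 2 - 1) n, ← pow_mul]
    ring

/-- The lower bound. -/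
lemma lower {M : C} (h : R.CPlus M) (n : ℕ) :
    dm R M ^ (2 * n) ≤ numDim hU (goodSet R M (𝟙_ C) (tw M (𝟙_ C) n) n) *
      (n + 1) ^ (dm R M ^ 2) := by
  have h1 : (goodSet R M (𝟙_ C) (tw M (𝟙_ C) n) n) = Set.univ := by
    apply Set.eq_univ_of_forall
    intro f
    exact goodSet_of_allAlg R (allAlg_of_cplus R h (tw M (𝟙_ C) n) (𝟙_ C) 0 n f)
  rw [h1]
  exact (growth h n).trans (Nat.mul_le_mul_right _ (rB_le_numDim hU _ _))

lemma dm_unit : dm R (𝟙_ C) = 1 := by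
  rw [dm, ← (unitE R).finrank_eq, finrank_self]

lemma two_mul_pow_le (c : ℕ) : 2 * c ^ (c + 1) ≤ (c + 1) ^ (c + 1) := by
  rcases Nat.eq_zero_or_pos c with rfl | hc
  · norm_num
  · have hc0 : (0 : ℝ) < c := by exact_mod_cast hc
    have h1 := one_add_mul_le_pow (a := (1 : ℝ) / c) (by
      have : (0 : ℝ) ≤ 1 / c := by positivity
      linarith) (c + 1)
    have h2 : (2 : ℝ) ≤ (1 + 1 / c) ^ (c + 1) := by
      refine le_trans ?_ h1
      have h3 : ((c + 1 : ℕ) : ℝ) * (1 / c) = 1 + 1 / c := by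
        push_cast
        field_simp
      rw [h3]
      have : (0 : ℝ) ≤ 1 / c := by positivity
      linarith
    have h3 : (2 : ℝ) * c ^ (c + 1) ≤ (c + 1 : ℝ) ^ (c + 1) := by
      calc (2 : ℝ) * c ^ (c + 1) ≤ (1 + 1 / c) ^ (c + 1) * c ^ (c + 1) :=
            mul_le_mul_of_nonneg_right h2 (by positivity)
        _ = _ := by
          rw [← mul_pow]
          congr 1
          field_simp
    exact_mod_cast h3

/-- The explicit exponent. -/
lemma exists_gap (b : ℕ) (hb : 1 ≤ b) :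
    (b ^ 2 * (b ^ 2 - 1)) ^ (8 * b ^ 6) * ((8 * b ^ 6 + 1) ^ (b ^ 2)) ^ 2 <
      (b ^ (2 * (8 * b ^ 6))) ^ 2 := by
  rcases Nat.eq_or_lt_of_le hb with rfl | hb1
  · norm_num
  obtain ⟨c, hc⟩ : ∃ c, b ^ 2 = c + 1 := ⟨b ^ 2 - 1, by
    have : 1 ≤ b ^ 2 := Nat.one_le_pow _ _ (by omega)
    omega⟩
  have h1 : 8 * b ^ 6 + 1 < 2 ^ (4 * b ^ 2) := by
    have e1 : b ^ 6 < (2 ^ b) ^ 6 := Nat.pow_lt_pow_left Nat.lt_two_pow_self (by norm_num)
    have e2 : 2 ^ (6 * b + 3) ≤ 2 ^ (4 * b ^ 2) := by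
      apply Nat.pow_le_pow_right (by norm_num)
      nlinarith
    have e3 : 2 ^ (6 * b + 3) = (2 ^ b) ^ 6 * 8 := by
      rw [pow_add, mul_comm 6 b, pow_mul]
      norm_num
    omega
  have h2 : ((8 * b ^ 6 + 1) ^ (b ^ 2)) ^ 2 < 2 ^ (8 * b ^ 4) := by
    calc ((8 * b ^ 6 + 1) ^ (b ^ 2)) ^ 2 = (8 * b ^ 6 + 1) ^ (b ^ 2 * 2) := by rw [← pow_mul]
      _ < (2 ^ (4 * b ^ 2)) ^ (b ^ 2 * 2) := Nat.pow_lt_pow_left h1 (by positivity)
      _ = 2 ^ (8 * b ^ 4) := by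
        rw [← pow_mul]
        congr 1
        ring
  have h3 : 2 ^ (8 * b ^ 4) * c ^ (8 * b ^ 6) ≤ (b ^ 2) ^ (8 * b ^ 6) := by
    have e1 : 8 * b ^ 6 = (c + 1) * (8 * b ^ 4) := by rw [← hc]; ring
    rw [e1, hc, pow_mul c, pow_mul (c + 1), ← mul_pow]
    exact Nat.pow_le_pow_left (two_mul_pow_le c) _
  have hc0 : 0 < c := by
    have : 2 ^ 2 ≤ b ^ 2 := Nat.pow_le_pow_left hb1 2
    omega
  have h4 : b ^ 2 - 1 = c := by omega
  rw [h4, mul_pow]
  calc (b ^ 2) ^ (8 * b ^ 6) * c ^ (8 * b ^ 6) * ((8 * b ^ 6 + 1) ^ (b ^ 2)) ^ 2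
      < (b ^ 2) ^ (8 * b ^ 6) * c ^ (8 * b ^ 6) * 2 ^ (8 * b ^ 4) :=
        Nat.mul_lt_mul_of_pos_left h2 (by positivity)
    _ = (b ^ 2) ^ (8 * b ^ 6) * (2 ^ (8 * b ^ 4) * c ^ (8 * b ^ 6)) := by ring
    _ ≤ (b ^ 2) ^ (8 * b ^ 6) * (b ^ 2) ^ (8 * b ^ 6) := Nat.mul_le_mul_left _ h3
    _ = _ := by
      rw [← pow_add, ← pow_mul, ← pow_mul]
      congr 1
      ring

/-- **The criterion.** -/
lemma criterion (M : C) : R.CPlus M ↔ dm R M ^ (2 * (8 * dm R M ^ 6)) ≤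
    numDim hU (goodSet R M (𝟙_ C) (tw M (𝟙_ C) (8 * dm R M ^ 6)) (8 * dm R M ^ 6)) *
      (8 * dm R M ^ 6 + 1) ^ (dm R M ^ 2) := by
  refine ⟨fun h => lower R hU h _, fun h => ?_⟩
  by_contra hC
  have hb0 : 1 ≤ dm R M := by
    by_contra h0
    apply hC
    have h1 : dm R M = 0 := by omega
    refine ⟨0, ?_⟩
    have h2 : Subsingleton (R.H.obj M) := Module.finrank_zero_iff.1 h1
    apply ModuleCat.hom_ext
    apply LinearMap.ext
    intro x
    exact Subsingleton.elim _ _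
  have hn := exists_gap (dm R M) hb0
  have h1 := gap R hU hC (𝟙_ C) (8 * dm R M ^ 6)
  rw [dm_unit, one_pow, mul_one] at h1
  have h2 := Nat.pow_le_pow_left h 2
  rw [mul_pow (numDim hU _)] at h2
  have h3 := h2.trans (Nat.mul_le_mul_right _ h1)
  exact absurd hn (not_lt.2 h3)

end

end Pool.Agent.E8helper91.ZO
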