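import Pool.Agent.E8helper91.ZO.Pin

/-!
# Good morphisms are numerically concentrated on the range of the idempotent
-/

set_option autoImplicit false
set_option linter.unusedSectionVars false

open CategoryTheory Limits MonoidalCategory Module
open Pool.Agent.Y112.SR Pool.Agent.Y112.KD Pool.Agent.Y112.SC Pool.Agent.Y133.Half

namespace Pool.Agent.E8helper91.ZO

universe v u w

open Functor.LaxMonoidal Functor.OplaxMonoidal

section

variable {C : Type u} [Category.{v} C] [Preadditive C] [Linear ℚ C] [MonoidalCategory C]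
  [MonoidalPreadditive C] [MonoidalLinear ℚ C] [SymmetricCategory C] [RightRigidCategory C]
  {K : Type w} [Field K] {R : SuperRealisation C K}

/-- The main lemma for one factor. -/
lemma one_factor {M Z P : C} {e : R.H.obj M ⟶ R.H.obj M} (he : e ∈ idJ R M)
    (htr : ∀ u ∈ idJ R M, st R ((𝟙 _ - e) ≫ u) = 0) {f w : P ⟶ M ⊗ Z}
    (hw : (2 : K) • R.H.map w = R.H.map f ≫ (𝟙 _ + bx R (R.par M) (𝟙 _))) :
    NZ R (R.H.map f ≫ bx R (𝟙 _ - e) (𝟙 _)) := by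
  apply NZ.of_map
  intro g
  have hgO : 𝟙 _ - e ∈ Op R M M := Submodule.sub_mem _ (Op.id M) (idJ_Op he)
  have hu : ptr (g ≫ f) ∈ idI R M := by
    refine ⟨ptr (g ≫ w), ?_⟩
    have h1 : (𝟙 _ + bx R (R.par M) (𝟙 (R.H.obj Z))) = bx R (𝟙 _ + R.par M) (𝟙 _) := by
      rw [bx_add_left, bx_one]
    rw [h1] at hw
    rw [← PT_map, ← PT_map, ← PT_smul, Functor.map_comp, ← Linear.comp_smul, hw,
      Functor.map_comp, ← Category.assoc, PT_right]
  have h2 := htr _ (Submodule.subset_span ⟨_, hu, rfl⟩)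
  have h3 : st R ((R.H.map f ≫ bx R (𝟙 _ - e) (𝟙 _)) ≫ R.H.map g) =
      st R (R.H.map g ≫ R.H.map f ≫ bx R (𝟙 _ - e) (𝟙 _)) := st_comm R (R.par_natural g)
  rw [h3, ← Category.assoc, ← st_PT, PT_right, ← Functor.map_comp, PT_map,
    st_comm R (Op.par hgO)]
  exact h2

/-- Moving a factor to the front. -/
def mv (V M Z : C) : V ⊗ (M ⊗ Z) ≅ M ⊗ (V ⊗ Z) :=
  (α_ V M Z).symm ≪≫ whiskerRightIso (β_ V M) Z ≪≫ α_ M V Z

lemma bx_whisker {P Q Z : C} (h : P ⟶ Q) {a : R.H.obj P ⟶ R.H.obj P} {a' : R.H.obj Q ⟶ R.H.obj Q}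
    (z : R.H.obj Z ⟶ R.H.obj Z) (ha : a ≫ R.H.map h = R.H.map h ≫ a') :
    bx R a z ≫ R.H.map (h ▷ Z) = R.H.map (h ▷ Z) ≫ bx R a' z := by
  rw [Functor.Monoidal.map_whiskerRight, bx, bx]
  simp only [Category.assoc, Functor.Monoidal.μ_δ_assoc]
  rw [← tensorHom_id, tensorHom_comp_tensorHom_assoc, tensorHom_comp_tensorHom_assoc, ha,
    Category.comp_id, Category.id_comp]

lemma mv_nat {V M Z : C} {a : R.H.obj V ⟶ R.H.obj V} {b : R.H.obj M ⟶ R.H.obj M}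
    (z : R.H.obj Z ⟶ R.H.obj Z) (ha : a ≫ R.par V = R.par V ≫ a)
    (hb : b ≫ R.par M = R.par M ≫ b) :
    bx R a (bx R b z) ≫ R.H.map (mv V M Z).hom = R.H.map (mv V M Z).hom ≫ bx R b (bx R a z) := by
  have h1 : (mv V M Z).hom = (α_ V M Z).inv ≫ (β_ V M).hom ▷ Z ≫ (α_ M V Z).hom := rfl
  rw [h1, Functor.map_comp, Functor.map_comp, ← Category.assoc, bx_assoc_inv, Category.assoc,
    ← Category.assoc (bx R (bx R a b) z), bx_whisker _ z (bx_braid' R a b ha hb)]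
  simp only [Category.assoc]
  rw [bx_assoc]

lemma one_par {P : C} : 𝟙 (R.H.obj P) ≫ R.par P = R.par P ≫ 𝟙 _ := by
  rw [Category.comp_id, Category.id_comp]

lemma stepA {V M Z P : C} {e : R.H.obj M ⟶ R.H.obj M} (he : e ∈ idJ R M)
    (htr : ∀ u ∈ idJ R M, st R ((𝟙 _ - e) ≫ u) = 0) {f w : P ⟶ V ⊗ (M ⊗ Z)}
    (hw : (2 : K) • R.H.map w =
      R.H.map f ≫ (𝟙 _ + bx R (𝟙 _) (bx R (R.par M) (𝟙 _)))) :
    NZ R (R.H.map f - R.H.map f ≫ bx R (𝟙 _) (bx R e (𝟙 _))) := by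
  have hgO : 𝟙 _ - e ∈ Op R M M := Submodule.sub_mem _ (Op.id M) (idJ_Op he)
  have h1 := mv_nat (R := R) (V := V) (M := M) (Z := Z) (𝟙 _) one_par
    (b := R.par M) rfl
  have h2 := one_factor (Z := V ⊗ Z) he htr (f := f ≫ (mv V M Z).hom) (w := w ≫ (mv V M Z).hom) (by
    rw [Functor.map_comp, Functor.map_comp, ← Linear.smul_comp, hw, Category.assoc,
      Category.assoc]
    congr 1
    rw [Preadditive.add_comp, Preadditive.comp_add, h1, Category.id_comp, Category.comp_id,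
      bx_one])
  have h3 := mv_nat (R := R) (V := V) (M := M) (Z := Z) (𝟙 _) one_par
    (b := 𝟙 _ - e) (Op.par hgO)
  have h4 := NZ.comp_right h2 (Op.map (mv V M Z).inv)
  have h5 : R.H.map (mv V M Z).hom ≫ R.H.map (mv V M Z).inv = 𝟙 _ := by
    rw [← Functor.map_comp, Iso.hom_inv_id, CategoryTheory.Functor.map_id]
  have h6 : (R.H.map (f ≫ (mv V M Z).hom) ≫ bx R (𝟙 _ - e) (𝟙 _)) ≫ R.H.map (mv V M Z).inv =
      R.H.map f - R.H.map f ≫ bx R (𝟙 _) (bx R e (𝟙 _)) := by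
    have h7 : R.H.map (mv V M Z).hom ≫ bx R (𝟙 _ - e) (𝟙 _) ≫ R.H.map (mv V M Z).inv =
        bx R (𝟙 _) (bx R (𝟙 _ - e) (𝟙 _)) := by
      rw [← bx_one R V Z, ← Category.assoc, ← h3, Category.assoc, h5, Category.comp_id]
    rw [Functor.map_comp, Category.assoc, Category.assoc, h7, bx_sub_left, bx_sub_right, bx_one,
      bx_one, Preadditive.comp_sub, Category.comp_id]
  rwa [h6] at h4

lemma stepC {Q P : C} {c : R.H.obj P ⟶ R.H.obj Q} {X Y : R.H.obj Q ⟶ R.H.obj Q}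
    (hX : X ∈ Op R Q Q) (h1 : NZ R (c - c ≫ X)) (h2 : NZ R (c - c ≫ Y)) :
    NZ R (c - c ≫ Y ≫ X) := by
  have h3 := h1.add (NZ.comp_right h2 hX)
  have h4 : c - c ≫ X + (c - c ≫ Y) ≫ X = c - c ≫ Y ≫ X := by
    rw [Preadditive.sub_comp, Category.assoc]
    abel
  rwa [h4] at h3

lemma assoc_one {V M Z : C} (a : R.H.obj Z ⟶ R.H.obj Z) :
    bx R (𝟙 (R.H.obj V)) (bx R (𝟙 (R.H.obj M)) a) ≫ R.H.map (α_ V M Z).inv =
      R.H.map (α_ V M Z).inv ≫ bx R (𝟙 _) a := by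
  rw [bx_assoc_inv, bx_one]

lemma stepB {V M Z P : C} {A : R.H.obj Z ⟶ R.H.obj Z} {f : P ⟶ V ⊗ (M ⊗ Z)}
    (h : NZ R (R.H.map (f ≫ (α_ V M Z).inv) -
      R.H.map (f ≫ (α_ V M Z).inv) ≫ bx R (𝟙 _) A)) :
    NZ R (R.H.map f - R.H.map f ≫ bx R (𝟙 (R.H.obj V)) (bx R (𝟙 (R.H.obj M)) A)) := by
  have h5 : R.H.map (α_ V M Z).inv ≫ R.H.map (α_ V M Z).hom = 𝟙 _ := by
    rw [← Functor.map_comp, Iso.inv_hom_id, CategoryTheory.Functor.map_id]
  have h7 := NZ.comp_right h (Op.map (α_ V M Z).hom)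
  have h8 : R.H.map (α_ V M Z).inv ≫ bx R (𝟙 _) A ≫ R.H.map (α_ V M Z).hom =
      bx R (𝟙 (R.H.obj V)) (bx R (𝟙 (R.H.obj M)) A) := by
    rw [← Category.assoc, ← assoc_one, Category.assoc, h5, Category.comp_id]
  have h9 : (R.H.map (f ≫ (α_ V M Z).inv) - R.H.map (f ≫ (α_ V M Z).inv) ≫ bx R (𝟙 _) A) ≫
      R.H.map (α_ V M Z).hom = R.H.map f - R.H.map f ≫ bx R (𝟙 (R.H.obj V))
        (bx R (𝟙 (R.H.obj M)) A) := by
    rw [Preadditive.sub_comp, Functor.map_comp]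
    simp only [Category.assoc]
    rw [h8, h5, Category.comp_id]
  rwa [h9] at h7

lemma stepB' {V M Z P : C} {a : R.H.obj Z ⟶ R.H.obj Z} {f w : P ⟶ V ⊗ (M ⊗ Z)}
    (hw : (2 : K) • R.H.map w = R.H.map f ≫ (𝟙 _ + bx R (𝟙 _) (bx R (𝟙 _) a))) :
    (2 : K) • R.H.map (w ≫ (α_ V M Z).inv) =
      R.H.map (f ≫ (α_ V M Z).inv) ≫ (𝟙 _ + bx R (𝟙 _) a) := by
  rw [Functor.map_comp, Functor.map_comp, ← Linear.smul_comp, hw, Category.assoc,
    Category.assoc]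
  congr 1
  rw [Preadditive.add_comp, Preadditive.comp_add, assoc_one, Category.id_comp, Category.comp_id]

lemma stepD {V M Z P : C} {e : R.H.obj M ⟶ R.H.obj M} (he : e ∈ Op R M M)
    {A : R.H.obj Z ⟶ R.H.obj Z} {f : P ⟶ V ⊗ (M ⊗ Z)}
    (h1 : NZ R (R.H.map f - R.H.map f ≫ bx R (𝟙 _) (bx R e (𝟙 _))))
    (h2 : NZ R (R.H.map f - R.H.map f ≫ bx R (𝟙 (R.H.obj V)) (bx R (𝟙 (R.H.obj M)) A))) :
    NZ R (R.H.map f - R.H.map f ≫ bx R (𝟙 _) (bx R e A)) := by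
  have hX : bx R (𝟙 (R.H.obj V)) (bx R e (𝟙 (R.H.obj Z))) ∈ Op R (V ⊗ (M ⊗ Z)) (V ⊗ (M ⊗ Z)) :=
    Op.bx (Op.id _) (Op.bx he (Op.id _))
  have h4 := stepC hX h1 h2
  rwa [bx_comp, bx_comp, Category.id_comp, Category.id_comp, Category.comp_id] at h4

lemma multi {M P N : C} {e : R.H.obj M ⟶ R.H.obj M} (he : e ∈ idJ R M)
    (htr : ∀ u ∈ idJ R M, st R ((𝟙 _ - e) ≫ u) = 0) (n : ℕ) :
    ∀ (V : C) (f : P ⟶ V ⊗ tw M N n), (∀ m < n, ∃ w : P ⟶ V ⊗ tw M N n,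
      (2 : K) • R.H.map w = R.H.map f ≫ (𝟙 _ + bx R (𝟙 _) (parAt R M N n m))) →
      NZ R (R.H.map f - R.H.map f ≫ bx R (𝟙 _) (pin R M N e n)) := by
  induction n with
  | zero =>
    intro V f _
    have h1 : bx R (𝟙 (R.H.obj V)) (pin R M N e 0) = 𝟙 _ := bx_one R V N
    rw [h1, Category.comp_id, sub_self]
    exact NZ.zero
  | succ n ih =>
    intro V f hf
    refine stepD (Z := tw M N n) (idJ_Op he) ?_ ?_
    · obtain ⟨w, hw⟩ := hf 0 (Nat.succ_pos n)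
      exact stepA (Z := tw M N n) he htr hw
    · refine stepB (Z := tw M N n) (ih (V ⊗ M) _ fun m hm => ?_)
      obtain ⟨w, hw⟩ := hf (m + 1) (Nat.succ_lt_succ hm)
      exact ⟨_, stepB' (Z := tw M N n) hw⟩

/-- Good morphisms are numerically concentrated on the range of the power of the idempotent. -/
lemma good_conc {M P N : C} {e : R.H.obj M ⟶ R.H.obj M} (he : e ∈ idJ R M)
    (htr : ∀ u ∈ idJ R M, st R ((𝟙 _ - e) ≫ u) = 0) (n : ℕ) {f : P ⟶ tw M N n}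
    (hf : f ∈ goodSet R M N P n) : NZ R (R.H.map f - R.H.map f ≫ pin R M N e n) := by
  have h5 : R.H.map (λ_ (tw M N n)).inv ≫ R.H.map (λ_ (tw M N n)).hom = 𝟙 _ := by
    rw [← Functor.map_comp, Iso.inv_hom_id, CategoryTheory.Functor.map_id]
  have h5' : R.H.map (λ_ (tw M N n)).hom ≫ R.H.map (λ_ (tw M N n)).inv = 𝟙 _ := by
    rw [← Functor.map_comp, Iso.hom_inv_id, CategoryTheory.Functor.map_id]
  have h3 : ∀ (a : R.H.obj (tw M N n) ⟶ R.H.obj (tw M N n)),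
      a ≫ R.H.map (λ_ (tw M N n)).inv = R.H.map (λ_ (tw M N n)).inv ≫ bx R (𝟙 _) a := by
    intro a
    have h4 := bx_unit R a
    calc a ≫ R.H.map (λ_ (tw M N n)).inv
        = R.H.map (λ_ (tw M N n)).inv ≫ (R.H.map (λ_ (tw M N n)).hom ≫ a) ≫
            R.H.map (λ_ (tw M N n)).inv := by
          rw [Category.assoc, reassoc_of% h5]
      _ = _ := by rw [← h4, Category.assoc, h5', Category.comp_id]
  have h6 := multi he htr n (𝟙_ C) (f ≫ (λ_ (tw M N n)).inv) (fun m hm => by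
    obtain ⟨w, hw⟩ := hf m hm
    refine ⟨w ≫ (λ_ (tw M N n)).inv, ?_⟩
    rw [Functor.map_comp, Functor.map_comp, ← Linear.smul_comp, hw, Category.assoc,
      Category.assoc]
    congr 1
    rw [Preadditive.add_comp, Preadditive.comp_add, h3 (parAt R M N n m), Category.id_comp,
      Category.comp_id])
  have h7 := NZ.comp_right h6 (Op.map (λ_ (tw M N n)).hom)
  have h9 : (R.H.map (f ≫ (λ_ (tw M N n)).inv) -
      R.H.map (f ≫ (λ_ (tw M N n)).inv) ≫ bx R (𝟙 _) (pin R M N e n)) ≫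
        R.H.map (λ_ (tw M N n)).hom = R.H.map f - R.H.map f ≫ pin R M N e n := by
    rw [Preadditive.sub_comp, Functor.map_comp]
    simp only [Category.assoc]
    rw [bx_unit, h5, reassoc_of% h5, Category.comp_id]
  rwa [h9] at h7

end

end Pool.Agent.E8helper91.ZO
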