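import Pool.Agent.E8helper91.ZO.Defs
import Pool.Agent.Y112.SC.Main
import Pool.Agent.Y133.Half.BC

/-!
# Algebraic operators
-/

set_option autoImplicit false
set_option linter.unusedSectionVars false

open CategoryTheory Limits MonoidalCategory
open Pool.Agent.Y112.SR Pool.Agent.Y112.KD Pool.Agent.Y112.SC Pool.Agent.Y133.Half

namespace Pool.Agent.E8helper91.ZO

universe v u w

open Functor.LaxMonoidal Functor.OplaxMonoidal

section

variable {C : Type u} [Category.{v} C] [Preadditive C] [Linear ℚ C] [MonoidalCategory C]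
  [MonoidalPreadditive C] [MonoidalLinear ℚ C] [SymmetricCategory C] [RightRigidCategory C]
  {K : Type w} [Field K] (R : SuperRealisation C K)

/-- The algebraic operators. -/
noncomputable def Op (P Q : C) : Submodule K (R.H.obj P ⟶ R.H.obj Q) :=
  Submodule.span K (Set.range fun f : P ⟶ Q => R.H.map f)

variable {R}

lemma Op.map {P Q : C} (f : P ⟶ Q) : R.H.map f ∈ Op R P Q := Submodule.subset_span ⟨f, rfl⟩

lemma Op.ind {P Q : C} {p : (R.H.obj P ⟶ R.H.obj Q) → Prop} (hm : ∀ f : P ⟶ Q, p (R.H.map f))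
    (h0 : p 0) (ha : ∀ x y, p x → p y → p (x + y)) (hs : ∀ (c : K) x, p x → p (c • x))
    {x : R.H.obj P ⟶ R.H.obj Q} (hx : x ∈ Op R P Q) : p x := by
  induction hx using Submodule.span_induction with
  | mem x hx => obtain ⟨f, rfl⟩ := hx; exact hm f
  | zero => exact h0
  | add x y _ _ hx hy => exact ha x y hx hy
  | smul c x _ hx => exact hs c x hx

lemma Op.id (P : C) : 𝟙 (R.H.obj P) ∈ Op R P P := by
  rw [← CategoryTheory.Functor.map_id]
  exact Op.map _

lemma Op.comp {P Q S : C} {x : R.H.obj P ⟶ R.H.obj Q} {y : R.H.obj Q ⟶ R.H.obj S}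
    (hx : x ∈ Op R P Q) (hy : y ∈ Op R Q S) : x ≫ y ∈ Op R P S := by
  refine Op.ind (p := fun x => x ≫ y ∈ Op R P S) ?_ ?_ ?_ ?_ hx
  · intro f
    refine Op.ind (p := fun y => R.H.map f ≫ y ∈ Op R P S) ?_ ?_ ?_ ?_ hy
    · intro g
      rw [← Functor.map_comp]
      exact Op.map _
    · rw [comp_zero]; exact Submodule.zero_mem _
    · intro a b ha hb; rw [Preadditive.comp_add]; exact Submodule.add_mem _ ha hb
    · intro c a ha; rw [Linear.comp_smul]; exact Submodule.smul_mem _ _ ha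
  · rw [zero_comp]; exact Submodule.zero_mem _
  · intro a b ha hb; rw [Preadditive.add_comp]; exact Submodule.add_mem _ ha hb
  · intro c a ha; rw [Linear.smul_comp]; exact Submodule.smul_mem _ _ ha

lemma Op.bx {P Q : C} {x : R.H.obj P ⟶ R.H.obj P} {y : R.H.obj Q ⟶ R.H.obj Q}
    (hx : x ∈ Op R P P) (hy : y ∈ Op R Q Q) : bx R x y ∈ Op R (P ⊗ Q) (P ⊗ Q) := by
  refine Op.ind (p := fun x => Pool.Agent.Y112.SC.bx R x y ∈ Op R (P ⊗ Q) (P ⊗ Q)) ?_ ?_ ?_ ?_ hx
  · intro f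
    refine Op.ind (p := fun y => Pool.Agent.Y112.SC.bx R (R.H.map f) y ∈ Op R (P ⊗ Q) (P ⊗ Q))
      ?_ ?_ ?_ ?_ hy
    · intro g
      rw [bx_map]
      exact Op.map _
    · rw [bx_zero_right]; exact Submodule.zero_mem _
    · intro a b ha hb; rw [bx_add_right]; exact Submodule.add_mem _ ha hb
    · intro c a ha; rw [bx_smul_right]; exact Submodule.smul_mem _ _ ha
  · rw [bx_zero_left]; exact Submodule.zero_mem _
  · intro a b ha hb; rw [bx_add_left]; exact Submodule.add_mem _ ha hb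
  · intro c a ha; rw [bx_smul_left]; exact Submodule.smul_mem _ _ ha

lemma Op.par {P Q : C} {x : R.H.obj P ⟶ R.H.obj Q} (hx : x ∈ Op R P Q) :
    x ≫ R.par Q = R.par P ≫ x := by
  refine Op.ind (p := fun x => x ≫ R.par Q = R.par P ≫ x) ?_ ?_ ?_ ?_ hx
  · intro f; exact R.par_natural f
  · rw [zero_comp, comp_zero]
  · intro a b ha hb; rw [Preadditive.add_comp, Preadditive.comp_add, ha, hb]
  · intro c a ha; rw [Linear.smul_comp, Linear.comp_smul, ha]

variable (R)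

lemma tr_cycl {V W : ModuleCat.{w} K} [Module.Finite K V] [Module.Finite K W] (x : V ⟶ W)
    (y : W ⟶ V) : LinearMap.trace K V (x ≫ y).hom = LinearMap.trace K W (y ≫ x).hom := by
  rw [ModuleCat.hom_comp, ModuleCat.hom_comp, LinearMap.trace_comp_comm']

/-- The supertrace. -/
noncomputable def st {P : C} (x : R.H.obj P ⟶ R.H.obj P) : K :=
  LinearMap.trace K (R.H.obj P) (x ≫ R.par P).hom

lemma st_add {P : C} (x y : R.H.obj P ⟶ R.H.obj P) : st R (x + y) = st R x + st R y := by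
  rw [st, Preadditive.add_comp, ModuleCat.hom_add, map_add]; rfl

lemma st_smul {P : C} (c : K) (x : R.H.obj P ⟶ R.H.obj P) : st R (c • x) = c * st R x := by
  rw [st, Linear.smul_comp, ModuleCat.hom_smul, map_smul, smul_eq_mul]; rfl

lemma st_zero {P : C} : st R (0 : R.H.obj P ⟶ R.H.obj P) = 0 := by
  have := st_smul R (0 : K) (0 : R.H.obj P ⟶ R.H.obj P)
  rwa [zero_smul, zero_mul] at this

lemma st_sub {P : C} (x y : R.H.obj P ⟶ R.H.obj P) : st R (x - y) = st R x - st R y := by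
  have := st_add R (x - y) y
  rw [sub_add_cancel] at this
  rw [this, add_sub_cancel_right]

lemma st_comm {P Q : C} {x : R.H.obj P ⟶ R.H.obj Q} {y : R.H.obj Q ⟶ R.H.obj P}
    (hy : y ≫ R.par P = R.par Q ≫ y) : st R (x ≫ y) = st R (y ≫ x) := by
  have h0 := R.finite P
  have h1 := R.finite Q
  rw [st, Category.assoc, hy, tr_cycl, Category.assoc, ← tr_cycl]
  rfl

lemma st_map (hU : UnitQ C) {P : C} (f : P ⟶ P) : st R (R.H.map f) = ((trq hU P f : ℚ) : K) :=
  (real_tr R hU f).symm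

lemma st_PT {Q X : C} (x : R.H.obj (Q ⊗ X) ⟶ R.H.obj (Q ⊗ X)) : st R (PT R x) = st R x := by
  have h := trace_PT R (𝟙 (R.H.obj Q)) x
  rw [bx_one, Category.id_comp, Category.id_comp] at h
  exact h

lemma PT_right {Q X : C} (b : R.H.obj Q ⟶ R.H.obj Q)
    (x : R.H.obj (Q ⊗ X) ⟶ R.H.obj (Q ⊗ X)) :
    PT R (x ≫ bx R b (𝟙 _)) = PT R x ≫ b := by
  have := PT_comp R (𝟙 _) b x
  rwa [bx_one, Category.id_comp, Category.id_comp] at this

lemma st_bx {P Q : C} (a : R.H.obj P ⟶ R.H.obj P) (b : R.H.obj Q ⟶ R.H.obj Q) :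
    st R (bx R a b) = st R a * st R b := by
  have hK := R_charZero R
  rw [← st_PT, PT_bx R two_ne_zero, st_smul, mul_comm]
  rfl

/-- The symmetry is natural with respect to even operators. -/
lemma bx_braid' {P Q : C} (b : R.H.obj P ⟶ R.H.obj P) (c : R.H.obj Q ⟶ R.H.obj Q)
    (hb : b ≫ R.par P = R.par P ≫ b) (hc : c ≫ R.par Q = R.par Q ≫ c) :
    bx R b c ≫ R.H.map (β_ P Q).hom = R.H.map (β_ P Q).hom ≫ bx R c b := by
  have hK := R_charZero R
  have h2 : (2 : K) ≠ 0 := two_ne_zero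
  have h3 : (b ⊗ₘ c) ≫ (𝟙 _ + R.par P ▷ R.H.obj Q + R.H.obj P ◁ R.par Q - (R.par P ⊗ₘ R.par Q)) =
      (𝟙 _ + R.par P ▷ R.H.obj Q + R.H.obj P ◁ R.par Q - (R.par P ⊗ₘ R.par Q)) ≫ (b ⊗ₘ c) := by
    simp only [Preadditive.sub_comp, Preadditive.add_comp, Preadditive.comp_sub,
      Preadditive.comp_add, Category.id_comp, Category.comp_id, ← tensorHom_id, ← id_tensorHom,
      tensorHom_comp_tensorHom, hb, hc]
  have h4 : (2 : K) • ((b ⊗ₘ c) ≫ μ R.H P Q ≫ R.H.map (β_ P Q).hom) =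
      (2 : K) • (μ R.H P Q ≫ R.H.map (β_ P Q).hom ≫ δ R.H Q P ≫ (c ⊗ₘ b) ≫ μ R.H Q P) := by
    rw [← Linear.comp_smul, R.symm, ← Category.assoc (b ⊗ₘ c), h3, Category.assoc,
      BraidedCategory.braiding_naturality_assoc]
    have h5 : (2 : K) • (μ R.H P Q ≫ R.H.map (β_ P Q).hom ≫ δ R.H Q P ≫ (c ⊗ₘ b) ≫ μ R.H Q P) =
        ((2 : K) • (μ R.H P Q ≫ R.H.map (β_ P Q).hom)) ≫ δ R.H Q P ≫ (c ⊗ₘ b) ≫ μ R.H Q P := by
      rw [Linear.smul_comp, Category.assoc]
    rw [h5, R.symm]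
    simp only [Category.assoc, Functor.Monoidal.μ_δ_assoc]
  have h5 := congrArg (fun z => (2 : K)⁻¹ • z) h4
  simp only [smul_smul, inv_mul_cancel₀ h2, one_smul] at h5
  rw [bx, Category.assoc, Category.assoc, h5, bx, Functor.Monoidal.δ_μ_assoc]

lemma bx_zero_right' {Q X : C} (a : R.H.obj Q ⟶ R.H.obj Q) :
    bx R a (0 : R.H.obj X ⟶ R.H.obj X) = 0 := by
  have := bx_smul_right R (0 : K) a (0 : R.H.obj X ⟶ R.H.obj X)
  simpa using this

/-- The left unitor. -/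
lemma bx_unit {P : C} (a : R.H.obj P ⟶ R.H.obj P) :
    bx R (𝟙 (R.H.obj (𝟙_ C))) a ≫ R.H.map (λ_ P).hom = R.H.map (λ_ P).hom ≫ a := by
  have h1 : R.H.map (λ_ P).hom = δ R.H (𝟙_ C) P ≫ η R.H ▷ R.H.obj P ≫ (λ_ (R.H.obj P)).hom :=
    Functor.Monoidal.map_leftUnitor R.H P
  rw [h1, bx, id_tensorHom]
  simp only [Category.assoc, Functor.Monoidal.μ_δ_assoc]
  rw [whisker_exchange_assoc, leftUnitor_naturality]

end

end Pool.Agent.E8helper91.ZO
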