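import Pool.Agent.Y112.KD.Kill

/-!
# Parity components of morphisms to `M ⊗ (M ⊗ (⋯ ⊗ N))` and numerical equivalence: definitions
-/

set_option autoImplicit false

open CategoryTheory Limits MonoidalCategory
open Pool.Agent.Y112.SR Pool.Agent.Y112.KD

namespace Pool.Agent.E8helper91.ZO

universe v u w

open Functor.LaxMonoidal Functor.OplaxMonoidal

/-- The object `M ⊗ (M ⊗ (⋯ ⊗ (M ⊗ N)))` with `n` factors `M`. -/
def tw {C : Type u} [Category.{v} C] [MonoidalCategory C] (M N : C) : ℕ → C
  | 0 => N
  | n + 1 => M ⊗ tw M N n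

section Num

variable {C : Type u} [Category.{v} C] [Preadditive C] [Linear ℚ C] [MonoidalCategory C]
  [MonoidalPreadditive C] [MonoidalLinear ℚ C] [SymmetricCategory C] [RightRigidCategory C]

/-- The morphism `f` is numerically trivial: `tr (f ≫ g) = 0` for all `g : Q ⟶ P`. -/
def NumZero (hU : UnitQ C) {P Q : C} (f : P ⟶ Q) : Prop := ∀ g : Q ⟶ P, trq hU P (f ≫ g) = 0

/-- The numerically trivial morphisms. -/
def numTriv (hU : UnitQ C) (P Q : C) : Submodule ℚ (P ⟶ Q) where
  carrier := {f | NumZero hU f}
  add_mem' {f f'} hf hf' g := by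
    have h : (f + f') ≫ g = f ≫ g + f' ≫ g := Preadditive.add_comp _ _ _ _ _ _
    rw [h]
    refine (map_add (trq hU P) (f ≫ g : End P) (f' ≫ g : End P)).trans ?_
    rw [hf g, hf' g, add_zero]
  zero_mem' g := by
    have h : (0 : P ⟶ Q) ≫ g = 0 := zero_comp
    rw [h]
    exact map_zero (trq hU P)
  smul_mem' c f hf g := by
    have h : (c • f) ≫ g = c • (f ≫ g) := Linear.smul_comp _ _ _ _ _ _
    rw [h]
    refine (map_smul (trq hU P) c (f ≫ g : End P)).trans ?_
    rw [hf g, smul_zero]

/-- The dimension of the space spanned by `S` modulo the numerically trivial morphisms. -/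
noncomputable def numDim (hU : UnitQ C) {P Q : C} (S : Set (P ⟶ Q)) : ℕ :=
  Module.finrank ℚ ((Submodule.span ℚ S).map (numTriv hU P Q).mkQ)

end Num

section Par

variable {C : Type u} [Category.{v} C] [Preadditive C] [MonoidalCategory C] [SymmetricCategory C]
  {K : Type w} [Field K] (R : SuperRealisation C K)

/-- The parity operator of the factor `M` with the number `m < n` (counted from zero) on the
realisation of `M ⊗ (⋯ ⊗ (M ⊗ N))`: the involution of the realisation of this factor, tensored with
the identity on the other factors. -/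
noncomputable def parAt (M N : C) :
    ∀ n : ℕ, ℕ → (R.H.obj (tw M N n) ⟶ R.H.obj (tw M N n))
  | 0, _ => 𝟙 _
  | n + 1, 0 => δ R.H M (tw M N n) ≫ (R.par M ⊗ₘ 𝟙 _) ≫ μ R.H M (tw M N n)
  | n + 1, m + 1 => δ R.H M (tw M N n) ≫ (𝟙 _ ⊗ₘ parAt M N n m) ≫ μ R.H M (tw M N n)

/-- The products of the parity operators of the factors `M`. -/
noncomputable def parWord (M N : C) (n : ℕ) :
    List ℕ → (R.H.obj (tw M N n) ⟶ R.H.obj (tw M N n))
  | [] => 𝟙 _
  | m :: l => parAt R M N n m ≫ parWord M N n l

/-- The good morphisms `P ⟶ M ⊗ (⋯ ⊗ (M ⊗ N))`: for each of the `n` factors `M` the component of the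
realisation which is even in this factor is again the realisation of a morphism. -/
def goodSet (M N P : C) (n : ℕ) : Set (P ⟶ tw M N n) :=
  {f | ∀ m < n, ∃ w : P ⟶ tw M N n,
    (2 : K) • R.H.map w = R.H.map f ≫ (𝟙 _ + parAt R M N n m)}

/-- All components of `f` with respect to the parities in all factors `M` of the source and of the
target are realisations of morphisms. (Products of parity operators are used instead of the
projectors; they have the same span.) -/
def AllAlg (M P N : C) (m n : ℕ) (f : tw M P m ⟶ tw M N n) : Prop :=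
  ∀ l l' : List ℕ, ∃ w : tw M P m ⟶ tw M N n,
    R.H.map w = parWord R M P m l ≫ R.H.map f ≫ parWord R M N n l'

end Par

section CPlus

variable {C : Type u} [Category.{v} C] [Preadditive C] [Linear ℚ C] [MonoidalCategory C]
  [MonoidalPreadditive C] [MonoidalLinear ℚ C] [SymmetricCategory C] [RightRigidCategory C]
  {K : Type w} [Field K] (R : SuperRealisation C K)

/-- The sign conjecture for `M` modulo numerical equivalence: for some endomorphism `u` which is
numerically equivalent to the identity, the even component of `u` is the realisation of an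
endomorphism. -/
def NumCPlus (hU : UnitQ C) (M : C) : Prop :=
  ∃ u : M ⟶ M, NumZero hU (𝟙 M - u) ∧
    ∃ w : M ⟶ M, (2 : K) • R.H.map w = R.H.map u ≫ (𝟙 _ + R.par M)

end CPlus

end Pool.Agent.E8helper91.ZO
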