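import Pool.Agent.E8helper91.ZO.Ratio

/-!
# Dimensions over the rational numbers and over the coefficient field
-/

set_option autoImplicit false
set_option linter.unusedSectionVars false

open CategoryTheory Limits MonoidalCategory Module
open Pool.Agent.Y112.SR Pool.Agent.Y112.KD Pool.Agent.Y112.SC Pool.Agent.Y133.Half

namespace Pool.Agent.E8helper91.ZO

universe v u w

/-- Dual vectors of linearly independent linear forms. -/
lemma exists_dual_vectors' {K B : Type*} [Field K] [AddCommGroup B] [Module K B] {r : ℕ}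
    {v : Fin r → Dual K B} (hv : LinearIndependent K v) :
    ∃ y : Fin r → B, ∀ i j, v i (y j) = if i = j then 1 else 0 := by
  have hs : Function.Surjective (LinearMap.pi v) := by
    rw [← LinearMap.dualMap_injective_iff, ← LinearMap.ker_eq_bot, LinearMap.ker_eq_bot']
    intro φ hφ
    have h1 : ∑ i, φ (Pi.single i 1) • v i = 0 := by
      apply LinearMap.ext
      intro b
      have h2 := congrArg (fun f : Dual K B => f b) hφ
      simp only [LinearMap.dualMap_apply, LinearMap.zero_apply] at h2
      refine Eq.trans ?_ h2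
      have h3 : LinearMap.pi v b = ∑ i, v i b • (Pi.single i (1 : K) : Fin r → K) := by
        funext j
        simp [Finset.sum_apply, Pi.single_apply]
      rw [h3, map_sum, LinearMap.sum_apply]
      refine Finset.sum_congr rfl fun i _ => ?_
      rw [map_smul, LinearMap.smul_apply, smul_eq_mul, smul_eq_mul, mul_comm]
    have h4 := Fintype.linearIndependent_iff.1 hv _ h1
    apply LinearMap.pi_ext'
    intro i
    apply LinearMap.ext_ring
    simpa using h4 i
  choose y hy using fun j : Fin r => hs (Pi.single j 1)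
  refine ⟨y, fun i j => ?_⟩
  have := congrFun (hy j) i
  rw [LinearMap.pi_apply] at this
  rw [this, Pi.single_apply]

section

variable {C : Type u} [Category.{v} C] [Preadditive C] [Linear ℚ C] [MonoidalCategory C]
  [MonoidalPreadditive C] [MonoidalLinear ℚ C] [SymmetricCategory C] [RightRigidCategory C]
  {K : Type w} [Field K] {R : SuperRealisation C K}

/-- The pairing of the morphisms. -/
noncomputable def prg (hU : UnitQ C) (P Q : C) : (P ⟶ Q) →ₗ[ℚ] Dual ℚ (Q ⟶ P) :=
  LinearMap.mk₂ ℚ (fun f g => trq hU P (f ≫ g))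
    (fun f f' g => by rw [Preadditive.add_comp, trq_add])
    (fun c f g => by rw [Linear.smul_comp, trq_smul, smul_eq_mul])
    (fun f g g' => by rw [Preadditive.comp_add, trq_add])
    (fun c f g => by rw [Linear.comp_smul, trq_smul, smul_eq_mul])

lemma prg_apply (hU : UnitQ C) {P Q : C} (f : P ⟶ Q) (g : Q ⟶ P) :
    prg hU P Q f g = trq hU P (f ≫ g) := rfl

lemma ker_prg (hU : UnitQ C) (P Q : C) : LinearMap.ker (prg hU P Q) = numTriv hU P Q := by
  ext f
  rw [LinearMap.mem_ker]
  constructor
  · intro h g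
    exact congrArg (fun φ : Dual ℚ (Q ⟶ P) => φ g) h
  · intro h
    exact LinearMap.ext h

/-- Classes which are linearly independent modulo numerical equivalence have dual morphisms. -/
lemma exists_dual_mor (hU : UnitQ C) {P Q : C} {r : ℕ} {f : Fin r → (P ⟶ Q)}
    (hf : LinearIndependent ℚ (fun i => (numTriv hU P Q).mkQ (f i))) :
    ∃ g : Fin r → (Q ⟶ P), ∀ i j, trq hU P (f i ≫ g j) = if i = j then 1 else 0 := by
  have h1 : LinearIndependent ℚ (fun i => prg hU P Q (f i)) := by
    rw [Fintype.linearIndependent_iff]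
    intro c hc
    apply Fintype.linearIndependent_iff.1 hf
    have h2 : ∑ i, c i • f i ∈ numTriv hU P Q := by
      rw [← ker_prg, LinearMap.mem_ker, map_sum]
      simp only [map_smul]
      exact hc
    have h3 : (numTriv hU P Q).mkQ (∑ i, c i • f i) = 0 := by
      rw [Submodule.mkQ_apply, Submodule.Quotient.mk_eq_zero]
      exact h2
    rw [map_sum] at h3
    simpa only [map_smul] using h3
  exact exists_dual_vectors' h1

/-- A linearly independent family modulo numerical equivalence. -/
lemma card_le_rB (hU : UnitQ C) {P Q : C} {r : ℕ} {f : Fin r → (P ⟶ Q)}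
    (hf : LinearIndependent ℚ (fun i => (numTriv hU P Q).mkQ (f i)))
    {E : R.H.obj Q ⟶ R.H.obj Q} (hE : ∀ i, NZ R (R.H.map (f i) - R.H.map (f i) ≫ E)) :
    r ≤ rB R P Q (𝟙 _) E := by
  obtain ⟨g, hg⟩ := exists_dual_mor hU hf
  have h1 := le_rB (R := R) (P := P) (Q := Q) (p := 𝟙 _) (q := E) (fun i => R.H.map (f i))
    (fun i => R.H.map (g i)) (fun i => Op.map _) (fun i => Op.map _) ?_
  · rwa [Fintype.card_fin] at h1
  · intro i j
    rw [Category.id_comp]
    have h2 := hE i _ (Op.map (g j))
    rw [Preadditive.sub_comp, st_sub, sub_eq_zero, ← Functor.map_comp, st_map R hU, hg,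
      Category.assoc] at h2
    rw [← h2]
    split_ifs <;> simp

/-- The dimension of a set of morphisms modulo numerical equivalence. -/
lemma numDim_le_rB (hU : UnitQ C) {P Q : C} {S : Set (P ⟶ Q)} {E : R.H.obj Q ⟶ R.H.obj Q}
    (hE : ∀ f ∈ S, NZ R (R.H.map f - R.H.map f ≫ E)) : numDim hU S ≤ rB R P Q (𝟙 _) E := by
  have hK := R_charZero R
  have hE' : ∀ f ∈ Submodule.span ℚ S, NZ R (R.H.map f - R.H.map f ≫ E) := by
    intro f hf
    refine Submodule.span_induction (p := fun f _ => NZ R (R.H.map f - R.H.map f ≫ E))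
      ?_ ?_ ?_ ?_ hf
    · exact hE
    · rw [Functor.map_zero, zero_comp, sub_zero]; exact NZ.zero
    · intro a b _ _ ha hb
      have : R.H.map (a + b) - R.H.map (a + b) ≫ E = (R.H.map a - R.H.map a ≫ E) +
          (R.H.map b - R.H.map b ≫ E) := by
        rw [Functor.map_add, Preadditive.add_comp]; abel
      rw [this]
      exact ha.add hb
    · intro c a _ ha
      have : R.H.map (c • a) - R.H.map (c • a) ≫ E = (c : K) • (R.H.map a - R.H.map a ≫ E) := by
        rw [R_smul, Linear.smul_comp, smul_sub]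
      rw [this]
      exact ha.smul _
  set T := (Submodule.span ℚ S).map (numTriv hU P Q).mkQ with hT
  by_cases hfin : Module.Finite ℚ T
  · let w : Basis (Fin (finrank ℚ T)) ℚ T := Module.finBasis ℚ T
    have hw : ∀ i, ∃ f ∈ Submodule.span ℚ S, (numTriv hU P Q).mkQ f = w i := fun i => (w i).2
    choose f hf hfw using hw
    refine card_le_rB hU (f := f) ?_ fun i => hE' _ (hf i)
    have h1 : LinearIndependent ℚ (T.subtype ∘ w) := w.linearIndependent.map' T.subtype T.ker_subtype
    have h2 : (fun i => (numTriv hU P Q).mkQ (f i)) = T.subtype ∘ w := by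
      funext i
      rw [hfw i]
      rfl
    rw [h2]
    exact h1
  · have h1 : numDim hU S = 0 := Module.finrank_of_not_finite hfin
    rw [h1]
    exact Nat.zero_le _

variable (R) in
include R in
/-- The morphisms modulo numerical equivalence form a finite dimensional space. -/
lemma finite_quot (hU : UnitQ C) (P Q : C) : Module.Finite ℚ ((P ⟶ Q) ⧸ numTriv hU P Q) := by
  have h1 : Module.rank ℚ ((P ⟶ Q) ⧸ numTriv hU P Q) ≤ (rB R P Q (𝟙 _) (𝟙 _) : ℕ) := by
    apply rank_le
    intro s hs
    classical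
    let e := s.equivFin
    have h2 : LinearIndependent ℚ (fun i : Fin s.card => ((e.symm i : s) : (P ⟶ Q) ⧸ numTriv hU P Q)) :=
      hs.comp _ e.symm.injective
    choose f hf using fun i : Fin s.card => (numTriv hU P Q).mkQ_surjective
      ((e.symm i : s) : (P ⟶ Q) ⧸ numTriv hU P Q)
    refine card_le_rB hU (f := f) ?_ fun i => ?_
    · simp only [hf]
      exact h2
    · rw [Category.comp_id, sub_self]
      exact NZ.zero
  exact Module.rank_lt_aleph0_iff.1 (h1.trans_lt (Cardinal.natCast_lt_aleph0))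

variable (R) in
/-- The functional given by an operator. -/
noncomputable def fun1 (P Q : C) : (R.H.obj P ⟶ R.H.obj Q) →ₗ[K] (Op R Q P →ₗ[K] K) :=
  LinearMap.mk₂ K (fun x y => st R (x ≫ (y : R.H.obj Q ⟶ R.H.obj P)))
    (fun x x' y => by rw [Preadditive.add_comp, st_add])
    (fun c x y => by rw [Linear.smul_comp, st_smul, smul_eq_mul])
    (fun x y y' => by rw [Submodule.coe_add, Preadditive.comp_add, st_add])
    (fun c x y => by rw [Submodule.coe_smul, Linear.comp_smul, st_smul, smul_eq_mul])

lemma fun1_apply {P Q : C} (x : R.H.obj P ⟶ R.H.obj Q) (y : Op R Q P) :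
    fun1 R P Q x y = st R (x ≫ (y : R.H.obj Q ⟶ R.H.obj P)) := rfl

lemma fm_eq {P Q : C} (x : Op R P Q) :
    fm R P Q (𝟙 _) (𝟙 _) x = fun1 R P Q (x : R.H.obj P ⟶ R.H.obj Q) := by
  apply LinearMap.ext
  intro y
  rw [fun1_apply]
  change st R (𝟙 _ ≫ (x : R.H.obj P ⟶ R.H.obj Q) ≫ 𝟙 _ ≫ (y : R.H.obj Q ⟶ R.H.obj P)) = _
  rw [Category.id_comp, Category.id_comp]

/-- The rank of the form is at most the dimension of the space of morphisms modulo numerical
equivalence. -/
lemma rB_le_numDim (hU : UnitQ C) (P Q : C) :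
    rB R P Q (𝟙 _) (𝟙 _) ≤ numDim hU (Set.univ : Set (P ⟶ Q)) := by
  have hK := R_charZero R
  have hfin := finite_quot R hU P Q
  have h0 : numDim hU (Set.univ : Set (P ⟶ Q)) = finrank ℚ ((P ⟶ Q) ⧸ numTriv hU P Q) := by
    rw [numDim, Submodule.span_univ, Submodule.map_top, Submodule.range_mkQ, finrank_top]
  rw [h0]
  let w : Basis (Fin (finrank ℚ ((P ⟶ Q) ⧸ numTriv hU P Q))) ℚ ((P ⟶ Q) ⧸ numTriv hU P Q) :=
    Module.finBasis ℚ _
  choose f hf using fun i => (numTriv hU P Q).mkQ_surjective (w i)
  have h1 : LinearMap.range (fm R P Q (𝟙 _) (𝟙 _)) ≤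
      Submodule.span K (Set.range fun i => fun1 R P Q (R.H.map (f i))) := by
    rintro _ ⟨⟨x, hx⟩, rfl⟩
    rw [fm_eq]
    have h2 : fun1 R P Q x ∈ (Submodule.span K (Set.range fun f : P ⟶ Q => R.H.map f)).map
        (fun1 R P Q) := ⟨x, hx, rfl⟩
    rw [Submodule.map_span] at h2
    refine Submodule.span_le.2 ?_ h2
    rintro _ ⟨_, ⟨g, rfl⟩, rfl⟩
    have h2 := w.sum_repr ((numTriv hU P Q).mkQ g)
    set c := w.repr ((numTriv hU P Q).mkQ g) with hc
    have h3 : g - ∑ i, c i • f i ∈ numTriv hU P Q := by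
      rw [← Submodule.Quotient.mk_eq_zero, ← Submodule.mkQ_apply, map_sub, map_sum, sub_eq_zero,
        ← h2]
      refine Finset.sum_congr rfl fun i _ => ?_
      rw [map_smul, hf]
    have h4 := (numZero_iff (R := R) hU _).1 h3
    have h5 : fun1 R P Q (R.H.map g) = fun1 R P Q (R.H.map (∑ i, c i • f i)) := by
      apply LinearMap.ext
      intro y
      have h6 := h4 y y.2
      rw [Functor.map_sub, Preadditive.sub_comp, st_sub, sub_eq_zero] at h6
      exact h6
    have h6 : R.H.map (∑ i, c i • f i) = ∑ i, (c i : K) • R.H.map (f i) := by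
      rw [Functor.map_sum]
      exact Finset.sum_congr rfl fun i _ => R_smul R _ _
    rw [SetLike.mem_coe]
    change fun1 R P Q (R.H.map g) ∈ _
    rw [h5, h6, map_sum]
    refine Submodule.sum_mem _ fun i _ => ?_
    rw [map_smul]
    exact Submodule.smul_mem _ _ (Submodule.subset_span ⟨i, rfl⟩)
  have h2 : Module.Finite K (Submodule.span K
      (Set.range fun i => fun1 R P Q (R.H.map (f i)))) :=
    Module.Finite.span_of_finite K (Set.finite_range _)
  refine (Submodule.finrank_mono h1).trans ((finrank_range_le_card _).trans ?_)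
  rw [Fintype.card_fin]

end

end Pool.Agent.E8helper91.ZO
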