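import Pool.Agent.E8helper91.ZO.Form

/-!
# Dimensions of tensor products and duals
-/

set_option autoImplicit false
set_option linter.unusedSectionVars false
set_option backward.isDefEq.respectTransparency false
set_option backward.defeqAttrib.useBackward true

open CategoryTheory Limits MonoidalCategory Module
open Pool.Agent.Y112.SR Pool.Agent.Y112.KD Pool.Agent.Y112.SC Pool.Agent.Y133.Half

namespace Pool.Agent.E8helper91.ZO

universe v u w

open Functor.LaxMonoidal Functor.OplaxMonoidal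

section

variable {C : Type u} [Category.{v} C] [Preadditive C] [Linear ℚ C] [MonoidalCategory C]
  [MonoidalPreadditive C] [MonoidalLinear ℚ C] [SymmetricCategory C] [RightRigidCategory C]
  {K : Type w} [Field K] (R : SuperRealisation C K)

/-- The dimension of the realisation. -/
noncomputable def dm (P : C) : ℕ := finrank K (R.H.obj P)

lemma dm_tensor (P Q : C) : dm R (P ⊗ Q) = dm R P * dm R Q := by
  have h1 : (R.H.obj P ⊗ R.H.obj Q : ModuleCat.{w} K) ≅ R.H.obj (P ⊗ Q) :=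
    Functor.Monoidal.μIso R.H P Q
  have h2 := h1.toLinearEquiv.finrank_eq
  rw [dm, ← h2]
  exact Module.finrank_tensorProduct (R := K) (M := R.H.obj P) (M' := R.H.obj Q)

lemma zigzag' (N : C) : R.H.obj Nᘁ ◁ coe R N ≫ (α_ _ _ _).inv ≫ evb R N ▷ R.H.obj Nᘁ =
    (ρ_ (R.H.obj Nᘁ)).hom ≫ (λ_ (R.H.obj Nᘁ)).inv := by
  rw [← cancel_mono (λ_ (R.H.obj Nᘁ)).hom]
  simp only [Category.assoc, Iso.inv_hom_id, Category.comp_id]
  have h3 : (λ_ (R.H.obj Nᘁ)).hom = ε R.H ▷ R.H.obj Nᘁ ≫ μ R.H (𝟙_ C) Nᘁ ≫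
      R.H.map (λ_ Nᘁ).hom := Functor.LaxMonoidal.left_unitality R.H Nᘁ
  rw [h3, coe, evb]
  simp only [comp_whiskerRight, MonoidalCategory.whiskerLeft_comp, Category.assoc]
  have h4 : η R.H ▷ R.H.obj Nᘁ ≫ ε R.H ▷ R.H.obj Nᘁ = 𝟙 _ := by
    rw [← comp_whiskerRight, Functor.Monoidal.η_ε, id_whiskerRight]
  rw [reassoc_of% h4, μ_natural_left_assoc]
  have h5 := Functor.LaxMonoidal.associativity_inv (F := R.H) Nᘁ N Nᘁ
  have h6 : (R.H.obj Nᘁ ◁ δ R.H N Nᘁ) ≫ (R.H.obj Nᘁ ◁ μ R.H N Nᘁ) = 𝟙 _ := by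
    rw [← MonoidalCategory.whiskerLeft_comp, Functor.Monoidal.δ_μ, MonoidalCategory.whiskerLeft_id]
  rw [← reassoc_of% h5, reassoc_of% h6, μ_natural_right_assoc, ← Functor.map_comp,
    ← Functor.map_comp, ← Functor.map_comp]
  have h7 : Nᘁ ◁ η_ N Nᘁ ≫ (α_ Nᘁ N Nᘁ).inv ≫ ε_ N Nᘁ ▷ Nᘁ ≫ (λ_ Nᘁ).hom = (ρ_ Nᘁ).hom := by
    rw [ExactPairing.coevaluation_evaluation_assoc]
    simp
  rw [h7]
  exact (Functor.LaxMonoidal.right_unitality R.H Nᘁ).symm

/-- The pairing of the realisation of the dual. -/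
noncomputable def dpair (N : C) : R.H.obj Nᘁ →ₗ[K] Dual K (R.H.obj N) :=
  TensorProduct.curry ((evb R N).hom : TensorProduct K (R.H.obj Nᘁ) (R.H.obj N) →ₗ[K] K)

lemma dpair_apply (N : C) (x : R.H.obj Nᘁ) (n : R.H.obj N) :
    dpair R N x n = (evb R N).hom (x ⊗ₜ[K] n : TensorProduct K (R.H.obj Nᘁ) (R.H.obj N)) := rfl

lemma dpair_inj (N : C) : Function.Injective (dpair R N) := by
  rw [← LinearMap.ker_eq_bot, LinearMap.ker_eq_bot']
  intro x hx
  have h1 : ∀ t : TensorProduct K (R.H.obj N) (R.H.obj Nᘁ),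
      ((α_ (R.H.obj Nᘁ) (R.H.obj N) (R.H.obj Nᘁ)).inv ≫ evb R N ▷ R.H.obj Nᘁ).hom
        (x ⊗ₜ[K] t : TensorProduct K (R.H.obj Nᘁ) (TensorProduct K (R.H.obj N) (R.H.obj Nᘁ))) =
          0 := by
    intro t
    induction t using TensorProduct.induction_on with
    | zero =>
      rw [TensorProduct.tmul_zero]
      exact map_zero _
    | add a b ha hb =>
      rw [TensorProduct.tmul_add]
      refine (map_add _ _ _).trans ?_
      rw [ha, hb, add_zero]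
    | tmul n y =>
      change (((evb R N).hom (x ⊗ₜ[K] n : TensorProduct K (R.H.obj Nᘁ) (R.H.obj N)) : K) ⊗ₜ[K] y :
        TensorProduct K K (R.H.obj Nᘁ)) = 0
      rw [← dpair_apply, hx]
      exact TensorProduct.zero_tmul _ _
  have h2 := congrArg ModuleCat.Hom.hom (zigzag' R N)
  have h3 := LinearMap.congr_fun h2 (x ⊗ₜ[K] (1 : K) : TensorProduct K (R.H.obj Nᘁ) K)
  have h4 : (R.H.obj Nᘁ ◁ coe R N ≫ (α_ _ _ _).inv ≫ evb R N ▷ R.H.obj Nᘁ).hom
      (x ⊗ₜ[K] (1 : K) : TensorProduct K (R.H.obj Nᘁ) K) = 0 := h1 ((coe R N).hom (1 : K))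
  have h5 : ((ρ_ (R.H.obj Nᘁ)).hom ≫ (λ_ (R.H.obj Nᘁ)).inv).hom
      (x ⊗ₜ[K] (1 : K) : TensorProduct K (R.H.obj Nᘁ) K) =
      ((1 : K) ⊗ₜ[K] ((1 : K) • x) : TensorProduct K K (R.H.obj Nᘁ)) := rfl
  rw [h4, h5, one_smul] at h3
  have h6 := congrArg (TensorProduct.lid K (R.H.obj Nᘁ)) h3
  rw [map_zero, TensorProduct.lid_tmul, one_smul] at h6
  exact h6.symm

lemma dm_dual_le (N : C) : dm R Nᘁ ≤ dm R N := by
  have h := LinearMap.finrank_le_finrank_of_injective (dpair_inj R N)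
  rwa [Subspace.dual_finrank_eq] at h

end

end Pool.Agent.E8helper91.ZO
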