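import Pool.Agent.E8helper91.ZO.Base

/-!
# Ranks of trace forms
-/

set_option autoImplicit false
set_option linter.unusedSectionVars false

open CategoryTheory Limits MonoidalCategory Module
open Pool.Agent.Y112.SR Pool.Agent.Y112.KD Pool.Agent.Y112.SC Pool.Agent.Y133.Half

namespace Pool.Agent.E8helper91.ZO

universe v u w

section rk

variable {K A B : Type*} [Field K] [AddCommGroup A] [Module K A] [AddCommGroup B] [Module K B]
  [FiniteDimensional K A] [FiniteDimensional K B]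

lemma card_le_rk {ι : Type*} [Fintype ι] [DecidableEq ι] {β : A →ₗ[K] B →ₗ[K] K} (x : ι → A)
    (y : ι → B) (h : ∀ i j, β (x i) (y j) = if i = j then 1 else 0) : Fintype.card ι ≤ rk β := by
  have h1 : LinearIndependent K (fun i => β (x i)) := by
    rw [Fintype.linearIndependent_iff]
    intro c hc j
    have h3 : (∑ i, c i • β (x i)) (y j) = 0 := by rw [hc]; rfl
    rw [LinearMap.sum_apply] at h3
    simp only [LinearMap.smul_apply, smul_eq_mul, h, mul_ite, mul_one, mul_zero,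
      Finset.sum_ite_eq', Finset.mem_univ, if_true] at h3
    exact h3
  have h2 : Submodule.span K (Set.range fun i => β (x i)) ≤ LinearMap.range β := by
    rw [Submodule.span_le]
    rintro _ ⟨i, rfl⟩
    exact ⟨x i, rfl⟩
  rw [← finrank_span_eq_card h1, rk]
  exact Submodule.finrank_mono h2

lemma exists_dual (β : A →ₗ[K] B →ₗ[K] K) : ∃ (x : Fin (rk β) → A) (y : Fin (rk β) → B),
    ∀ i j, β (x i) (y j) = if i = j then 1 else 0 := by
  obtain ⟨v, hv, hspan⟩ := exists_fam (V := Dual K B) (LinearMap.range β)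
  have hvr : ∀ i, ∃ x, β x = v i := fun i => by
    have : v i ∈ LinearMap.range β := by
      rw [← hspan]; exact Submodule.subset_span ⟨i, rfl⟩
    exact this
  choose x hx using hvr
  obtain ⟨y, hy⟩ := exists_dual_vectors hv
  exact ⟨x, y, fun i j => (congrArg (fun f : Dual K B => f (y j)) (hx i)).trans (hy i j)⟩

end rk

section

variable {C : Type u} [Category.{v} C] [Preadditive C] [Linear ℚ C] [MonoidalCategory C]
  [MonoidalPreadditive C] [MonoidalLinear ℚ C] [SymmetricCategory C] [RightRigidCategory C]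
  {K : Type w} [Field K] (R : SuperRealisation C K)

instance finite_hom (V W : ModuleCat.{w} K) [Module.Finite K V] [Module.Finite K W] :
    Module.Finite K (V ⟶ W) :=
  Module.Finite.equiv (ModuleCat.homLinearEquiv (S := K) (M := V) (N := W)).symm

instance finite_R (P : C) : Module.Finite K (R.H.obj P) := R.finite P

/-- The form `st (p x q y)`. -/
noncomputable def fm (P Q : C) (p : R.H.obj P ⟶ R.H.obj P) (q : R.H.obj Q ⟶ R.H.obj Q) :
    Op R P Q →ₗ[K] Op R Q P →ₗ[K] K :=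
  LinearMap.mk₂ K (fun x y => st R (p ≫ (x : R.H.obj P ⟶ R.H.obj Q) ≫ q ≫
      (y : R.H.obj Q ⟶ R.H.obj P)))
    (fun x x' y => by
      rw [Submodule.coe_add, Preadditive.add_comp, Preadditive.comp_add, st_add])
    (fun c x y => by
      rw [Submodule.coe_smul, Linear.smul_comp, Linear.comp_smul, st_smul, smul_eq_mul])
    (fun x y y' => by
      rw [Submodule.coe_add, Preadditive.comp_add, Preadditive.comp_add, Preadditive.comp_add,
        st_add])
    (fun c x y => by
      rw [Submodule.coe_smul, Linear.comp_smul, Linear.comp_smul, Linear.comp_smul, st_smul,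
        smul_eq_mul])

/-- The rank of the form. -/
noncomputable def rB (P Q : C) (p : R.H.obj P ⟶ R.H.obj P) (q : R.H.obj Q ⟶ R.H.obj Q) : ℕ :=
  rk (fm R P Q p q)

/-- The dimension of the endomorphism ring of `(P, p)` modulo numerical equivalence. -/
noncomputable def en (P : C) (p : R.H.obj P ⟶ R.H.obj P) : ℕ := rB R P P p p

variable {R}

lemma le_rB {P Q : C} {p : R.H.obj P ⟶ R.H.obj P} {q : R.H.obj Q ⟶ R.H.obj Q} {ι : Type*}
    [Fintype ι] [DecidableEq ι] (x : ι → (R.H.obj P ⟶ R.H.obj Q))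
    (y : ι → (R.H.obj Q ⟶ R.H.obj P)) (hx : ∀ i, x i ∈ Op R P Q) (hy : ∀ i, y i ∈ Op R Q P)
    (h : ∀ i j, st R (p ≫ x i ≫ q ≫ y j) = if i = j then 1 else 0) :
    Fintype.card ι ≤ rB R P Q p q :=
  card_le_rk (β := fm R P Q p q) (fun i => ⟨x i, hx i⟩) (fun i => ⟨y i, hy i⟩) h

variable (R) in
lemma exists_rB (P Q : C) (p : R.H.obj P ⟶ R.H.obj P) (q : R.H.obj Q ⟶ R.H.obj Q) :
    ∃ (x : Fin (rB R P Q p q) → (R.H.obj P ⟶ R.H.obj Q))
      (y : Fin (rB R P Q p q) → (R.H.obj Q ⟶ R.H.obj P)), (∀ i, x i ∈ Op R P Q) ∧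
      (∀ i, y i ∈ Op R Q P) ∧
      ∀ i j, st R (p ≫ x i ≫ q ≫ y j) = if i = j then 1 else 0 := by
  obtain ⟨x, y, h⟩ := exists_dual (fm R P Q p q)
  exact ⟨fun i => x i, fun i => y i, fun i => (x i).2, fun i => (y i).2, h⟩

/-- The transport to spaces of linear maps. -/
noncomputable def toL {V W : ModuleCat.{w} K} (S : Submodule K (V ⟶ W)) :
    S →ₗ[K] (S.map (ModuleCat.homLinearEquiv (S := K) (M := V) (N := W)).toLinearMap) :=
  (ModuleCat.homLinearEquiv (S := K) (M := V) (N := W)).toLinearMap.restrict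
    fun x hx => ⟨x, hx, rfl⟩

lemma toL_surj {V W : ModuleCat.{w} K} (S : Submodule K (V ⟶ W)) :
    Function.Surjective (toL S) := by
  rintro ⟨_, x, hx, rfl⟩
  exact ⟨⟨x, hx⟩, rfl⟩

variable (R) in
/-- The spaces of algebraic operators between `P` and `Q`. -/
noncomputable def opCat (X : Fin 2 → C) : Cat K (fun i => R.H.obj (X i)) where
  p i := (R.par (X i)).hom
  p_sq i := by
    have h := congrArg ModuleCat.Hom.hom (R.par_sq (X i))
    rwa [ModuleCat.hom_comp, ModuleCat.hom_id] at h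
  S i j := (Op R (X j) (X i)).map (ModuleCat.homLinearEquiv (S := K)).toLinearMap
  one i := ⟨𝟙 _, Op.id _, rfl⟩
  mul := by
    rintro i j k _ _ ⟨x, hx, rfl⟩ ⟨y, hy, rfl⟩
    exact ⟨y ≫ x, Op.comp hy hx, rfl⟩
  comm := by
    rintro i j _ ⟨x, hx, rfl⟩
    have h := congrArg ModuleCat.Hom.hom (Op.par hx)
    rw [ModuleCat.hom_comp, ModuleCat.hom_comp] at h
    exact h

lemma opCat_rk (X : Fin 2 → C) (i j : Fin 2) {p : R.H.obj (X i) ⟶ R.H.obj (X i)}
    (hp : p ∈ Op R (X i) (X i)) (q : R.H.obj (X j) ⟶ R.H.obj (X j)) :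
    rk ((opCat R X).B i j p.hom q.hom) = rB R (X i) (X j) p q := by
  have h1 : (fm R (X i) (X j) p q).flip =
      ((opCat R X).B i j p.hom q.hom).compl₁₂ (toL (Op R (X j) (X i))) (toL (Op R (X i) (X j))) := by
    apply LinearMap.ext
    intro y
    apply LinearMap.ext
    intro x
    have h2 : st R (p ≫ (x : R.H.obj (X i) ⟶ R.H.obj (X j)) ≫ q ≫
        (y : R.H.obj (X j) ⟶ R.H.obj (X i))) =
        st R (((x : R.H.obj (X i) ⟶ R.H.obj (X j)) ≫ q ≫
        (y : R.H.obj (X j) ⟶ R.H.obj (X i))) ≫ p) := (st_comm R (Op.par hp)).symm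
    exact h2
  have h3 := rk_comp ((opCat R X).B i j p.hom q.hom) (toL_surj (Op R (X j) (X i)))
    (toL_surj (Op R (X i) (X j)))
  have h4 := rk_flip (fm R (X i) (X j) p q)
  rw [rB, ← h4, h1]
  exact h3.symm

/-- **The Cauchy-Schwarz inequality.** -/
lemma cs (P Q : C) {p : R.H.obj P ⟶ R.H.obj P} (hp : p ∈ Op R P P) (hpp : p ≫ p = p)
    {q : R.H.obj Q ⟶ R.H.obj Q} (hq : q ∈ Op R Q Q) (hqq : q ≫ q = q) :
    rB R P Q p q ^ 2 ≤ en R P p * en R Q q := by
  have hK := R_charZero R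
  have hpp' := congrArg ModuleCat.Hom.hom hpp
  have hqq' := congrArg ModuleCat.Hom.hom hqq
  rw [ModuleCat.hom_comp] at hpp' hqq'
  let X : Fin 2 → C := ![P, Q]
  have key := (opCat R X).rk_B_sq_le' (i := 0) (j := 1) (g := p.hom) ⟨p, hp, rfl⟩ hpp'
    (g' := q.hom) ⟨q, hq, rfl⟩ hqq'
  have e1 := opCat_rk (R := R) X 0 1 (p := p) hp q
  have e2 := opCat_rk (R := R) X 0 0 (p := p) hp p
  have e3 := opCat_rk (R := R) X 1 1 (p := q) hq q
  exact (congrArg (fun t => t ^ 2) e1).symm.trans_le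
    (key.trans (le_of_eq (congrArg₂ (· * ·) e2 e3)))

end

end Pool.Agent.E8helper91.ZO
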