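import Pool.Agent.E8helper91.ZO.Dual

/-!
# Dimensions of endomorphism rings modulo numerical equivalence
-/

set_option autoImplicit false
set_option linter.unusedSectionVars false

open CategoryTheory Limits MonoidalCategory Module
open Pool.Agent.Y112.SR Pool.Agent.Y112.KD Pool.Agent.Y112.SC Pool.Agent.Y133.Half

namespace Pool.Agent.E8helper91.ZO

universe v u w

section

variable {C : Type u} [Category.{v} C] [Preadditive C] [Linear ℚ C] [MonoidalCategory C]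
  [MonoidalPreadditive C] [MonoidalLinear ℚ C] [SymmetricCategory C] [RightRigidCategory C]
  {K : Type w} [Field K] {R : SuperRealisation C K}

lemma le_en {P : C} {p : R.H.obj P ⟶ R.H.obj P} {ι : Type*} [Fintype ι] [DecidableEq ι]
    (x y : ι → (R.H.obj P ⟶ R.H.obj P)) (hx : ∀ i, x i ∈ Op R P P) (hy : ∀ i, y i ∈ Op R P P)
    (h : ∀ i j, st R (p ≫ x i ≫ p ≫ y j) = if i = j then 1 else 0) :
    Fintype.card ι ≤ en R P p := le_rB x y hx hy h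

variable (R) in
lemma exists_en (P : C) (p : R.H.obj P ⟶ R.H.obj P) :
    ∃ (x y : Fin (en R P p) → (R.H.obj P ⟶ R.H.obj P)), (∀ i, x i ∈ Op R P P) ∧
      (∀ i, y i ∈ Op R P P) ∧
      ∀ i j, st R (p ≫ x i ≫ p ≫ y j) = if i = j then 1 else 0 := exists_rB R P P p p

/-- Orthogonal idempotents. -/
lemma en_add {P : C} {e f : R.H.obj P ⟶ R.H.obj P} (he : e ∈ Op R P P) (hf : f ∈ Op R P P)
    (hee : e ≫ e = e) (hff : f ≫ f = f) (hef : e ≫ f = 0) (hfe : f ≫ e = 0) :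
    en R P e + en R P f ≤ en R P (e + f) := by
  obtain ⟨x, y, hx, hy, h⟩ := exists_en R P e
  obtain ⟨x', y', hx', hy', h'⟩ := exists_en R P f
  have a1 : (e + f) ≫ e = e := by rw [Preadditive.add_comp, hee, hfe, add_zero]
  have a2 : (e + f) ≫ f = f := by rw [Preadditive.add_comp, hff, hef, zero_add]
  have h1 := le_en (R := R) (P := P) (p := e + f) (ι := Fin (en R P e) ⊕ Fin (en R P f))
    (Sum.elim (fun i => e ≫ x i ≫ e) (fun i => f ≫ x' i ≫ f))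
    (Sum.elim (fun i => e ≫ y i ≫ e) (fun i => f ≫ y' i ≫ f)) ?_ ?_ ?_
  · rwa [Fintype.card_sum, Fintype.card_fin, Fintype.card_fin] at h1
  · rintro (i | i)
    · exact Op.comp he (Op.comp (hx i) he)
    · exact Op.comp hf (Op.comp (hx' i) hf)
  · rintro (i | i)
    · exact Op.comp he (Op.comp (hy i) he)
    · exact Op.comp hf (Op.comp (hy' i) hf)
  · rintro (i | i) (j | j)
    · simp only [Sum.elim_inl, Sum.inl.injEq]
      rw [← h i j]
      have : (e + f) ≫ (e ≫ x i ≫ e) ≫ (e + f) ≫ e ≫ y j ≫ e =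
          (e ≫ x i ≫ e ≫ y j) ≫ e := by
        simp only [Category.assoc]
        rw [reassoc_of% a1, reassoc_of% a1, reassoc_of% hee]
      rw [this, st_comm R (Op.par he)]
      congr 1
      rw [reassoc_of% hee]
    · simp only [Sum.elim_inl, Sum.elim_inr, reduceCtorEq, if_false]
      have : (e + f) ≫ (e ≫ x i ≫ e) ≫ (e + f) ≫ f ≫ y' j ≫ f = 0 := by
        simp only [Category.assoc]
        rw [reassoc_of% a2, reassoc_of% hef]
        simp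
      rw [this, st_zero]
    · simp only [Sum.elim_inl, Sum.elim_inr, reduceCtorEq, if_false]
      have : (e + f) ≫ (f ≫ x' i ≫ f) ≫ (e + f) ≫ e ≫ y j ≫ e = 0 := by
        simp only [Category.assoc]
        rw [reassoc_of% a1, reassoc_of% hfe]
        simp
      rw [this, st_zero]
    · simp only [Sum.elim_inr, Sum.inr.injEq]
      rw [← h' i j]
      have : (e + f) ≫ (f ≫ x' i ≫ f) ≫ (e + f) ≫ f ≫ y' j ≫ f =
          (f ≫ x' i ≫ f ≫ y' j) ≫ f := by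
        simp only [Category.assoc]
        rw [reassoc_of% a2, reassoc_of% a2, reassoc_of% hff]
      rw [this, st_comm R (Op.par hf)]
      congr 1
      rw [reassoc_of% hff]

/-- Products. -/
lemma en_mul {P Q : C} (e : R.H.obj P ⟶ R.H.obj P) (f : R.H.obj Q ⟶ R.H.obj Q) :
    en R P e * en R Q f ≤ en R (P ⊗ Q) (bx R e f) := by
  obtain ⟨x, y, hx, hy, h⟩ := exists_en R P e
  obtain ⟨x', y', hx', hy', h'⟩ := exists_en R Q f
  have h1 := le_en (R := R) (P := P ⊗ Q) (p := bx R e f)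
    (ι := Fin (en R P e) × Fin (en R Q f)) (fun i => bx R (x i.1) (x' i.2))
    (fun i => bx R (y i.1) (y' i.2)) (fun i => Op.bx (hx _) (hx' _))
    (fun i => Op.bx (hy _) (hy' _)) ?_
  · rwa [Fintype.card_prod, Fintype.card_fin, Fintype.card_fin] at h1
  · rintro ⟨i, i'⟩ ⟨j, j'⟩
    simp only [bx_comp, st_bx, h, h', Prod.mk.injEq]
    by_cases h1 : i = j <;> by_cases h2 : i' = j' <;> simp [h1, h2]

/-- Isomorphisms. -/
lemma en_iso_le {P Q : C} (θ : P ≅ Q) {p : R.H.obj P ⟶ R.H.obj P} {q : R.H.obj Q ⟶ R.H.obj Q}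
    (h : p ≫ R.H.map θ.hom = R.H.map θ.hom ≫ q) : en R P p ≤ en R Q q := by
  obtain ⟨x, y, hx, hy, hxy⟩ := exists_en R P p
  have h0 : R.H.map θ.hom ≫ R.H.map θ.inv = 𝟙 _ := by
    rw [← Functor.map_comp, θ.hom_inv_id, CategoryTheory.Functor.map_id]
  have h0' : R.H.map θ.inv ≫ R.H.map θ.hom = 𝟙 _ := by
    rw [← Functor.map_comp, θ.inv_hom_id, CategoryTheory.Functor.map_id]
  have h' : q ≫ R.H.map θ.inv = R.H.map θ.inv ≫ p := by
    calc q ≫ R.H.map θ.inv = R.H.map θ.inv ≫ (R.H.map θ.hom ≫ q) ≫ R.H.map θ.inv := by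
          rw [Category.assoc, reassoc_of% h0']
      _ = _ := by rw [← h, Category.assoc, h0, Category.comp_id]
  have h1 := le_en (R := R) (P := Q) (p := q) (ι := Fin (en R P p))
    (fun i => R.H.map θ.inv ≫ x i ≫ R.H.map θ.hom)
    (fun i => R.H.map θ.inv ≫ y i ≫ R.H.map θ.hom)
    (fun i => Op.comp (Op.map _) (Op.comp (hx i) (Op.map _)))
    (fun i => Op.comp (Op.map _) (Op.comp (hy i) (Op.map _))) ?_
  · rwa [Fintype.card_fin] at h1
  · intro i j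
    rw [← hxy i j]
    have h2 : q ≫ (R.H.map θ.inv ≫ x i ≫ R.H.map θ.hom) ≫ q ≫ R.H.map θ.inv ≫ y j ≫
        R.H.map θ.hom = R.H.map θ.inv ≫ (p ≫ x i ≫ p ≫ y j) ≫ R.H.map θ.hom := by
      simp only [Category.assoc]
      rw [reassoc_of% h', reassoc_of% h', reassoc_of% h0]
    rw [h2, ← Category.assoc (R.H.map θ.inv), st_comm R (R.par_natural θ.hom), reassoc_of% h0]

lemma en_iso {P Q : C} (θ : P ≅ Q) {p : R.H.obj P ⟶ R.H.obj P} {q : R.H.obj Q ⟶ R.H.obj Q}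
    (h : p ≫ R.H.map θ.hom = R.H.map θ.hom ≫ q) : en R P p = en R Q q := by
  have h0 : R.H.map θ.hom ≫ R.H.map θ.inv = 𝟙 _ := by
    rw [← Functor.map_comp, θ.hom_inv_id, CategoryTheory.Functor.map_id]
  have h0' : R.H.map θ.inv ≫ R.H.map θ.hom = 𝟙 _ := by
    rw [← Functor.map_comp, θ.inv_hom_id, CategoryTheory.Functor.map_id]
  have h' : q ≫ R.H.map θ.inv = R.H.map θ.inv ≫ p := by
    calc q ≫ R.H.map θ.inv = R.H.map θ.inv ≫ (R.H.map θ.hom ≫ q) ≫ R.H.map θ.inv := by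
          rw [Category.assoc, reassoc_of% h0']
      _ = _ := by rw [← h, Category.assoc, h0, Category.comp_id]
  exact le_antisymm (en_iso_le θ h) (en_iso_le θ.symm h')

lemma en_pos {P : C} {p v : R.H.obj P ⟶ R.H.obj P} (hpp : p ≫ p = p) (hv : v ∈ Op R P P)
    (h : st R (p ≫ v) ≠ 0) : 1 ≤ en R P p := by
  have h1 := le_en (R := R) (P := P) (p := p) (ι := Unit) (fun _ => 𝟙 _)
    (fun _ => (st R (p ≫ v))⁻¹ • v) (fun _ => Op.id P) (fun _ => Submodule.smul_mem _ _ hv) ?_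
  · simpa using h1
  · intro i j
    rw [Category.id_comp, reassoc_of% hpp, Linear.comp_smul, st_smul]
    simp only [if_true]
    exact inv_mul_cancel₀ h

lemma finrank_hom (V W : ModuleCat.{w} K) [Module.Finite K V] [Module.Finite K W] :
    finrank K (V ⟶ W) = finrank K V * finrank K W := by
  rw [(ModuleCat.homLinearEquiv (S := K) (M := V) (N := W)).finrank_eq, finrank_linearMap]

lemma rB_le (P Q : C) (p : R.H.obj P ⟶ R.H.obj P) (q : R.H.obj Q ⟶ R.H.obj Q) :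
    rB R P Q p q ≤ dm R P * dm R Q := by
  have h1 : rB R P Q p q ≤ finrank K (Op R P Q) := LinearMap.finrank_range_le _
  refine h1.trans ((Submodule.finrank_le _).trans ?_)
  rw [finrank_hom]
  rfl

/-- The partial trace of an algebraic operator. -/
lemma PT_eq {P W : C} {z : R.H.obj (P ⊗ W) ⟶ R.H.obj (P ⊗ W)} (hz : z ∈ Op R (P ⊗ W) (P ⊗ W)) :
    R.H.map ((ρ_ P).inv ≫ P ◁ η_ W Wᘁ ≫ (α_ P W Wᘁ).inv) ≫ bx R z (𝟙 (R.H.obj Wᘁ)) ≫
      R.H.map ((α_ P W Wᘁ).hom ≫ P ◁ ((β_ W Wᘁ).hom ≫ ε_ W Wᘁ) ≫ (ρ_ P).hom) = PT R z := by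
  refine Op.ind (p := fun z => R.H.map ((ρ_ P).inv ≫ P ◁ η_ W Wᘁ ≫ (α_ P W Wᘁ).inv) ≫
    bx R z (𝟙 (R.H.obj Wᘁ)) ≫ R.H.map ((α_ P W Wᘁ).hom ≫ P ◁ ((β_ W Wᘁ).hom ≫ ε_ W Wᘁ) ≫
      (ρ_ P).hom) = PT R z) ?_ ?_ ?_ ?_ hz
  · intro f
    rw [PT_map, ← map_whiskerRight_eq, ← Functor.map_comp, ← Functor.map_comp]
    congr 1
    simp only [ptr, Category.assoc]
  · have := PT_smul R (0 : K) (0 : R.H.obj (P ⊗ W) ⟶ R.H.obj (P ⊗ W))
    rw [zero_smul, zero_smul] at this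
    rw [this, bx_zero_left, zero_comp, comp_zero]
  · intro a b ha hb
    rw [PT_add, bx_add_left, Preadditive.add_comp, Preadditive.comp_add, ha, hb]
  · intro c a ha
    rw [PT_smul, bx_smul_left, Linear.smul_comp, Linear.comp_smul, ha]

/-- The first step of the comparison. -/
lemma en_sq_le {P W : C} {p : R.H.obj P ⟶ R.H.obj P} (hp : p ∈ Op R P P) (hpp : p ≫ p = p) :
    en R (P ⊗ W) (bx R p (𝟙 _)) ^ 2 ≤
      en R P p * en R (P ⊗ (W ⊗ Wᘁ)) (bx R p (𝟙 _)) := by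
  refine le_trans (Nat.pow_le_pow_left ?_ 2) (cs P (P ⊗ (W ⊗ Wᘁ)) hp hpp
    (Op.bx hp (Op.id _)) (by rw [bx_comp, hpp, Category.comp_id]))
  obtain ⟨x, y, hx, hy, h⟩ := exists_en R (P ⊗ W) (bx R p (𝟙 _))
  have h1 := le_rB (R := R) (P := P) (Q := P ⊗ (W ⊗ Wᘁ)) (p := p) (q := bx R p (𝟙 _))
    (fun i => R.H.map ((ρ_ P).inv ≫ P ◁ η_ W Wᘁ ≫ (α_ P W Wᘁ).inv) ≫
      bx R (x i) (𝟙 (R.H.obj Wᘁ)) ≫ R.H.map (α_ P W Wᘁ).hom)
    (fun i => R.H.map (α_ P W Wᘁ).inv ≫ bx R (y i) (𝟙 (R.H.obj Wᘁ)) ≫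
      R.H.map ((α_ P W Wᘁ).hom ≫ P ◁ ((β_ W Wᘁ).hom ≫ ε_ W Wᘁ) ≫ (ρ_ P).hom))
    (fun i => Op.comp (Op.map _) (Op.comp (Op.bx (hx i) (Op.id _)) (Op.map _)))
    (fun i => Op.comp (Op.map _) (Op.comp (Op.bx (hy i) (Op.id _)) (Op.map _))) ?_
  · rwa [Fintype.card_fin] at h1
  · intro i j
    rw [← h i j]
    have h0 : R.H.map (α_ P W Wᘁ).hom ≫ R.H.map (α_ P W Wᘁ).inv = 𝟙 _ := by
      rw [← Functor.map_comp, Iso.hom_inv_id, CategoryTheory.Functor.map_id]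
    have e1 : bx R p (𝟙 (R.H.obj (W ⊗ Wᘁ))) ≫ R.H.map (α_ P W Wᘁ).inv =
        R.H.map (α_ P W Wᘁ).inv ≫ bx R (bx R p (𝟙 _)) (𝟙 _) := by
      rw [← bx_one, bx_assoc_inv]
    have e2 := bx_comp R (x i) (bx R p (𝟙 (R.H.obj W))) (𝟙 (R.H.obj Wᘁ)) (𝟙 _)
    have e3 := bx_comp R (x i ≫ bx R p (𝟙 (R.H.obj W))) (y j) (𝟙 (R.H.obj Wᘁ)) (𝟙 _)
    rw [Category.id_comp] at e2 e3
    have e4 : p ≫ (R.H.map ((ρ_ P).inv ≫ P ◁ η_ W Wᘁ ≫ (α_ P W Wᘁ).inv) ≫
      bx R (x i) (𝟙 (R.H.obj Wᘁ)) ≫ R.H.map (α_ P W Wᘁ).hom) ≫ bx R p (𝟙 _) ≫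
      R.H.map (α_ P W Wᘁ).inv ≫ bx R (y j) (𝟙 (R.H.obj Wᘁ)) ≫
      R.H.map ((α_ P W Wᘁ).hom ≫ P ◁ ((β_ W Wᘁ).hom ≫ ε_ W Wᘁ) ≫ (ρ_ P).hom) =
      p ≫ PT R ((x i ≫ bx R p (𝟙 (R.H.obj W))) ≫ y j) := by
      rw [← PT_eq (Op.comp (Op.comp (hx i) (Op.bx hp (Op.id _))) (hy j)), ← e3, ← e2]
      simp only [Category.assoc]
      rw [reassoc_of% e1, reassoc_of% h0]
    rw [e4, ← PT_left, st_PT, Category.assoc]

/-- The bound for a tensor product with an object, up to a power. -/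
lemma en_pow_le {P : C} {p : R.H.obj P ⟶ R.H.obj P} (hp : p ∈ Op R P P) (hpp : p ≫ p = p)
    (j : ℕ) : ∀ W : C, en R (P ⊗ W) (bx R p (𝟙 _)) ^ (2 ^ j) * en R P p ≤
      en R P p ^ (2 ^ j) * (dm R P ^ 2 * (dm R W ^ 2) ^ (2 ^ j)) := by
  induction j with
  | zero =>
    intro W
    have h1 : en R (P ⊗ W) (bx R p (𝟙 _)) ≤ dm R (P ⊗ W) * dm R (P ⊗ W) := rB_le _ _ _ _
    rw [dm_tensor] at h1
    rw [pow_zero, pow_one, pow_one, pow_one, mul_comm]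
    refine Nat.mul_le_mul_left _ (h1.trans (le_of_eq ?_))
    ring
  | succ j ih =>
    intro W
    have h1 := en_sq_le (W := W) hp hpp
    have h2 := ih (W ⊗ Wᘁ)
    have h3 : dm R (W ⊗ Wᘁ) ≤ dm R W ^ 2 := by
      rw [dm_tensor, pow_two]
      exact Nat.mul_le_mul_left _ (dm_dual_le R W)
    set a := en R (P ⊗ W) (bx R p (𝟙 _))
    set a' := en R (P ⊗ (W ⊗ Wᘁ)) (bx R p (𝟙 _))
    set e := en R P p
    calc a ^ 2 ^ (j + 1) * e = (a ^ 2) ^ 2 ^ j * e := by rw [pow_succ', pow_mul]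
      _ ≤ (e * a') ^ 2 ^ j * e := Nat.mul_le_mul_right _ (Nat.pow_le_pow_left h1 _)
      _ = e ^ 2 ^ j * (a' ^ 2 ^ j * e) := by rw [mul_pow]; ring
      _ ≤ e ^ 2 ^ j * (e ^ 2 ^ j * (dm R P ^ 2 * (dm R (W ⊗ Wᘁ) ^ 2) ^ 2 ^ j)) :=
        Nat.mul_le_mul_left _ h2
      _ ≤ e ^ 2 ^ j * (e ^ 2 ^ j * (dm R P ^ 2 * ((dm R W ^ 2) ^ 2) ^ 2 ^ j)) := by
        gcongr
      _ = _ := by
        have h5 : 2 ^ (j + 1) = 2 * 2 ^ j := pow_succ' 2 j
        rw [h5]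
        generalize 2 ^ j = E
        ring

lemma le_of_pow_bound {x y c : ℕ} (h : ∀ j : ℕ, x ^ (2 ^ j) ≤ y ^ (2 ^ j) * c) : x ≤ y := by
  by_contra hlt
  push Not at hlt
  rcases Nat.eq_zero_or_pos y with hy | hy
  · have h1 := h 0
    rw [hy] at h1
    simp at h1
    omega
  · have hy0 : (0 : ℝ) < y := by exact_mod_cast hy
    have h1 : (1 : ℝ) < x / y := by
      rw [one_lt_div hy0]; exact_mod_cast hlt
    obtain ⟨n, hn⟩ := pow_unbounded_of_one_lt (c : ℝ) h1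
    have h2 : (x : ℝ) ^ (2 ^ n) ≤ y ^ (2 ^ n) * c := by exact_mod_cast h n
    have h3 : ((x : ℝ) / y) ^ (2 ^ n) ≤ c := by
      rw [div_pow, div_le_iff₀ (by positivity), mul_comm]
      exact h2
    have h4 : ((x : ℝ) / y) ^ n ≤ (x / y) ^ (2 ^ n) :=
      pow_le_pow_right₀ h1.le Nat.lt_two_pow_self.le
    linarith

/-- **Tensoring with an object multiplies the dimension of the endomorphism ring modulo numerical
equivalence by at most the square of its dimension.** -/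
lemma en_tensor_le {P : C} {p : R.H.obj P ⟶ R.H.obj P} (hp : p ∈ Op R P P) (hpp : p ≫ p = p)
    (W : C) : en R (P ⊗ W) (bx R p (𝟙 _)) ≤ dm R W ^ 2 * en R P p := by
  rcases Nat.eq_zero_or_pos (en R P p) with h0 | h0
  · have h1 := en_sq_le (W := W) hp hpp
    rw [h0, zero_mul] at h1
    have h2 : en R (P ⊗ W) (bx R p (𝟙 _)) = 0 := by
      by_contra hne
      have : 0 < en R (P ⊗ W) (bx R p (𝟙 _)) ^ 2 := by positivity
      omega
    rw [h2]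
    exact Nat.zero_le _
  · apply le_of_pow_bound (c := dm R P ^ 2)
    intro j
    have h1 := en_pow_le hp hpp j W
    calc en R (P ⊗ W) (bx R p (𝟙 _)) ^ 2 ^ j
        ≤ en R (P ⊗ W) (bx R p (𝟙 _)) ^ 2 ^ j * en R P p := Nat.le_mul_of_pos_right _ h0
      _ ≤ _ := h1
      _ = _ := by rw [mul_pow]; ring

end

end Pool.Agent.E8helper91.ZO
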