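import Pool.Agent.Y133.Half.Key

/-!
# Idempotents of maximal rank in spaces of operators closed under products

(The first lemmas are taken from `Pool.Agent.E8helper32.Inf.Ideal`.)
-/

set_option autoImplicit false

open Polynomial Module

namespace Pool.Agent.E8helper91.ZO

open Pool.Agent.Y133.Half

section lin

variable {K V : Type*} [Field K] [AddCommGroup V] [Module K V] [FiniteDimensional K V]

/-- A subspace of operators which is closed under products contains the Fitting projectors. -/
lemma fit_mem {J : Submodule K (Module.End K V)} (hJ : ∀ a ∈ J, ∀ b ∈ J, a * b ∈ J)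
    {x : Module.End K V} (hx : x ∈ J) (q : K[X]) : aeval x q * x ∈ J := by
  induction q using Polynomial.induction_on' with
  | add p q hp hq => rw [map_add, add_mul]; exact Submodule.add_mem _ hp hq
  | monomial n a =>
    rw [aeval_monomial]
    have h1 : x ^ n * x ∈ J := by
      induction n with
      | zero => rw [pow_zero, one_mul]; exact hx
      | succ n ih => rw [pow_succ]; exact hJ _ ih _ hx
    rw [mul_assoc, ← Algebra.smul_def]
    exact Submodule.smul_mem _ _ h1

lemma fit_comm (x : Module.End K V) (q : K[X]) : aeval x q * x = x * aeval x q := by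
  have : Commute (aeval x q) (aeval x (X : K[X])) := by
    rw [Commute, SemiconjBy, ← map_mul, ← map_mul, mul_comm]
  rw [aeval_X] at this
  exact this

lemma rank_add {e f : Module.End K V} [CharZero K] (he : e * e = e) (hf : f * f = f)
    (hef : e * f = 0) (hfe : f * e = 0) (h0 : f ≠ 0) :
    finrank K (LinearMap.range e) < finrank K (LinearMap.range (e + f)) := by
  have h1 : (e + f) * (e + f) = e + f := by
    rw [add_mul, mul_add, mul_add, he, hf, hef, hfe, add_zero, zero_add]
  have t1 := trace_idem (K := K) (f := e) he
  have t2 := trace_idem (K := K) (f := f) hf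
  have t3 := trace_idem (K := K) (f := e + f) h1
  rw [map_add, t1, t2] at t3
  have h2 : finrank K (LinearMap.range e) + finrank K (LinearMap.range f) =
      finrank K (LinearMap.range (e + f)) := by exact_mod_cast t3
  have h3 : finrank K (LinearMap.range f) ≠ 0 := by
    intro h
    exact h0 (LinearMap.range_eq_bot.1 (Submodule.finrank_eq_zero.1 h))
  omega

/-- There is an idempotent of maximal rank; the complement annihilates the subspace up to
nilpotent operators. -/
lemma exists_max_idem [CharZero K] {J : Submodule K (Module.End K V)}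
    (hJ : ∀ a ∈ J, ∀ b ∈ J, a * b ∈ J) :
    ∃ e ∈ J, e * e = e ∧ ∀ x ∈ J, IsNilpotent ((1 - e) * x * (1 - e)) := by
  classical
  let Q : ℕ → Prop := fun n => ∃ e ∈ J, e * e = e ∧ finrank K V - finrank K (LinearMap.range e) = n
  have hQ : ∃ n, Q n := ⟨_, 0, Submodule.zero_mem _, mul_zero _, rfl⟩
  obtain ⟨e, he, hee, hn⟩ := Nat.find_spec hQ
  have hmax : ∀ f ∈ J, f * f = f → finrank K (LinearMap.range f) ≤
      finrank K (LinearMap.range e) := by
    intro f hf hff
    by_contra hlt
    push Not at hlt
    have h1 : finrank K (LinearMap.range f) ≤ finrank K V := Submodule.finrank_le _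
    exact Nat.find_min hQ (m := finrank K V - finrank K (LinearMap.range f)) (by omega)
      ⟨f, hf, hff, rfl⟩
  refine ⟨e, he, hee, fun x hx => ?_⟩
  set y := (1 - e) * x * (1 - e) with hy
  have hyJ : y ∈ J := by
    have h1 : y = x - e * x - (x - e * x) * e := by rw [hy]; noncomm_ring
    rw [h1]
    have h2 : x - e * x ∈ J := Submodule.sub_mem _ hx (hJ _ he _ hx)
    exact Submodule.sub_mem _ h2 (hJ _ h2 _ he)
  have he1 : (1 - e) * e = 0 := by rw [sub_mul, one_mul, hee, sub_self]
  have he2 : e * (1 - e) = 0 := by rw [mul_sub, mul_one, hee, sub_self]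
  have hye : y * e = 0 := by
    rw [hy, mul_assoc, he1, mul_zero]
  have hey : e * y = 0 := by
    rw [hy, ← mul_assoc, ← mul_assoc, he2, zero_mul, zero_mul]
  obtain ⟨q, hq1, hq2⟩ := exists_fit y
  apply hq2
  by_contra hne
  have h1 : e * (aeval y q * y) = 0 := by rw [fit_comm, ← mul_assoc, hey, zero_mul]
  have h2 : (aeval y q * y) * e = 0 := by rw [mul_assoc, hye, mul_zero]
  have h3 := rank_add hee hq1 h1 h2 hne
  have h4 := hmax (e + aeval y q * y) (Submodule.add_mem _ he (fit_mem hJ hyJ q)) (by
    rw [add_mul, mul_add, mul_add, hee, hq1, h1, h2, add_zero, zero_add])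
  omega

end lin

end Pool.Agent.E8helper91.ZO
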