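import Pool.Agent.E8helper91.ZO.Grow
import Pool.Agent.E8helper91.ZO.Lin

/-!
# The ideal of the endomorphisms with algebraic even component
-/

set_option autoImplicit false
set_option linter.unusedSectionVars false

open CategoryTheory Limits MonoidalCategory Module
open Pool.Agent.Y112.SR Pool.Agent.Y112.KD Pool.Agent.Y112.SC Pool.Agent.Y133.Half

namespace Pool.Agent.E8helper91.ZO

universe v u w

section

variable {C : Type u} [Category.{v} C] [Preadditive C] [Linear ℚ C] [MonoidalCategory C]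
  [MonoidalPreadditive C] [MonoidalLinear ℚ C] [SymmetricCategory C] [RightRigidCategory C]
  {K : Type w} [Field K] (R : SuperRealisation C K)

/-- The endomorphisms with algebraic even component. -/
noncomputable def idI (M : C) : Submodule ℚ (M ⟶ M) where
  carrier := {u | ∃ w : M ⟶ M, (2 : K) • R.H.map w = R.H.map u ≫ (𝟙 _ + R.par M)}
  add_mem' := by
    rintro a b ⟨w, hw⟩ ⟨w', hw'⟩
    exact ⟨w + w', by rw [Functor.map_add, Functor.map_add, smul_add, hw, hw',
      Preadditive.add_comp]⟩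
  zero_mem' := ⟨0, by rw [Functor.map_zero, smul_zero, zero_comp]⟩
  smul_mem' := by
    rintro c a ⟨w, hw⟩
    have hK := R_charZero R
    exact ⟨c • w, by rw [R_smul, R_smul, smul_comm, hw, Linear.smul_comp]⟩

lemma mem_idI {M : C} {u : M ⟶ M} : u ∈ idI R M ↔
    ∃ w : M ⟶ M, (2 : K) • R.H.map w = R.H.map u ≫ (𝟙 _ + R.par M) := Iff.rfl

lemma idI_left {M : C} {u : M ⟶ M} (hu : u ∈ idI R M) (v : M ⟶ M) : v ≫ u ∈ idI R M := by
  obtain ⟨w, hw⟩ := hu
  exact ⟨v ≫ w, by rw [Functor.map_comp, Functor.map_comp, ← Linear.comp_smul, hw,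
    Category.assoc]⟩

lemma idI_right {M : C} {u : M ⟶ M} (hu : u ∈ idI R M) (v : M ⟶ M) : u ≫ v ∈ idI R M := by
  obtain ⟨w, hw⟩ := hu
  refine ⟨w ≫ v, ?_⟩
  rw [Functor.map_comp, Functor.map_comp, ← Linear.smul_comp, hw, Category.assoc, Category.assoc]
  congr 1
  rw [Preadditive.add_comp, Preadditive.comp_add, R.par_natural, Category.id_comp,
    Category.comp_id]

/-- The span of the ideal. -/
noncomputable def idJ (M : C) : Submodule K (R.H.obj M ⟶ R.H.obj M) :=
  Submodule.span K ((fun f : M ⟶ M => R.H.map f) '' (idI R M : Set (M ⟶ M)))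

variable {R}

lemma idJ_Op {M : C} {x : R.H.obj M ⟶ R.H.obj M} (hx : x ∈ idJ R M) : x ∈ Op R M M := by
  refine Submodule.span_mono ?_ hx
  rintro _ ⟨f, _, rfl⟩
  exact ⟨f, rfl⟩

lemma idJ_left {M : C} {x y : R.H.obj M ⟶ R.H.obj M} (hx : x ∈ idJ R M) (hy : y ∈ Op R M M) :
    y ≫ x ∈ idJ R M := by
  refine Op.ind (p := fun y => y ≫ x ∈ idJ R M) ?_ ?_ ?_ ?_ hy
  · intro f
    refine Submodule.span_induction (p := fun x _ => R.H.map f ≫ x ∈ idJ R M) ?_ ?_ ?_ ?_ hx
    · rintro _ ⟨u, hu, rfl⟩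
      refine Submodule.subset_span ⟨f ≫ u, idI_left R hu f, ?_⟩
      exact Functor.map_comp _ _ _
    · rw [comp_zero]; exact Submodule.zero_mem _
    · intro a b _ _ ha hb; rw [Preadditive.comp_add]; exact Submodule.add_mem _ ha hb
    · intro c a _ ha; rw [Linear.comp_smul]; exact Submodule.smul_mem _ _ ha
  · rw [zero_comp]; exact Submodule.zero_mem _
  · intro a b ha hb; rw [Preadditive.add_comp]; exact Submodule.add_mem _ ha hb
  · intro c a ha; rw [Linear.smul_comp]; exact Submodule.smul_mem _ _ ha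

/-- The even component of an element of the span is algebraic. -/
lemma idJ_even {M : C} {x : R.H.obj M ⟶ R.H.obj M} (hx : x ∈ idJ R M) :
    x ≫ (𝟙 _ + R.par M) ∈ Op R M M := by
  refine Submodule.span_induction (p := fun x _ => x ≫ (𝟙 _ + R.par M) ∈ Op R M M)
    ?_ ?_ ?_ ?_ hx
  · rintro _ ⟨u, ⟨w, hw⟩, rfl⟩
    change R.H.map u ≫ (𝟙 _ + R.par M) ∈ Op R M M
    rw [← hw]
    exact Submodule.smul_mem _ _ (Op.map _)
  · rw [zero_comp]; exact Submodule.zero_mem _
  · intro a b _ _ ha hb; rw [Preadditive.add_comp]; exact Submodule.add_mem _ ha hb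
  · intro c a _ ha; rw [Linear.smul_comp]; exact Submodule.smul_mem _ _ ha

/-- The supertrace of a nilpotent operator vanishes. -/
lemma st_nilp {M : C} {x : R.H.obj M ⟶ R.H.obj M} (hx : x ∈ Op R M M)
    (hn : IsNilpotent (x.hom : Module.End K (R.H.obj M))) : st R x = 0 := by
  have h1 := congrArg ModuleCat.Hom.hom (Op.par hx)
  rw [ModuleCat.hom_comp, ModuleCat.hom_comp] at h1
  have hc : Commute ((R.par M).hom : Module.End K (R.H.obj M)) x.hom := h1
  have h2 : IsNilpotent (((R.par M).hom : Module.End K (R.H.obj M)) * x.hom) := by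
    obtain ⟨n, hn⟩ := hn
    exact ⟨n, by rw [hc.mul_pow, hn, mul_zero]⟩
  exact (LinearMap.isNilpotent_trace_of_isNilpotent h2).eq_zero

/-- The maximal idempotent of the ideal. -/
lemma exists_eps (M : C) : ∃ e ∈ idJ R M, e ≫ e = e ∧
    ∀ u ∈ idJ R M, st R ((𝟙 _ - e) ≫ u) = 0 := by
  have hK := R_charZero R
  let L := (ModuleCat.homLinearEquiv (S := K) (M := R.H.obj M) (N := R.H.obj M))
  let J : Submodule K (Module.End K (R.H.obj M)) := (idJ R M).map L.toLinearMap
  have hJ : ∀ a ∈ J, ∀ b ∈ J, a * b ∈ J := by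
    rintro _ ⟨a, ha, rfl⟩ _ ⟨b, hb, rfl⟩
    exact ⟨b ≫ a, idJ_left ha (idJ_Op hb), rfl⟩
  obtain ⟨_, ⟨e, he, rfl⟩, hee, h⟩ := exists_max_idem hJ
  have hee' : e ≫ e = e := ModuleCat.hom_ext hee
  refine ⟨e, he, hee', fun u hu => ?_⟩
  have h1 := h _ ⟨u, hu, rfl⟩
  set f := 𝟙 (R.H.obj M) - e with hf
  have hff : f ≫ f = f := by
    rw [hf, Preadditive.sub_comp, Preadditive.comp_sub, Preadditive.comp_sub, hee']
    simp
  have hfO : f ∈ Op R M M := Submodule.sub_mem _ (Op.id M) (idJ_Op he)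
  have h2 : IsNilpotent ((f ≫ u ≫ f).hom : Module.End K (R.H.obj M)) := by
    have e1 : ((f ≫ u ≫ f).hom : Module.End K (R.H.obj M)) =
      (1 - e.hom) * u.hom * (1 - e.hom) := rfl
    rw [e1]
    exact h1
  have h3 := st_nilp (Op.comp hfO (Op.comp (idJ_Op hu) hfO)) h2
  rw [← Category.assoc, st_comm R (Op.par hfO), ← Category.assoc, hff] at h3
  exact h3

section coords

variable [CharZero K] {ι : Type*} (b : Basis ι ℚ K)

lemma coords_add {P Q : C} (S : Submodule ℚ (P ⟶ Q)) {x y : R.H.obj P ⟶ R.H.obj Q}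
    (hx : ∃ c : ι →₀ (P ⟶ Q), (∀ i, c i ∈ S) ∧ x = c.sum fun i f => b i • R.H.map f)
    (hy : ∃ c : ι →₀ (P ⟶ Q), (∀ i, c i ∈ S) ∧ y = c.sum fun i f => b i • R.H.map f) :
    ∃ c : ι →₀ (P ⟶ Q), (∀ i, c i ∈ S) ∧ x + y = c.sum fun i f => b i • R.H.map f := by
  classical
  obtain ⟨c, hc, rfl⟩ := hx
  obtain ⟨d, hd, rfl⟩ := hy
  refine ⟨c + d, fun i => Submodule.add_mem _ (hc i) (hd i), ?_⟩
  rw [Finsupp.sum_add_index']
  · intro i; rw [Functor.map_zero, smul_zero]
  · intro i f g; rw [Functor.map_add, smul_add]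

lemma coords_zero {P Q : C} (S : Submodule ℚ (P ⟶ Q)) :
    ∃ c : ι →₀ (P ⟶ Q), (∀ i, c i ∈ S) ∧
      (0 : R.H.obj P ⟶ R.H.obj Q) = c.sum fun i f => b i • R.H.map f :=
  ⟨0, fun _ => Submodule.zero_mem _, by simp⟩

lemma coords_smul {P Q : C} (S : Submodule ℚ (P ⟶ Q)) (a : K) {f : P ⟶ Q} (hf : f ∈ S) :
    ∃ c : ι →₀ (P ⟶ Q), (∀ i, c i ∈ S) ∧
      a • R.H.map f = c.sum fun i f => b i • R.H.map f := by
  have hK := R_charZero R
  refine ⟨(b.repr a).mapRange (fun q => q • f) (zero_smul _ _), fun i => ?_, ?_⟩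
  · rw [Finsupp.mapRange_apply]
    exact Submodule.smul_mem _ _ hf
  · rw [Finsupp.sum_mapRange_index (fun i => by rw [Functor.map_zero, smul_zero])]
    conv_lhs => rw [← b.linearCombination_repr a]
    rw [Finsupp.linearCombination_apply, Finsupp.sum, Finsupp.sum, Finset.sum_smul]
    refine Finset.sum_congr rfl fun i _ => ?_
    rw [R_smul, smul_smul, Rat.smul_def, mul_comm]

/-- Coordinates of a combination of realisations with respect to a basis of the field over the
rational numbers. -/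
lemma exists_coords {P Q : C} (S : Submodule ℚ (P ⟶ Q)) {x : R.H.obj P ⟶ R.H.obj Q}
    (hx : x ∈ Submodule.span K ((fun f : P ⟶ Q => R.H.map f) '' (S : Set (P ⟶ Q)))) :
    ∃ c : ι →₀ (P ⟶ Q), (∀ i, c i ∈ S) ∧ x = c.sum fun i f => b i • R.H.map f := by
  have key : ∀ a : K, ∃ c : ι →₀ (P ⟶ Q), (∀ i, c i ∈ S) ∧
      a • x = c.sum fun i f => b i • R.H.map f := by
    refine Submodule.span_induction (p := fun x _ => ∀ a : K, ∃ c : ι →₀ (P ⟶ Q),
      (∀ i, c i ∈ S) ∧ a • x = c.sum fun i f => b i • R.H.map f) ?_ ?_ ?_ ?_ hx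
    · rintro _ ⟨f, hf, rfl⟩ a
      exact coords_smul b S a hf
    · intro a
      rw [smul_zero]
      exact coords_zero b S
    · intro x y _ _ hx hy a
      rw [smul_add]
      exact coords_add b S (hx a) (hy a)
    · intro c x _ hx a
      rw [smul_smul]
      exact hx _
  have := key 1
  rwa [one_smul] at this

lemma st_coords (hU : UnitQ C) {P Q : C} (c : ι →₀ (P ⟶ Q)) (g : Q ⟶ P) :
    st R ((c.sum fun i f => b i • R.H.map f) ≫ R.H.map g) =
      c.sum fun i f => b i * ((trq hU P (f ≫ g) : ℚ) : K) := by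
  rw [Finsupp.sum, Finsupp.sum, Preadditive.sum_comp]
  have h : ∀ s : Finset ι, st R (∑ i ∈ s, (b i • R.H.map (c i)) ≫ R.H.map g) =
      ∑ i ∈ s, b i * ((trq hU P (c i ≫ g) : ℚ) : K) := by
    classical
    intro s
    induction s using Finset.induction_on with
    | empty => rw [Finset.sum_empty, Finset.sum_empty, st_zero]
    | insert i s hi ih =>
      rw [Finset.sum_insert hi, Finset.sum_insert hi, st_add, ih, Linear.smul_comp, st_smul,
        ← Functor.map_comp, st_map R hU]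
  exact h _

end coords

end

end Pool.Agent.E8helper91.ZO
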