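import Pool.Agent.E8helper91.ZO.Unit

/-!
# Operators on `M ⊗ (⋯ ⊗ (M ⊗ N))`
-/

set_option autoImplicit false
set_option linter.unusedSectionVars false

open CategoryTheory Limits MonoidalCategory Module
open Pool.Agent.Y112.SR Pool.Agent.Y112.KD Pool.Agent.Y112.SC Pool.Agent.Y133.Half

namespace Pool.Agent.E8helper91.ZO

universe v u w

section

variable {C : Type u} [Category.{v} C] [Preadditive C] [Linear ℚ C] [MonoidalCategory C]
  [MonoidalPreadditive C] [MonoidalLinear ℚ C] [SymmetricCategory C] [RightRigidCategory C]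
  {K : Type w} [Field K] (R : SuperRealisation C K)

lemma parAt_zero (M N : C) (n : ℕ) : parAt R M N (n + 1) 0 = bx R (R.par M) (𝟙 _) := rfl

lemma parAt_succ (M N : C) (n m : ℕ) : parAt R M N (n + 1) (m + 1) =
    bx R (𝟙 _) (parAt R M N n m) := rfl

lemma parAt_par (M N : C) : ∀ n m : ℕ, parAt R M N n m ≫ R.par (tw M N n) =
    R.par (tw M N n) ≫ parAt R M N n m
  | 0, _ => by
    change 𝟙 _ ≫ _ = _ ≫ 𝟙 _
    rw [Category.comp_id, Category.id_comp]
  | n + 1, 0 => by
    change bx R (R.par M) (𝟙 _) ≫ R.par (M ⊗ tw M N n) = R.par (M ⊗ tw M N n) ≫ bx R (R.par M) (𝟙 _)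
    rw [← bx_par, bx_comp, bx_comp, Category.id_comp, Category.comp_id]
  | n + 1, m + 1 => by
    change bx R (𝟙 _) (parAt R M N n m) ≫ R.par (M ⊗ tw M N n) =
      R.par (M ⊗ tw M N n) ≫ bx R (𝟙 _) (parAt R M N n m)
    rw [← bx_par, bx_comp, bx_comp, Category.id_comp, Category.comp_id, parAt_par M N n m]

/-- The tensor power of an operator. -/
noncomputable def pin (M N : C) (e : R.H.obj M ⟶ R.H.obj M) :
    ∀ n : ℕ, (R.H.obj (tw M N n) ⟶ R.H.obj (tw M N n))
  | 0 => 𝟙 _
  | n + 1 => bx R e (pin M N e n)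

/-- The tensor power of an endomorphism. -/
noncomputable def pinC (M N : C) (u : M ⟶ M) : ∀ n : ℕ, (tw M N n ⟶ tw M N n)
  | 0 => 𝟙 _
  | n + 1 => u ⊗ₘ pinC M N u n

/-- Products of `u` and of its composition with the involution. -/
noncomputable def pinS (M N : C) (x : R.H.obj M ⟶ R.H.obj M) :
    ∀ n : ℕ, (ℕ → Bool) → (R.H.obj (tw M N n) ⟶ R.H.obj (tw M N n))
  | 0, _ => 𝟙 _
  | n + 1, s => bx R (bif s 0 then x ≫ R.par M else x) (pinS M N x n fun i => s (i + 1))

variable {R}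

lemma pin_eq (M N : C) (u : M ⟶ M) : ∀ n, pin R M N (R.H.map u) n = R.H.map (pinC M N u n)
  | 0 => (CategoryTheory.Functor.map_id _ _).symm
  | n + 1 => by
    change bx R (R.H.map u) (pin R M N (R.H.map u) n) = R.H.map (u ⊗ₘ pinC M N u n)
    rw [pin_eq M N u n, bx_map]

lemma pinS_false (M N : C) (x : R.H.obj M ⟶ R.H.obj M) : ∀ n,
    pinS R M N x n (fun _ => false) = pin R M N x n
  | 0 => rfl
  | n + 1 => by
    change bx R x (pinS R M N x n fun _ => false) = bx R x (pin R M N x n)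
    rw [pinS_false M N x n]

lemma pin_mem {M N : C} {e : R.H.obj M ⟶ R.H.obj M} (he : e ∈ Op R M M) : ∀ n,
    pin R M N e n ∈ Op R (tw M N n) (tw M N n)
  | 0 => Op.id _
  | n + 1 => Op.bx he (pin_mem he n)

lemma pin_idem {M N : C} {e : R.H.obj M ⟶ R.H.obj M} (hee : e ≫ e = e) : ∀ n,
    pin R M N e n ≫ pin R M N e n = pin R M N e n
  | 0 => Category.comp_id _
  | n + 1 => by
    change bx R e (pin R M N e n) ≫ bx R e (pin R M N e n) = bx R e (pin R M N e n)
    rw [bx_comp, hee, pin_idem hee n]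

/-- Multiplication with a parity operator from the right. -/
lemma pinS_parAt (M N : C) {x : R.H.obj M ⟶ R.H.obj M} : ∀ (n m : ℕ) (s : ℕ → Bool),
    ∃ s' : ℕ → Bool, pinS R M N x n s ≫ parAt R M N n m = pinS R M N x n s'
  | 0, m, s => ⟨s, Category.comp_id _⟩
  | n + 1, 0, s => by
    refine ⟨fun i => if i = 0 then !(s 0) else s i, ?_⟩
    change bx R (bif s 0 then x ≫ R.par M else x) (pinS R M N x n fun i => s (i + 1)) ≫
      bx R (R.par M) (𝟙 _) = bx R (bif !(s 0) then x ≫ R.par M else x)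
        (pinS R M N x n fun i => s (i + 1))
    rw [bx_comp, Category.comp_id]
    cases s 0
    · rfl
    · congr 1
      change (x ≫ R.par M) ≫ R.par M = x
      rw [Category.assoc, R.par_sq, Category.comp_id]
  | n + 1, m + 1, s => by
    obtain ⟨s', hs'⟩ := pinS_parAt M N (x := x) n m fun i => s (i + 1)
    refine ⟨fun i => match i with | 0 => s 0 | i + 1 => s' i, ?_⟩
    change bx R (bif s 0 then x ≫ R.par M else x) (pinS R M N x n fun i => s (i + 1)) ≫
      bx R (𝟙 _) (parAt R M N n m) = bx R (bif s 0 then x ≫ R.par M else x) (pinS R M N x n s')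
    rw [bx_comp, Category.comp_id, hs']

/-- Multiplication with a parity operator from the left. -/
lemma parAt_pinS (M N : C) {x : R.H.obj M ⟶ R.H.obj M} (hx : x ≫ R.par M = R.par M ≫ x) :
    ∀ (n m : ℕ) (s : ℕ → Bool),
    ∃ s' : ℕ → Bool, parAt R M N n m ≫ pinS R M N x n s = pinS R M N x n s'
  | 0, m, s => ⟨s, Category.id_comp _⟩
  | n + 1, 0, s => by
    refine ⟨fun i => if i = 0 then !(s 0) else s i, ?_⟩
    change bx R (R.par M) (𝟙 _) ≫
      bx R (bif s 0 then x ≫ R.par M else x) (pinS R M N x n fun i => s (i + 1)) =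
        bx R (bif !(s 0) then x ≫ R.par M else x) (pinS R M N x n fun i => s (i + 1))
    rw [bx_comp, Category.id_comp]
    cases s 0
    · congr 1
      exact hx.symm
    · congr 1
      change R.par M ≫ x ≫ R.par M = x
      rw [hx, ← Category.assoc, R.par_sq, Category.id_comp]
  | n + 1, m + 1, s => by
    obtain ⟨s', hs'⟩ := parAt_pinS M N hx n m fun i => s (i + 1)
    refine ⟨fun i => match i with | 0 => s 0 | i + 1 => s' i, ?_⟩
    change bx R (𝟙 _) (parAt R M N n m) ≫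
      bx R (bif s 0 then x ≫ R.par M else x) (pinS R M N x n fun i => s (i + 1)) =
        bx R (bif s 0 then x ≫ R.par M else x) (pinS R M N x n s')
    rw [bx_comp, Category.id_comp, hs']

lemma pinS_word (M N : C) {x : R.H.obj M ⟶ R.H.obj M} (n : ℕ) (l : List ℕ) : ∀ s : ℕ → Bool,
    ∃ s' : ℕ → Bool, pinS R M N x n s ≫ parWord R M N n l = pinS R M N x n s' := by
  induction l with
  | nil => exact fun s => ⟨s, Category.comp_id _⟩
  | cons m l ih =>
    intro s
    obtain ⟨s', hs'⟩ := pinS_parAt M N (x := x) n m s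
    obtain ⟨s'', hs''⟩ := ih s'
    refine ⟨s'', ?_⟩
    change pinS R M N x n s ≫ parAt R M N n m ≫ parWord R M N n l = _
    rw [← Category.assoc, hs', hs'']

lemma word_pinS (M N : C) {x : R.H.obj M ⟶ R.H.obj M} (hx : x ≫ R.par M = R.par M ≫ x) (n : ℕ)
    (l : List ℕ) : ∀ s : ℕ → Bool,
    ∃ s' : ℕ → Bool, parWord R M N n l ≫ pinS R M N x n s = pinS R M N x n s' := by
  induction l with
  | nil => exact fun s => ⟨s, Category.id_comp _⟩
  | cons m l ih =>
    intro s
    obtain ⟨s', hs'⟩ := ih s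
    obtain ⟨s'', hs''⟩ := parAt_pinS M N hx n m s'
    refine ⟨s'', ?_⟩
    change (parAt R M N n m ≫ parWord R M N n l) ≫ pinS R M N x n s = _
    rw [Category.assoc, hs', hs'']

lemma pinS_alg (M N : C) {u w : M ⟶ M} (hw : R.H.map w = R.H.map u ≫ R.par M) :
    ∀ (n : ℕ) (s : ℕ → Bool), ∃ z : tw M N n ⟶ tw M N n,
      R.H.map z = pinS R M N (R.H.map u) n s
  | 0, _ => ⟨𝟙 _, CategoryTheory.Functor.map_id _ _⟩
  | n + 1, s => by
    obtain ⟨z, hz⟩ := pinS_alg M N hw n fun i => s (i + 1)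
    have h1 : ∃ y : M ⟶ M, R.H.map y = (bif s 0 then R.H.map u ≫ R.par M else R.H.map u) := by
      cases s 0
      · exact ⟨u, rfl⟩
      · exact ⟨w, hw⟩
    obtain ⟨y, hy⟩ := h1
    refine ⟨y ⊗ₘ z, ?_⟩
    change R.H.map (y ⊗ₘ z) = bx R (bif s 0 then R.H.map u ≫ R.par M else R.H.map u)
      (pinS R M N (R.H.map u) n fun i => s (i + 1))
    rw [← hy, ← hz, bx_map]

/-- Products with the tensor power of an element of the ideal have algebraic components. -/
lemma allAlg_of_idI {M : C} {u : M ⟶ M} (hu : u ∈ idI R M) (P N : C) (m n : ℕ)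
    (f : tw M P m ⟶ tw M N n) : AllAlg R M P N m n (pinC M P u m ≫ f ≫ pinC M N u n) := by
  have hK := R_charZero R
  obtain ⟨w, hw⟩ := hu
  have hw' : R.H.map ((2 : ℚ) • w - u) = R.H.map u ≫ R.par M := by
    rw [Functor.map_sub, R_smul]
    have h2 : ((2 : ℚ) : K) = 2 := by norm_num
    rw [h2, hw, Preadditive.comp_add, Category.comp_id, add_sub_cancel_left]
  intro l l'
  obtain ⟨s, hs⟩ := word_pinS (R := R) M P (x := R.H.map u) (R.par_natural u) m l
    (fun _ => false)
  obtain ⟨s', hs'⟩ := pinS_word (R := R) M N (x := R.H.map u) n l' (fun _ => false)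
  obtain ⟨z, hz⟩ := pinS_alg (R := R) M P hw' m s
  obtain ⟨z', hz'⟩ := pinS_alg (R := R) M N hw' n s'
  refine ⟨z ≫ f ≫ z', ?_⟩
  rw [Functor.map_comp, Functor.map_comp, hz, hz', ← hs, ← hs', pinS_false, pinS_false,
    Functor.map_comp, Functor.map_comp, pin_eq, pin_eq]
  simp only [Category.assoc]

lemma NZ.bx_left {P Q : C} {x : R.H.obj P ⟶ R.H.obj P} (hx : NZ R x)
    {y : R.H.obj Q ⟶ R.H.obj Q} (hy : y ∈ Op R Q Q) : NZ R (bx R x y) := by
  have h1 : NZ R (bx R x (𝟙 (R.H.obj Q))) := by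
    intro z hz
    have h2 : z ∈ Op R (P ⊗ Q) (P ⊗ Q) := hz
    have h3 : ∀ f : P ⊗ Q ⟶ P ⊗ Q, st R (bx R x (𝟙 (R.H.obj Q)) ≫ R.H.map f) = 0 := by
      intro f
      rw [← st_PT, PT_left, PT_map]
      exact hx _ (Op.map _)
    exact NZ.of_map h3 z hz
  have h2 : bx R x y = bx R x (𝟙 _) ≫ bx R (𝟙 _) y := by
    rw [bx_comp, Category.id_comp, Category.comp_id]
  rw [h2]
  exact NZ.comp_right h1 (Op.bx (Op.id _) hy)

lemma NZ.iso {P Q : C} (θ : P ≅ Q) {p : R.H.obj P ⟶ R.H.obj P} {q : R.H.obj Q ⟶ R.H.obj Q}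
    (h : p ≫ R.H.map θ.hom = R.H.map θ.hom ≫ q) (hq : NZ R q) : NZ R p := by
  have h0 : R.H.map θ.hom ≫ R.H.map θ.inv = 𝟙 _ := by
    rw [← Functor.map_comp, θ.hom_inv_id, CategoryTheory.Functor.map_id]
  have h1 : p = R.H.map θ.hom ≫ q ≫ R.H.map θ.inv := by
    rw [← Category.assoc, ← h, Category.assoc, h0, Category.comp_id]
  rw [h1]
  exact NZ.comp_left (NZ.comp_right hq (Op.map _)) (Op.map _)

lemma NZ.bx_right {P Q : C} {x : R.H.obj P ⟶ R.H.obj P} (hx : x ∈ Op R P P)
    {y : R.H.obj Q ⟶ R.H.obj Q} (hy : NZ R y) (hyO : y ∈ Op R Q Q) : NZ R (bx R x y) :=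
  NZ.iso (β_ P Q) (bx_braid' R x y (Op.par hx) (Op.par hyO)) (NZ.bx_left hy hx)

lemma bx_sub_left {Q X : C} (a a' : R.H.obj Q ⟶ R.H.obj Q) (b : R.H.obj X ⟶ R.H.obj X) :
    bx R (a - a') b = bx R a b - bx R a' b := by
  have h := bx_add_left R (a - a') a' b
  rw [sub_add_cancel] at h
  rw [h, add_sub_cancel_right]

lemma bx_sub_right {Q X : C} (a : R.H.obj Q ⟶ R.H.obj Q) (b b' : R.H.obj X ⟶ R.H.obj X) :
    bx R a (b - b') = bx R a b - bx R a b' := by
  have h := bx_add_right R a (b - b') b'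
  rw [sub_add_cancel] at h
  rw [h, add_sub_cancel_right]

lemma NZ_sub_bx {P Q : C} {e : R.H.obj P ⟶ R.H.obj P} (he : e ∈ Op R P P) (hN : NZ R (𝟙 _ - e))
    {A : R.H.obj Q ⟶ R.H.obj Q} (hA : A ∈ Op R Q Q) (hNA : NZ R (𝟙 _ - A)) :
    NZ R (𝟙 _ - bx R e A) := by
  have h1 : 𝟙 _ - bx R e A = bx R (𝟙 _ - e) (𝟙 _) + bx R e (𝟙 _ - A) := by
    rw [bx_sub_left, bx_sub_right, bx_one]
    abel
  have h3 : (𝟙 _ - A) ∈ Op R Q Q := Submodule.sub_mem _ (Op.id _) hA
  rw [h1]
  exact (NZ.bx_left hN (Op.id Q)).add (NZ.bx_right he hNA h3)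

lemma NZ_sub_pin {M : C} {e : R.H.obj M ⟶ R.H.obj M} (he : e ∈ Op R M M) (hN : NZ R (𝟙 _ - e))
    (N : C) : ∀ n, NZ R (𝟙 _ - pin R M N e n)
  | 0 => by
    have h1 : 𝟙 _ - pin R M N e 0 = 0 := sub_self _
    rw [h1]
    exact NZ.zero
  | n + 1 => NZ_sub_bx he hN (pin_mem he n) (NZ_sub_pin he hN N n)

/-- The trace of a tensor product. -/
lemma trace_bx {P Q : C} (a : R.H.obj P ⟶ R.H.obj P) (b : R.H.obj Q ⟶ R.H.obj Q) :
    LinearMap.trace K (R.H.obj (P ⊗ Q)) (bx R a b).hom =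
      LinearMap.trace K (R.H.obj P) a.hom * LinearMap.trace K (R.H.obj Q) b.hom := by
  have h : ∀ {P : C} (a : R.H.obj P ⟶ R.H.obj P),
      LinearMap.trace K (R.H.obj P) a.hom = st R (a ≫ R.par P) := by
    intro P a
    rw [st, Category.assoc, R.par_sq, Category.comp_id]
  rw [h, h, h, ← st_bx, ← bx_comp, bx_par]

/-- The rank of an operator. -/
noncomputable def rkI {P : C} (e : R.H.obj P ⟶ R.H.obj P) : ℕ := finrank K (LinearMap.range e.hom)

lemma trace_eq_rkI {P : C} {e : R.H.obj P ⟶ R.H.obj P} (hee : e ≫ e = e) :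
    LinearMap.trace K (R.H.obj P) e.hom = rkI e := by
  have h := congrArg ModuleCat.Hom.hom hee
  rw [ModuleCat.hom_comp] at h
  exact trace_idem (K := K) (f := e.hom) h

lemma rkI_one (P : C) : rkI (𝟙 (R.H.obj P)) = dm R P := by
  rw [rkI, ModuleCat.hom_id, LinearMap.range_id, finrank_top]
  rfl

lemma rkI_bx {P Q : C} {a : R.H.obj P ⟶ R.H.obj P} {b : R.H.obj Q ⟶ R.H.obj Q} (ha : a ≫ a = a)
    (hb : b ≫ b = b) : rkI (bx R a b) = rkI a * rkI b := by
  have hK := R_charZero R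
  have h1 := trace_bx (R := R) a b
  rw [trace_eq_rkI ha, trace_eq_rkI hb, trace_eq_rkI (by rw [bx_comp, ha, hb])] at h1
  exact_mod_cast h1

lemma rkI_pin {M : C} {e : R.H.obj M ⟶ R.H.obj M} (hee : e ≫ e = e) (N : C) : ∀ n,
    rkI (pin R M N e n) = rkI e ^ n * dm R N
  | 0 => by rw [pow_zero, one_mul]; exact rkI_one N
  | n + 1 => by
    have h1 : rkI (pin R M N e (n + 1)) = rkI (bx R e (pin R M N e n)) := rfl
    rw [h1, rkI_bx hee (pin_idem hee n), rkI_pin hee N n, pow_succ]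
    ring

/-- If the complement of an idempotent is numerically trivial and nonzero, its rank is at least
two. -/
lemma rkI_add_two_le {M : C} {e : R.H.obj M ⟶ R.H.obj M} (he : e ∈ Op R M M) (hee : e ≫ e = e)
    (hN : NZ R (𝟙 _ - e)) (h1 : e ≠ 𝟙 _) : rkI e + 2 ≤ dm R M := by
  have hK := R_charZero R
  have h2K : (2 : K) ≠ 0 := two_ne_zero
  set f := 𝟙 (R.H.obj M) - e with hf
  have hff : f ≫ f = f := by
    rw [hf, Preadditive.sub_comp, Preadditive.comp_sub, Preadditive.comp_sub, hee]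
    simp
  have hfO : f ∈ Op R M M := Submodule.sub_mem _ (Op.id M) he
  have h2 := hN _ (Op.id M)
  rw [Category.comp_id] at h2
  -- the even part
  have hpf : f ≫ pe R M = pe R M ≫ f := by
    rw [pe, Linear.comp_smul, Linear.smul_comp, Preadditive.comp_add, Preadditive.add_comp,
      Op.par hfO, Category.comp_id, Category.id_comp]
  have hg : (f ≫ pe R M) ≫ (f ≫ pe R M) = f ≫ pe R M := by
    rw [Category.assoc, ← Category.assoc (pe R M), ← hpf, Category.assoc, pe_pe R h2K,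
      ← Category.assoc, hff]
  have h3 := trace_eq_rkI hg
  have h4 := trace_eq_rkI hff
  have h5 : (2 : K) • (f ≫ pe R M) = f + f ≫ R.par M := by
    rw [pe, Linear.comp_smul, smul_smul, mul_inv_cancel₀ h2K, one_smul, Preadditive.comp_add,
      Category.comp_id]
  have h6 := congrArg (fun x => LinearMap.trace K (R.H.obj M) x.hom) h5
  simp only [ModuleCat.hom_smul, ModuleCat.hom_add, map_smul, map_add, smul_eq_mul] at h6
  rw [h3, h4] at h6
  have h7 : LinearMap.trace K (R.H.obj M) (f ≫ R.par M).hom = 0 := h2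
  rw [h7, add_zero] at h6
  have h8 : 2 * rkI (f ≫ pe R M) = rkI f := by exact_mod_cast h6
  have h9 : rkI f ≠ 0 := by
    intro h
    have h10 := LinearMap.range_eq_bot.1 (Submodule.finrank_eq_zero.1 h)
    apply h1
    have h11 : f = 0 := ModuleCat.hom_ext h10
    rw [hf, sub_eq_zero] at h11
    exact h11.symm
  have h12 : rkI e + rkI f = dm R M := by
    have h13 : (rkI e : K) + rkI f = dm R M := by
      rw [← trace_eq_rkI hee, ← trace_eq_rkI hff, ← map_add, ← ModuleCat.hom_add, hf,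
        add_sub_cancel, ModuleCat.hom_id, LinearMap.trace_id]
      rfl
    exact_mod_cast h13
  omega

/-- The rank of the form if the complements of the idempotents are numerically trivial. -/
lemma rB_le_rkI {P Q : C} {e : R.H.obj P ⟶ R.H.obj P} {e' : R.H.obj Q ⟶ R.H.obj Q}
    (heO' : e' ∈ Op R Q Q)
    (he : NZ R (𝟙 _ - e)) (he' : NZ R (𝟙 _ - e')) :
    rB R P Q (𝟙 _) (𝟙 _) ≤ rkI e * rkI e' := by
  obtain ⟨x, y, hx, hy, h⟩ := exists_rB R P Q (𝟙 _) (𝟙 _)
  -- the operators `e x e'`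
  have h1 : ∀ i j, st R ((e ≫ x i ≫ e') ≫ y j) = if i = j then 1 else 0 := by
    intro i j
    have h2 := h i j
    rw [Category.id_comp, Category.id_comp] at h2
    rw [← h2]
    have e1 : st R (x i ≫ y j) = st R (x i ≫ e' ≫ y j) := by
      have h3 := NZ.comp_left he' (hx i) _ (hy j)
      rw [Preadditive.comp_sub, Category.comp_id, Preadditive.sub_comp, st_sub, sub_eq_zero,
        Category.assoc] at h3
      exact h3
    have e2 : st R (x i ≫ e' ≫ y j) = st R (e ≫ x i ≫ e' ≫ y j) := by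
      have h3 := he _ (Op.comp (hx i) (Op.comp heO' (hy j)))
      rw [Preadditive.sub_comp, st_sub, sub_eq_zero, Category.id_comp] at h3
      exact h3
    rw [e1, e2]
    simp only [Category.assoc]
  let A := (ModuleCat.homLinearEquiv (S := K) (M := R.H.obj P) (N := R.H.obj Q))
  let S : (LinearMap.range e.hom →ₗ[K] LinearMap.range e'.hom) →ₗ[K]
      (R.H.obj P →ₗ[K] R.H.obj Q) :=
    { toFun := fun s => (LinearMap.range e'.hom).subtype ∘ₗ s ∘ₗ e.hom.rangeRestrict
      map_add' := fun s t => by rw [LinearMap.add_comp, LinearMap.comp_add]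
      map_smul' := fun c s => by rw [LinearMap.smul_comp, LinearMap.comp_smul, RingHom.id_apply] }
  have h2 : ∀ i, (e ≫ x i ≫ e').hom ∈ LinearMap.range S := by
    intro i
    refine ⟨e'.hom.rangeRestrict ∘ₗ (x i).hom ∘ₗ (LinearMap.range e.hom).subtype, ?_⟩
    rfl
  have h3 : LinearIndependent K (fun i => (e ≫ x i ≫ e').hom) := by
    rw [Fintype.linearIndependent_iff]
    intro c hc j
    have h4 : ∑ i, c i • (e ≫ x i ≫ e') = 0 := by
      apply A.injective
      rw [map_sum, map_zero]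
      refine Eq.trans (Finset.sum_congr rfl fun i _ => ?_) hc
      rw [map_smul]
      rfl
    have h5 : st R ((∑ i, c i • (e ≫ x i ≫ e')) ≫ y j) = c j := by
      have h6 : ∀ s : Finset (Fin (rB R P Q (𝟙 _) (𝟙 _))),
          st R ((∑ i ∈ s, c i • (e ≫ x i ≫ e')) ≫ y j) =
            ∑ i ∈ s, c i * (if i = j then 1 else 0) := by
        classical
        intro s
        induction s using Finset.induction_on with
        | empty => rw [Finset.sum_empty, Finset.sum_empty, zero_comp, st_zero]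
        | insert i s hi ih =>
          rw [Finset.sum_insert hi, Finset.sum_insert hi, Preadditive.add_comp, st_add, ih,
            Linear.smul_comp, st_smul, h1]
      rw [h6]
      simp
    rw [h4, zero_comp, st_zero] at h5
    exact h5.symm
  have h4 : Submodule.span K (Set.range fun i => (e ≫ x i ≫ e').hom) ≤ LinearMap.range S := by
    rw [Submodule.span_le]
    rintro _ ⟨i, rfl⟩
    exact h2 i
  have h5 := Submodule.finrank_mono h4
  rw [finrank_span_eq_card h3, Fintype.card_fin] at h5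
  refine h5.trans ((LinearMap.finrank_range_le S).trans ?_)
  rw [finrank_linearMap]
  exact le_rfl

end

end Pool.Agent.E8helper91.ZO
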