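import Pool.Agent.E8helper91.ZO.Conc

/-!
# Comparison of the dimensions of endomorphism rings
-/

set_option autoImplicit false
set_option linter.unusedSectionVars false

open CategoryTheory Limits MonoidalCategory Module
open Pool.Agent.Y112.SR Pool.Agent.Y112.KD Pool.Agent.Y112.SC Pool.Agent.Y133.Half

namespace Pool.Agent.E8helper91.ZO

universe v u w

section

variable {C : Type u} [Category.{v} C] [Preadditive C] [Linear ℚ C] [MonoidalCategory C]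
  [MonoidalPreadditive C] [MonoidalLinear ℚ C] [SymmetricCategory C] [RightRigidCategory C]
  {K : Type w} [Field K] {R : SuperRealisation C K}

lemma en_compl_pos {M : C} {e : R.H.obj M ⟶ R.H.obj M} (hee : e ≫ e = e)
    (hN : ¬ NZ R (𝟙 _ - e)) : 1 ≤ en R M (𝟙 _ - e) := by
  have hff : (𝟙 _ - e) ≫ (𝟙 _ - e) = 𝟙 _ - e := by
    rw [Preadditive.sub_comp, Preadditive.comp_sub, Preadditive.comp_sub, hee]
    simp
  rw [NZ] at hN
  push Not at hN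
  obtain ⟨y, hy, h⟩ := hN
  exact en_pos hff hy h

/-- One factor. -/
lemma ratio_one {M Q : C} {e : R.H.obj M ⟶ R.H.obj M} (he : e ∈ Op R M M) (hee : e ≫ e = e)
    (hN : ¬ NZ R (𝟙 _ - e)) {q : R.H.obj Q ⟶ R.H.obj Q} (hq : q ∈ Op R Q Q) (hqq : q ≫ q = q) :
    dm R M ^ 2 * en R (M ⊗ Q) (bx R e q) ≤
      (dm R M ^ 2 - 1) * en R (M ⊗ Q) (bx R (𝟙 _) q) := by
  have hf : 𝟙 _ - e ∈ Op R M M := Submodule.sub_mem _ (Op.id M) he
  have hff : (𝟙 _ - e) ≫ (𝟙 _ - e) = 𝟙 _ - e := by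
    rw [Preadditive.sub_comp, Preadditive.comp_sub, Preadditive.comp_sub, hee]
    simp
  have hef : e ≫ (𝟙 _ - e) = 0 := by
    rw [Preadditive.comp_sub, hee, Category.comp_id, sub_self]
  have hfe : (𝟙 _ - e) ≫ e = 0 := by
    rw [Preadditive.sub_comp, hee, Category.id_comp, sub_self]
  have h1 := en_add (R := R) (e := bx R e q) (f := bx R (𝟙 _ - e) q) (Op.bx he hq)
    (Op.bx hf hq) (by rw [bx_comp, hee, hqq]) (by rw [bx_comp, hff, hqq])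
    (by rw [bx_comp, hef, bx_zero_left]) (by rw [bx_comp, hfe, bx_zero_left])
  rw [← bx_add_left, add_sub_cancel] at h1
  have h2 := en_mul (R := R) (𝟙 _ - e) q
  have h3 := en_compl_pos hee hN
  have h4 := en_tensor_le hq hqq M
  have h5 : en R (Q ⊗ M) (bx R q (𝟙 _)) = en R (M ⊗ Q) (bx R (𝟙 _) q) :=
    en_iso (β_ Q M) (bx_braid' R q (𝟙 _) (Op.par hq) one_par)
  rw [h5] at h4
  set A := en R (M ⊗ Q) (bx R (𝟙 _) q)
  set B := en R (M ⊗ Q) (bx R e q)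
  set D := en R (M ⊗ Q) (bx R (𝟙 _ - e) q)
  set F := en R M (𝟙 _ - e)
  set G := en R Q q
  have h6 : G ≤ D := le_trans (Nat.le_mul_of_pos_left _ h3) h2
  have h7 : A ≤ dm R M ^ 2 * D := h4.trans (Nat.mul_le_mul_left _ h6)
  have h8 : dm R M ^ 2 * (B + D) ≤ dm R M ^ 2 * A := Nat.mul_le_mul_left _ h1
  rw [mul_add] at h8
  rw [Nat.sub_mul, one_mul]
  omega

/-- One factor in the middle. -/
lemma ratio_mid {V M Z : C} {e : R.H.obj M ⟶ R.H.obj M} (he : e ∈ Op R M M) (hee : e ≫ e = e)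
    (hN : ¬ NZ R (𝟙 _ - e)) {z : R.H.obj Z ⟶ R.H.obj Z} (hz : z ∈ Op R Z Z) (hzz : z ≫ z = z) :
    dm R M ^ 2 * en R (V ⊗ (M ⊗ Z)) (bx R (𝟙 _) (bx R e z)) ≤
      (dm R M ^ 2 - 1) * en R ((V ⊗ M) ⊗ Z) (bx R (𝟙 _) z) := by
  have h1 : en R (V ⊗ (M ⊗ Z)) (bx R (𝟙 _) (bx R e z)) =
      en R (M ⊗ (V ⊗ Z)) (bx R e (bx R (𝟙 _) z)) :=
    en_iso (mv V M Z) (mv_nat z one_par (Op.par he))
  have h2 : en R (V ⊗ (M ⊗ Z)) (bx R (𝟙 _) (bx R (𝟙 _) z)) =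
      en R (M ⊗ (V ⊗ Z)) (bx R (𝟙 _) (bx R (𝟙 _) z)) :=
    en_iso (mv V M Z) (mv_nat z one_par one_par)
  have h3 : en R (V ⊗ (M ⊗ Z)) (bx R (𝟙 _) (bx R (𝟙 _) z)) =
      en R ((V ⊗ M) ⊗ Z) (bx R (𝟙 _) z) := en_iso (α_ V M Z).symm (assoc_one z)
  rw [h1, ← h3, h2]
  exact ratio_one he hee hN (Op.bx (Op.id V) hz) (by rw [bx_comp, hzz, Category.comp_id])

lemma ratio_multi {M N : C} {e : R.H.obj M ⟶ R.H.obj M} (he : e ∈ Op R M M) (hee : e ≫ e = e)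
    (hN : ¬ NZ R (𝟙 _ - e)) (n : ℕ) : ∀ V : C,
    (dm R M ^ 2) ^ n * en R (V ⊗ tw M N n) (bx R (𝟙 _) (pin R M N e n)) ≤
      (dm R M ^ 2 - 1) ^ n * en R (V ⊗ tw M N n) (𝟙 _) := by
  induction n with
  | zero =>
    intro V
    have h1 : bx R (𝟙 (R.H.obj V)) (pin R M N e 0) = 𝟙 _ := bx_one R V N
    rw [h1, pow_zero, pow_zero]
  | succ n ih =>
    intro V
    have h1 := ratio_mid (V := V) he hee hN (pin_mem (N := N) he n) (pin_idem hee n)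
    have h2 := ih (V ⊗ M)
    have h3 : en R (V ⊗ (M ⊗ tw M N n)) (𝟙 _) = en R ((V ⊗ M) ⊗ tw M N n) (𝟙 _) := by
      refine en_iso (α_ V M (tw M N n)).symm ?_
      rw [Category.id_comp, Category.comp_id]
    have h4 : en R (V ⊗ tw M N (n + 1)) (𝟙 _) = en R ((V ⊗ M) ⊗ tw M N n) (𝟙 _) := h3
    have h5 : en R (V ⊗ tw M N (n + 1)) (bx R (𝟙 _) (pin R M N e (n + 1))) =
      en R (V ⊗ (M ⊗ tw M N n)) (bx R (𝟙 _) (bx R e (pin R M N e n))) := rfl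
    rw [h4, h5, pow_succ (dm R M ^ 2) n, pow_succ (dm R M ^ 2 - 1) n]
    set b := dm R M ^ 2
    calc b ^ n * b * en R (V ⊗ (M ⊗ tw M N n)) (bx R (𝟙 _) (bx R e (pin R M N e n)))
        = b ^ n * (b * en R (V ⊗ (M ⊗ tw M N n)) (bx R (𝟙 _) (bx R e (pin R M N e n)))) := by
          ring
      _ ≤ b ^ n * ((b - 1) * en R ((V ⊗ M) ⊗ tw M N n) (bx R (𝟙 _) (pin R M N e n))) :=
          Nat.mul_le_mul_left _ h1
      _ = (b - 1) * (b ^ n * en R ((V ⊗ M) ⊗ tw M N n) (bx R (𝟙 _) (pin R M N e n))) := by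
          ring
      _ ≤ (b - 1) * ((b - 1) ^ n * en R ((V ⊗ M) ⊗ tw M N n) (𝟙 _)) :=
          Nat.mul_le_mul_left _ h2
      _ = _ := by rw [← mul_assoc, mul_comm (b - 1) ((b - 1) ^ n)]

/-- The part cut out by the power of the idempotent is exponentially small. -/
lemma ratio {M N : C} {e : R.H.obj M ⟶ R.H.obj M} (he : e ∈ Op R M M) (hee : e ≫ e = e)
    (hN : ¬ NZ R (𝟙 _ - e)) (n : ℕ) :
    (dm R M ^ 2) ^ n * en R (tw M N n) (pin R M N e n) ≤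
      (dm R M ^ 2 - 1) ^ n * en R (tw M N n) (𝟙 _) := by
  have h1 := ratio_multi (N := N) he hee hN n (𝟙_ C)
  have h2 : en R (𝟙_ C ⊗ tw M N n) (bx R (𝟙 _) (pin R M N e n)) =
      en R (tw M N n) (pin R M N e n) := en_iso (λ_ (tw M N n)) (bx_unit R _)
  have h3 : en R (𝟙_ C ⊗ tw M N n) (𝟙 _) = en R (tw M N n) (𝟙 _) := by
    refine en_iso (λ_ (tw M N n)) ?_
    rw [Category.id_comp, Category.comp_id]
  rwa [h2, h3] at h1

end

end Pool.Agent.E8helper91.ZO
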