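import Pool.Agent.Y133.Half.Gr0

/-!
# Spans of finite groups which contain signed permutations

(The first part follows `Pool.Agent.Y133.Half.Gr0`.)
-/

set_option autoImplicit false
set_option linter.unusedSectionVars false

namespace Pool.Agent.E8helper91.ZO

open Module
open Pool.Agent.Y133.Half
open scoped TensorProduct

section closed

variable {K M ι G : Type*} [Field K] [AddCommGroup M] [Module K M] [FiniteDimensional K M]
  [Fintype ι] [DecidableEq ι] {N : ℕ} [Group G] [Finite G]

/-- The algebra spanned by a representation. -/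
noncomputable def gAlg (ρ : G →* Module.End K M) : Subalgebra K (Module.End K M) :=
  (MonoidAlgebra.lift K _ _ ρ).range

instance gAlg_ss [CharZero K] (ρ : G →* Module.End K M) : IsSemisimpleRing (gAlg ρ) := by
  have hne : NeZero ((Nat.card G : K)) := ⟨Nat.cast_ne_zero.2 Nat.card_pos.ne'⟩
  have h1 : IsSemisimpleRing (MonoidAlgebra K G) := by
    unfold IsSemisimpleRing
    infer_instance
  let f : MonoidAlgebra K G →+* gAlg ρ :=
    ((MonoidAlgebra.lift K _ _ ρ).rangeRestrict).toRingHom
  have hf : Function.Surjective f := AlgHom.rangeRestrict_surjective _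
  exact RingHom.isSemisimpleRing_of_surjective f hf

lemma g_mem (ρ : G →* Module.End K M) (σ : G) : ρ σ ∈ gAlg ρ :=
  ⟨MonoidAlgebra.single σ 1, by
    change MonoidAlgebra.lift K _ _ ρ (MonoidAlgebra.single σ 1) = _
    rw [MonoidAlgebra.lift_single, one_smul]⟩

lemma gAlg_le (ρ : G →* Module.End K M) :
    Subalgebra.toSubmodule (gAlg ρ) ≤ Submodule.span K (Set.range ρ) := by
  rintro _ ⟨x, rfl⟩
  change MonoidAlgebra.lift K _ _ ρ x ∈ _
  rw [MonoidAlgebra.lift_apply, Finsupp.sum]
  exact Submodule.sum_mem _ fun σ _ => Submodule.smul_mem _ _ (Submodule.subset_span ⟨σ, rfl⟩)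

lemma le_gAlg (ρ : G →* Module.End K M) :
    Submodule.span K (Set.range ρ) ≤ Subalgebra.toSubmodule (gAlg ρ) := by
  rw [Submodule.span_le]
  rintro _ ⟨σ, rfl⟩
  exact g_mem ρ σ

theorem gspan_closed [IsAlgClosed K] [CharZero K] (e : Basis (Fin N → ι) K M)
    (ρ : G →* Module.End K M)
    (hP : ∀ σ : Equiv.Perm (Fin N), ∃ g : G, ∀ w, ∃ s : K, s ≠ 0 ∧ ρ g (e (w ∘ σ)) = s • e w) :
    finrank K M ^ 2 ≤ finrank K (Submodule.span K (Set.range ρ)) *
      (N + 1) ^ (Fintype.card ι ^ 2) := by
  choose γ hγ using hP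
  let D : Submodule K (Module.End K M) :=
    { carrier := {u | ∀ g m, u (ρ g m) = ρ g (u m)}
      zero_mem' := fun σ m => by rw [LinearMap.zero_apply, LinearMap.zero_apply, map_zero]
      add_mem' := fun {a b} ha hb σ m => by
        rw [LinearMap.add_apply, LinearMap.add_apply, ha σ m, hb σ m, map_add]
      smul_mem' := fun c a ha σ m => by
        rw [LinearMap.smul_apply, LinearMap.smul_apply, ha σ m, map_smul] }
  have h1 := commutant_le e (fun σ => ρ (γ σ)) hγ D fun u hu σ m => hu (γ σ) m
  have h2 := sq_le_mul_commutant K (gAlg ρ) M D fun u hu σ m => hu ⟨_, g_mem ρ σ⟩ m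
  have h3 : finrank K (gAlg ρ) ≤ finrank K (Submodule.span K (Set.range ρ)) :=
    Submodule.finrank_mono (gAlg_le ρ)
  exact h2.trans (Nat.mul_le_mul h3 h1)

end closed

section general

variable {K M ι G : Type*} [Field K] [AddCommGroup M] [Module K M] [FiniteDimensional K M]
  [Fintype ι] [DecidableEq ι] {N : ℕ} [Group G] [Finite G]

/-- **The dimension of the span of the group.** -/
theorem gspan [CharZero K] (e : Basis (Fin N → ι) K M) (ρ : G →* Module.End K M)
    (hP : ∀ σ : Equiv.Perm (Fin N), ∃ g : G, ∀ w, ∃ s : K, s ≠ 0 ∧ ρ g (e (w ∘ σ)) = s • e w) :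
    finrank K M ^ 2 ≤ finrank K (Submodule.span K (Set.range ρ)) *
      (N + 1) ^ (Fintype.card ι ^ 2) := by
  have hc : CharZero (AlgebraicClosure K) :=
    charZero_of_injective_algebraMap (algebraMap K (AlgebraicClosure K)).injective
  let ρ' : G →* Module.End (AlgebraicClosure K) (AlgebraicClosure K ⊗[K] M) :=
    { toFun := fun σ => (ρ σ).baseChange (AlgebraicClosure K)
      map_one' := by rw [map_one, LinearMap.baseChange_one]
      map_mul' := fun σ τ => by rw [map_mul, LinearMap.baseChange_mul] }
  have h := gspan_closed (e.baseChange (AlgebraicClosure K)) ρ' (by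
    intro σ
    obtain ⟨g, hg⟩ := hP σ
    refine ⟨g, fun w => ?_⟩
    obtain ⟨s, hs, h⟩ := hg w
    refine ⟨algebraMap K _ s, (map_ne_zero _).2 hs, ?_⟩
    rw [Basis.baseChange_apply, Basis.baseChange_apply]
    change (ρ g).baseChange (AlgebraicClosure K) _ = _
    rw [LinearMap.baseChange_tmul, h, TensorProduct.tmul_smul, algebraMap_smul])
  have h1 := finrank_span_bc (AlgebraicClosure K) (Set.range ρ)
  have h2 : (fun u : Module.End K M => u.baseChange (AlgebraicClosure K)) '' Set.range ρ =
      Set.range ρ' := by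
    rw [← Set.range_comp]; rfl
  rw [h2] at h1
  rw [Module.finrank_baseChange] at h
  exact h.trans (Nat.mul_le_mul_right _ h1)

/-- The trace form on the algebra spanned by a finite group is nondegenerate. -/
theorem gAlg_nondeg [CharZero K] (ρ : G →* Module.End K M) {x : Module.End K M}
    (hx : x ∈ gAlg ρ) (h : ∀ y ∈ gAlg ρ, LinearMap.trace K M (x * y) = 0) : x = 0 := by
  let I : Ideal (gAlg ρ) :=
    { carrier := {x | ∀ y : gAlg ρ, LinearMap.trace K M ((x : Module.End K M) * y) = 0}
      zero_mem' := fun y => by simp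
      add_mem' := fun {a b} ha hb y => by
        have h1 : ((a + b : gAlg ρ) : Module.End K M) * y = a * y + b * y := by
          rw [← add_mul]; rfl
        rw [h1, map_add, ha, hb, add_zero]
      smul_mem' := fun a x hx y => by
        have h1 : ((a • x : gAlg ρ) : Module.End K M) * y = a * (x * y) := by
          rw [← mul_assoc]; rfl
        have h2 := hx (y * a)
        rw [h1, LinearMap.trace_mul_comm, mul_assoc]
        exact h2 }
  obtain ⟨f, hf, hI⟩ := IsSemisimpleRing.ideal_eq_span_idempotent I
  have hfI : f ∈ I := by rw [hI]; exact Ideal.subset_span rfl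
  have h1 := hfI 1
  have h2 : ((f : Module.End K M)) * ((1 : gAlg ρ) : Module.End K M) = f := mul_one _
  have h3 : (f : Module.End K M) ∘ₗ (f : Module.End K M) = f := congrArg Subtype.val hf
  rw [h2, trace_idem (K := K) h3] at h1
  have h4 : finrank K (LinearMap.range (f : Module.End K M)) = 0 := by exact_mod_cast h1
  have h5 : (f : Module.End K M) = 0 := LinearMap.range_eq_bot.1 (Submodule.finrank_eq_zero.1 h4)
  have h6 : f = 0 := Subtype.ext h5
  have h7 : (⟨x, hx⟩ : gAlg ρ) ∈ I := fun y => h y y.2
  rw [hI, h6] at h7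
  have h8 : (⟨x, hx⟩ : gAlg ρ) = 0 := by simpa using h7
  exact congrArg Subtype.val h8

end general

end Pool.Agent.E8helper91.ZO
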