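import Pool.Agent.E8helper91.ZO.Dim
import Pool.Agent.E8helper91.ZO.Sym1

/-!
# Permutations of the factors of a tensor power
-/

set_option autoImplicit false
set_option linter.unusedSectionVars false

open CategoryTheory Limits MonoidalCategory Module
open Pool.Agent.Y112.SR Pool.Agent.Y112.KD Pool.Agent.Y112.SC Pool.Agent.Y133.Half

namespace Pool.Agent.E8helper91.ZO

universe v u w

open Functor.LaxMonoidal Functor.OplaxMonoidal

section

variable {C : Type u} [Category.{v} C] [Preadditive C] [Linear ℚ C] [MonoidalCategory C]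
  [MonoidalPreadditive C] [MonoidalLinear ℚ C] [SymmetricCategory C] [RightRigidCategory C]
  {K : Type w} [Field K] (R : SuperRealisation C K)

/-- The tensor product of two elements. -/
noncomputable def tens {P Q : C} (a : R.H.obj P) (b : R.H.obj Q) : R.H.obj (P ⊗ Q) :=
  (μ R.H P Q).hom (a ⊗ₜ[K] b : TensorProduct K (R.H.obj P) (R.H.obj Q))

lemma delta_tens {P Q : C} (a : R.H.obj P) (b : R.H.obj Q) :
    (δ R.H P Q).hom (tens R a b) = (a ⊗ₜ[K] b : TensorProduct K (R.H.obj P) (R.H.obj Q)) := by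
  have h := congrArg ModuleCat.Hom.hom (Functor.Monoidal.μ_δ R.H P Q)
  exact LinearMap.congr_fun h (a ⊗ₜ[K] b : TensorProduct K (R.H.obj P) (R.H.obj Q))

lemma bx_tens {P Q : C} (x : R.H.obj P ⟶ R.H.obj P) (y : R.H.obj Q ⟶ R.H.obj Q) (a : R.H.obj P)
    (b : R.H.obj Q) : (bx R x y).hom (tens R a b) = tens R (x.hom a) (y.hom b) := by
  rw [bx, ModuleCat.hom_comp, ModuleCat.hom_comp, LinearMap.comp_apply, LinearMap.comp_apply,
    delta_tens]
  rfl

lemma tens_smul_left {P Q : C} (c : K) (a : R.H.obj P) (b : R.H.obj Q) :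
    tens R (c • a) b = c • tens R a b := by
  rw [tens, tens, ← TensorProduct.smul_tmul']
  exact map_smul _ _ _

lemma tens_smul_right {P Q : C} (c : K) (a : R.H.obj P) (b : R.H.obj Q) :
    tens R a (c • b) = c • tens R a b := by
  rw [tens, tens, TensorProduct.tmul_smul]
  exact map_smul _ _ _

lemma assoc_tens {P Q S : C} (a : R.H.obj P) (b : R.H.obj Q) (c : R.H.obj S) :
    (R.H.map (α_ P Q S).hom).hom (tens R (tens R a b) c) = tens R a (tens R b c) := by
  have h := congrArg ModuleCat.Hom.hom (Functor.LaxMonoidal.associativity (F := R.H) P Q S)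
  exact LinearMap.congr_fun h ((a ⊗ₜ[K] b) ⊗ₜ[K] c :
    TensorProduct K (TensorProduct K (R.H.obj P) (R.H.obj Q)) (R.H.obj S))

lemma assoc_inv_tens {P Q S : C} (a : R.H.obj P) (b : R.H.obj Q) (c : R.H.obj S) :
    (R.H.map (α_ P Q S).inv).hom (tens R a (tens R b c)) = tens R (tens R a b) c := by
  rw [← assoc_tens, ← LinearMap.comp_apply, ← ModuleCat.hom_comp, ← Functor.map_comp,
    Iso.hom_inv_id, CategoryTheory.Functor.map_id]
  rfl

lemma whisker_tens {P Q Z : C} (h : P ⟶ Q) (a : R.H.obj P) (z : R.H.obj Z) :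
    (R.H.map (h ▷ Z)).hom (tens R a z) = tens R ((R.H.map h).hom a) z := by
  rw [Functor.Monoidal.map_whiskerRight, ModuleCat.hom_comp, ModuleCat.hom_comp,
    LinearMap.comp_apply, LinearMap.comp_apply, delta_tens]
  rfl

/-- The sign of the exchange of homogeneous elements. -/
def sg (a b : ℤˣ) : ℤˣ := if a = -1 ∧ b = -1 then -1 else 1

lemma braid_tens {P Q : C} {a : R.H.obj P} {b : R.H.obj Q} {s t : ℤˣ}
    (ha : (R.par P).hom a = ((s : ℤ) : K) • a) (hb : (R.par Q).hom b = ((t : ℤ) : K) • b) :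
    (R.H.map (β_ P Q).hom).hom (tens R a b) = ((sg s t : ℤ) : K) • tens R b a := by
  have hK := R_charZero R
  have h2 : (2 : K) ≠ 0 := two_ne_zero
  have h := congrArg ModuleCat.Hom.hom (R.symm P Q)
  have h1 := LinearMap.congr_fun h (a ⊗ₜ[K] b : TensorProduct K (R.H.obj P) (R.H.obj Q))
  have h3 : ((2 : K) • (μ R.H P Q ≫ R.H.map (β_ P Q).hom)).hom
      (a ⊗ₜ[K] b : TensorProduct K (R.H.obj P) (R.H.obj Q)) =
        (2 : K) • (R.H.map (β_ P Q).hom).hom (tens R a b) := rfl
  have h4 : ((𝟙 _ + R.par P ▷ R.H.obj Q + R.H.obj P ◁ R.par Q - (R.par P ⊗ₘ R.par Q)) ≫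
      (β_ (R.H.obj P) (R.H.obj Q)).hom ≫ μ R.H Q P).hom
      (a ⊗ₜ[K] b : TensorProduct K (R.H.obj P) (R.H.obj Q)) =
        (μ R.H Q P).hom ((β_ (R.H.obj P) (R.H.obj Q)).hom.hom
          ((a ⊗ₜ[K] b : TensorProduct K (R.H.obj P) (R.H.obj Q)) + (R.par P).hom a ⊗ₜ[K] b +
            a ⊗ₜ[K] (R.par Q).hom b - (R.par P).hom a ⊗ₜ[K] (R.par Q).hom b)) := rfl
  rw [h3, h4, ha, hb] at h1
  have h5 : ((a ⊗ₜ[K] b : TensorProduct K (R.H.obj P) (R.H.obj Q)) +
      (((s : ℤ) : K) • a) ⊗ₜ[K] b + a ⊗ₜ[K] (((t : ℤ) : K) • b) -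
        (((s : ℤ) : K) • a) ⊗ₜ[K] (((t : ℤ) : K) • b)) =
      (1 + ((s : ℤ) : K) + ((t : ℤ) : K) - ((s : ℤ) : K) * ((t : ℤ) : K)) •
        (a ⊗ₜ[K] b : TensorProduct K (R.H.obj P) (R.H.obj Q)) := by
    rw [← TensorProduct.smul_tmul', TensorProduct.tmul_smul, ← TensorProduct.smul_tmul',
      TensorProduct.tmul_smul]
    module
  rw [h5] at h1
  have h6 : (1 + ((s : ℤ) : K) + ((t : ℤ) : K) - ((s : ℤ) : K) * ((t : ℤ) : K)) =
      2 * ((sg s t : ℤ) : K) := by
    rcases Int.units_eq_one_or s with rfl | rfl <;> rcases Int.units_eq_one_or t with rfl | rfl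
    · simp [sg]; norm_num
    · simp [sg]; norm_num
    · simp [sg]; norm_num
    · simp [sg]; norm_num
  rw [h6] at h1
  have h7 : (μ R.H Q P).hom ((β_ (R.H.obj P) (R.H.obj Q)).hom.hom
      ((2 * ((sg s t : ℤ) : K)) • (a ⊗ₜ[K] b : TensorProduct K (R.H.obj P) (R.H.obj Q)))) =
      (2 : K) • (((sg s t : ℤ) : K) • tens R b a) := by
    rw [smul_smul]
    refine (congrArg (μ R.H Q P).hom (map_smul (β_ (R.H.obj P) (R.H.obj Q)).hom.hom _ _)).trans ?_
    exact map_smul (μ R.H Q P).hom _ _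
  rw [h7] at h1
  exact smul_right_injective _ h2 h1

lemma mv_tens {V M Z : C} {a : R.H.obj V} {b : R.H.obj M} (z : R.H.obj Z) {s t : ℤˣ}
    (ha : (R.par V).hom a = ((s : ℤ) : K) • a) (hb : (R.par M).hom b = ((t : ℤ) : K) • b) :
    (R.H.map (mv V M Z).hom).hom (tens R a (tens R b z)) =
      ((sg s t : ℤ) : K) • tens R b (tens R a z) := by
  have h1 : (mv V M Z).hom = (α_ V M Z).inv ≫ (β_ V M).hom ▷ Z ≫ (α_ M V Z).hom := rfl
  rw [h1, Functor.map_comp, Functor.map_comp, ModuleCat.hom_comp, ModuleCat.hom_comp,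
    LinearMap.comp_apply, LinearMap.comp_apply, assoc_inv_tens, whisker_tens, braid_tens R ha hb,
    tens_smul_left, map_smul, assoc_tens]

/-- A homogeneous basis. -/
lemma exists_hbasis (M : C) : ∃ (ι : Type) (_ : Fintype ι) (_ : DecidableEq ι)
    (e : Basis ι K (R.H.obj M)) (s : ι → ℤˣ), ∀ i, (R.par M).hom (e i) = ((s i : ℤ) : K) • e i := by
  have hK := R_charZero R
  have h2 : (2 : K) ≠ 0 := two_ne_zero
  have hpp : ∀ x, (R.par M).hom ((R.par M).hom x) = x := by
    intro x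
    exact LinearMap.congr_fun (congrArg ModuleCat.Hom.hom (R.par_sq M)) x
  set p : R.H.obj M →ₗ[K] R.H.obj M := (R.par M).hom with hp
  let A : Submodule K (R.H.obj M) := LinearMap.ker (p - LinearMap.id)
  let B : Submodule K (R.H.obj M) := LinearMap.ker (p + LinearMap.id)
  have hA : ∀ x, x ∈ A ↔ p x = x := fun x => by
    rw [LinearMap.mem_ker, LinearMap.sub_apply, LinearMap.id_apply, sub_eq_zero]
  have hB : ∀ x, x ∈ B ↔ p x = -x := fun x => by
    rw [LinearMap.mem_ker, LinearMap.add_apply, LinearMap.id_apply, add_eq_zero_iff_eq_neg]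
  have hc : IsCompl A B := by
    constructor
    · rw [Submodule.disjoint_def]
      intro x h1 h3
      rw [hA] at h1
      rw [hB, h1] at h3
      have h4 : (2 : K) • x = 0 := by rw [two_smul]; nth_rw 1 [h3]; exact neg_add_cancel x
      exact (smul_eq_zero.1 h4).resolve_left h2
    · rw [codisjoint_iff, eq_top_iff]
      intro x _
      have h1 : x = (2 : K)⁻¹ • (x + p x) + (2 : K)⁻¹ • (x - p x) := by
        rw [← smul_add]
        have : x + p x + (x - p x) = (2 : K) • x := by rw [two_smul]; abel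
        rw [this, smul_smul, inv_mul_cancel₀ h2, one_smul]
      rw [h1]
      refine Submodule.add_mem_sup (Submodule.smul_mem _ _ ?_) (Submodule.smul_mem _ _ ?_)
      · rw [hA, map_add, hpp, add_comm]
      · rw [hB, map_sub, hpp]; abel
  let bA := Module.finBasis K A
  let bB := Module.finBasis K B
  refine ⟨Fin (finrank K A) ⊕ Fin (finrank K B), inferInstance, inferInstance,
    (bA.prod bB).map (Submodule.prodEquivOfIsCompl A B hc), Sum.elim (fun _ => 1) (fun _ => -1),
    ?_⟩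
  rintro (i | i)
  · have h1 : ((bA.prod bB).map (Submodule.prodEquivOfIsCompl A B hc)) (Sum.inl i) = (bA i : R.H.obj M) := by
      simp
    rw [h1, (hA _).1 (bA i).2]
    simp
  · have h1 : ((bA.prod bB).map (Submodule.prodEquivOfIsCompl A B hc)) (Sum.inr i) = (bB i : R.H.obj M) := by
      simp
    rw [h1, (hB _).1 (bB i).2]
    simp

end

end Pool.Agent.E8helper91.ZO
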