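import Pool.Agent.E8helper91.ZO.Sym2

/-!
# The action of the permutations on a basis of a tensor power
-/

set_option autoImplicit false
set_option linter.unusedSectionVars false

open CategoryTheory Limits MonoidalCategory Module Equiv.Perm
open Pool.Agent.Y112.SR Pool.Agent.Y112.KD Pool.Agent.Y112.SC Pool.Agent.Y133.Half

namespace Pool.Agent.E8helper91.ZO

universe v u w

open Functor.LaxMonoidal Functor.OplaxMonoidal

section

variable {C : Type u} [Category.{v} C] [Preadditive C] [Linear ℚ C] [MonoidalCategory C]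
  [MonoidalPreadditive C] [MonoidalLinear ℚ C] [SymmetricCategory C] [RightRigidCategory C]
  {K : Type w} [Field K] (R : SuperRealisation C K)

/-- The realisation of the unit. -/
noncomputable def unitE : K ≃ₗ[K] R.H.obj (𝟙_ C) := (Functor.Monoidal.εIso R.H).toLinearEquiv

/-- The realisation of a tensor product. -/
noncomputable def tensE (P Q : C) :
    TensorProduct K (R.H.obj P) (R.H.obj Q) ≃ₗ[K] R.H.obj (P ⊗ Q) :=
  (Functor.Monoidal.μIso R.H P Q).toLinearEquiv

lemma tensE_tmul {P Q : C} (a : R.H.obj P) (b : R.H.obj Q) :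
    tensE R P Q (a ⊗ₜ[K] b) = tens R a b := rfl

variable {ι : Type} [Fintype ι] [DecidableEq ι] {M : C} (e : Basis ι K (R.H.obj M))

/-- The basis of the realisation of `M ⊗ Q`. -/
noncomputable def wstep {n : ℕ} {Q : C} (f : Basis (Fin n → ι) K (R.H.obj Q)) :
    Basis (Fin (n + 1) → ι) K (R.H.obj (M ⊗ Q)) :=
  ((e.tensorProduct f).map (tensE R M Q)).reindex (Fin.consEquiv fun _ => ι)

lemma wstep_apply {n : ℕ} {Q : C} (f : Basis (Fin n → ι) K (R.H.obj Q)) (w : Fin (n + 1) → ι) :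
    wstep R e f w = tens R (e (w 0)) (f (Fin.tail w)) := by
  rw [wstep, Basis.reindex_apply, Basis.map_apply]
  change tensE R M Q ((e.tensorProduct f) (w 0, Fin.tail w)) = _
  rw [Basis.tensorProduct_apply, tensE_tmul]

/-- The basis of words of the realisation of the tensor power. -/
noncomputable def wb : ∀ n, Basis (Fin n → ι) K (R.H.obj (tw M (𝟙_ C) n))
  | 0 => (Basis.singleton (Fin 0 → ι) K).map (unitE R)
  | n + 1 => wstep R e (wb n)

/-- The operator acts as the permutation `σ` on the words, up to signs. -/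
def Sgn {n : ℕ} {Q : C} (f : Basis (Fin n → ι) K (R.H.obj Q)) (σ : Equiv.Perm (Fin n))
    (g : Module.End K (R.H.obj Q)) : Prop :=
  ∀ w : Fin n → ι, ∃ s : ℤˣ, g (f (w ∘ σ)) = ((s : ℤ) : K) • f w

variable {R}

lemma Sgn.one {n : ℕ} {Q : C} (f : Basis (Fin n → ι) K (R.H.obj Q)) : Sgn R f 1 1 := by
  intro w
  refine ⟨1, ?_⟩
  simp

lemma Sgn.mul {n : ℕ} {Q : C} {f : Basis (Fin n → ι) K (R.H.obj Q)} {σ τ : Equiv.Perm (Fin n)}
    {g h : Module.End K (R.H.obj Q)} (hg : Sgn R f σ g) (hh : Sgn R f τ h) :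
    Sgn R f (σ * τ) (g * h) := by
  intro w
  obtain ⟨s, hs⟩ := hg w
  obtain ⟨t, ht⟩ := hh (w ∘ σ)
  refine ⟨t * s, ?_⟩
  have h1 : w ∘ (σ * τ : Equiv.Perm (Fin n)) = (w ∘ σ) ∘ τ := rfl
  rw [h1, Module.End.mul_apply, ht, map_smul, hs, smul_smul]
  push_cast
  rfl

/-- The lift of a permutation. -/
def lft {n : ℕ} (σ : Equiv.Perm (Fin n)) : Equiv.Perm (Fin (n + 1)) := decomposeFin.symm (0, σ)

lemma lft_zero {n : ℕ} (σ : Equiv.Perm (Fin n)) : lft σ 0 = 0 := decomposeFin_symm_apply_zero 0 σ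

lemma lft_succ {n : ℕ} (σ : Equiv.Perm (Fin n)) (i : Fin n) : lft σ i.succ = (σ i).succ := by
  rw [lft, decomposeFin_symm_apply_succ]
  simp

lemma Sgn.lift {n : ℕ} {Q : C} {f : Basis (Fin n → ι) K (R.H.obj Q)} {σ : Equiv.Perm (Fin n)}
    {g : R.H.obj Q ⟶ R.H.obj Q} (hg : Sgn R f σ g.hom) :
    Sgn R (wstep R e f) (lft σ) (bx R (𝟙 (R.H.obj M)) g).hom := by
  intro w
  obtain ⟨s, hs⟩ := hg (Fin.tail w)
  refine ⟨s, ?_⟩
  have h1 : (w ∘ lft σ) 0 = w 0 := by rw [Function.comp_apply, lft_zero]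
  have h2 : Fin.tail (w ∘ lft σ) = Fin.tail w ∘ σ := by
    funext i
    change w (lft σ i.succ) = w (σ i).succ
    rw [lft_succ]
  rw [wstep_apply, wstep_apply, h1, h2, bx_tens, hs, tens_smul_right]
  rfl

lemma Sgn.head {s : ι → ℤˣ} (he : ∀ i, (R.par M).hom (e i) = ((s i : ℤ) : K) • e i) {n : ℕ}
    {Q : C} (f : Basis (Fin n → ι) K (R.H.obj Q)) :
    Sgn R (wstep R e (wstep R e f)) (Equiv.swap 0 1) (R.H.map (mv M M Q).hom).hom := by
  intro w
  refine ⟨sg (s (w 1)) (s (w 0)), ?_⟩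
  have h1 : (w ∘ Equiv.swap 0 1) 0 = w 1 := by
    rw [Function.comp_apply, Equiv.swap_apply_left]
  have h2 : Fin.tail (w ∘ Equiv.swap 0 1) 0 = w 0 := by
    change w (Equiv.swap 0 1 1) = w 0
    rw [Equiv.swap_apply_right]
  have h3 : Fin.tail (Fin.tail (w ∘ Equiv.swap 0 1)) = Fin.tail (Fin.tail w) := by
    funext i
    change w (Equiv.swap 0 1 i.succ.succ) = w i.succ.succ
    rw [Equiv.swap_apply_of_ne_of_ne]
    · exact Fin.succ_ne_zero _
    · intro h
      have := congrArg Fin.val h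
      simp at this
  have h4 : Fin.tail w 0 = w 1 := rfl
  rw [wstep_apply, wstep_apply, wstep_apply, wstep_apply, h1, h2, h3, h4,
    mv_tens R _ (he _) (he _)]

/-- All permutations are realised by automorphisms of the tensor power. -/
lemma exists_auto {s : ι → ℤˣ} (he : ∀ i, (R.par M).hom (e i) = ((s i : ℤ) : K) • e i) :
    ∀ (n : ℕ) (σ : Equiv.Perm (Fin n)), ∃ θ : tw M (𝟙_ C) n ≅ tw M (𝟙_ C) n,
      Sgn R (wb R e n) σ (R.H.map θ.hom).hom := by
  have hone : ∀ n, ∃ θ : tw M (𝟙_ C) n ≅ tw M (𝟙_ C) n,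
      Sgn R (wb R e n) 1 (R.H.map θ.hom).hom := by
    intro n
    refine ⟨Iso.refl _, ?_⟩
    rw [Iso.refl_hom, CategoryTheory.Functor.map_id]
    exact Sgn.one _
  have hmul : ∀ n (σ τ : Equiv.Perm (Fin n)),
      (∃ θ : tw M (𝟙_ C) n ≅ tw M (𝟙_ C) n, Sgn R (wb R e n) σ (R.H.map θ.hom).hom) →
      (∃ θ : tw M (𝟙_ C) n ≅ tw M (𝟙_ C) n, Sgn R (wb R e n) τ (R.H.map θ.hom).hom) →
      (∃ θ : tw M (𝟙_ C) n ≅ tw M (𝟙_ C) n, Sgn R (wb R e n) (σ * τ) (R.H.map θ.hom).hom) := by
    rintro n σ τ ⟨θ, hθ⟩ ⟨η, hη⟩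
    refine ⟨η ≪≫ θ, ?_⟩
    have h1 := hθ.mul hη
    have h2 : (R.H.map (η ≪≫ θ).hom).hom = ((R.H.map θ.hom).hom : Module.End K _) *
        (R.H.map η.hom).hom := by
      rw [Iso.trans_hom, Functor.map_comp, ModuleCat.hom_comp]
      rfl
    rw [h2]
    exact h1
  intro n
  induction n with
  | zero =>
    intro σ
    rw [Subsingleton.elim σ 1]
    exact hone 0
  | succ n ih =>
    have hlift : ∀ σ : Equiv.Perm (Fin n), ∃ θ : tw M (𝟙_ C) (n + 1) ≅ tw M (𝟙_ C) (n + 1),
        Sgn R (wb R e (n + 1)) (lft σ) (R.H.map θ.hom).hom := by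
      intro σ
      obtain ⟨θ, hθ⟩ := ih σ
      refine ⟨whiskerLeftIso M θ, ?_⟩
      have h1 := hθ.lift e
      rw [← CategoryTheory.Functor.map_id, bx_map, id_tensorHom] at h1
      exact h1
    let T : Submonoid (Equiv.Perm (Fin (n + 1))) :=
      { carrier := {σ | ∃ θ : tw M (𝟙_ C) (n + 1) ≅ tw M (𝟙_ C) (n + 1),
          Sgn R (wb R e (n + 1)) σ (R.H.map θ.hom).hom}
        one_mem' := hone (n + 1)
        mul_mem' := fun {a b} ha hb => hmul (n + 1) a b ha hb }
    have hT : (⊤ : Submonoid (Equiv.Perm (Fin (n + 1)))) ≤ T := by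
      rw [← mclosure_swap_castSucc_succ n, Submonoid.closure_le]
      rintro _ ⟨i, rfl⟩
      cases n with
      | zero => exact i.elim0
      | succ n =>
        refine Fin.cases ?_ (fun j => ?_) i
        · exact ⟨mv M M (tw M (𝟙_ C) n), Sgn.head e he (wb R e n)⟩
        · have h1 : Equiv.swap (j.succ.castSucc) (j.succ.succ) =
              lft (Equiv.swap j.castSucc j.succ) := by
            apply Equiv.ext
            intro x
            refine Fin.cases ?_ (fun y => ?_) x
            · rw [lft_zero, Equiv.swap_apply_of_ne_of_ne]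
              · intro h
                have := congrArg Fin.val h
                simp at this
              · intro h
                have := congrArg Fin.val h
                simp at this
            · rw [lft_succ]
              have h2 : (j.succ.castSucc : Fin (n + 1 + 1)) = j.castSucc.succ := rfl
              rw [h2]
              exact ((Fin.succ_injective _).swap_apply j.castSucc j.succ y)
          change Equiv.swap (j.succ.castSucc) (j.succ.succ) ∈ T
          rw [h1]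
          exact hlift _
    exact fun σ => hT (Submonoid.mem_top σ)

end

end Pool.Agent.E8helper91.ZO
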