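import Pool.Agent.E8helper91.ZO.Sym3

/-!
# Growth of the numerical rank if the sign conjecture holds
-/

set_option autoImplicit false
set_option linter.unusedSectionVars false

open CategoryTheory Limits MonoidalCategory Module
open Pool.Agent.Y112.SR Pool.Agent.Y112.KD Pool.Agent.Y112.SC Pool.Agent.Y133.Half

namespace Pool.Agent.E8helper91.ZO

universe v u w

open Functor.LaxMonoidal Functor.OplaxMonoidal

section

variable {C : Type u} [Category.{v} C] [Preadditive C] [Linear ℚ C] [MonoidalCategory C]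
  [MonoidalPreadditive C] [MonoidalLinear ℚ C] [SymmetricCategory C] [RightRigidCategory C]
  {K : Type w} [Field K] (R : SuperRealisation C K)

variable {ι : Type} [Fintype ι] [DecidableEq ι]

lemma cast_unit_sq (s : ℤˣ) : ((s : ℤ) : K) * ((s : ℤ) : K) = 1 := by
  rcases Int.units_eq_one_or s with rfl | rfl <;> simp

/-- The group of the signed permutations which are realised by automorphisms. -/
def grp {n : ℕ} {Q : C} (f : Basis (Fin n → ι) K (R.H.obj Q)) :
    Subgroup (Module.End K (R.H.obj Q))ˣ where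
  carrier := {u | (∃ θ : Q ≅ Q, (R.H.map θ.hom).hom = (u : Module.End K (R.H.obj Q))) ∧
    ∃ σ, Sgn R f σ (u : Module.End K (R.H.obj Q))}
  one_mem' := by
    refine ⟨⟨Iso.refl _, ?_⟩, 1, Sgn.one f⟩
    rw [Iso.refl_hom, CategoryTheory.Functor.map_id]
    rfl
  mul_mem' := by
    rintro u u' ⟨⟨θ, h1⟩, σ, h2⟩ ⟨⟨θ', h1'⟩, σ', h2'⟩
    refine ⟨⟨θ' ≪≫ θ, ?_⟩, σ * σ', h2.mul h2'⟩
    rw [Iso.trans_hom, Functor.map_comp, ModuleCat.hom_comp, h1, h1']
    rfl
  inv_mem' := by
    rintro u ⟨⟨θ, h1⟩, σ, h2⟩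
    refine ⟨⟨θ.symm, ?_⟩, σ⁻¹, ?_⟩
    · have h3 : (u : Module.End K (R.H.obj Q)) * (R.H.map θ.inv).hom = 1 := by
        rw [← h1]
        change (R.H.map θ.hom).hom ∘ₗ (R.H.map θ.inv).hom = 1
        rw [← ModuleCat.hom_comp, ← Functor.map_comp, θ.inv_hom_id,
          CategoryTheory.Functor.map_id]
        rfl
      exact (Units.inv_eq_of_mul_eq_one_right h3).symm
    · intro w
      obtain ⟨s, hs⟩ := h2 (w ∘ (σ⁻¹ : Equiv.Perm (Fin n)))
      refine ⟨s, ?_⟩
      have h3 : (w ∘ (σ⁻¹ : Equiv.Perm (Fin n))) ∘ σ = w := by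
        funext i
        simp
      rw [h3] at hs
      have h4 : f w = ((u⁻¹ : (Module.End K (R.H.obj Q))ˣ) : Module.End K (R.H.obj Q))
          ((u : Module.End K (R.H.obj Q)) (f w)) := by
        rw [← Module.End.mul_apply, Units.inv_mul]
        rfl
      conv_rhs => rw [h4, hs, map_smul, smul_smul, cast_unit_sq, one_smul]

instance finite_grp {n : ℕ} {Q : C} (f : Basis (Fin n → ι) K (R.H.obj Q)) :
    Finite (grp R f) := by
  choose σ hσ using fun u : grp R f => u.2.2
  choose s hs using hσ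
  apply Finite.of_injective (β := Equiv.Perm (Fin n) × ((Fin n → ι) → ℤˣ))
    (fun u => (σ u, s u))
  intro u u' h
  have h1 : σ u = σ u' := congrArg Prod.fst h
  have h2 : s u = s u' := congrArg Prod.snd h
  apply Subtype.ext
  apply Units.ext
  apply f.ext
  intro w
  have h3 : (w ∘ ((σ u)⁻¹ : Equiv.Perm (Fin n))) ∘ (σ u) = w := by
    funext i
    simp
  have h4 := hs u (w ∘ ((σ u)⁻¹ : Equiv.Perm (Fin n)))
  have h5 := hs u' (w ∘ ((σ u)⁻¹ : Equiv.Perm (Fin n)))
  rw [← h1, h3, ← h2] at h5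
  rw [h3] at h4
  rw [h4, h5]

/-- The representation of the group. -/
noncomputable def rho {n : ℕ} {Q : C} (f : Basis (Fin n → ι) K (R.H.obj Q)) :
    grp R f →* Module.End K (R.H.obj Q) :=
  (Units.coeHom _).comp (grp R f).subtype

variable {R}

lemma rho_Op {n : ℕ} {Q : C} (f : Basis (Fin n → ι) K (R.H.obj Q)) {x : Module.End K (R.H.obj Q)}
    (hx : x ∈ gAlg (rho R f)) : ModuleCat.ofHom x ∈ Op R Q Q := by
  have h1 : x ∈ Submodule.span K (Set.range (rho R f)) := gAlg_le _ hx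
  refine Submodule.span_induction (p := fun x _ => ModuleCat.ofHom x ∈ Op R Q Q) ?_ ?_ ?_ ?_ h1
  · rintro _ ⟨u, rfl⟩
    obtain ⟨⟨θ, h2⟩, -⟩ := u.2
    have h3 : ModuleCat.ofHom (rho R f u) = R.H.map θ.hom := ModuleCat.hom_ext h2.symm
    rw [h3]
    exact Op.map _
  · exact Submodule.zero_mem (Op R Q Q)
  · intro a b _ _ ha hb
    exact Submodule.add_mem (Op R Q Q) ha hb
  · intro c a _ ha
    exact Submodule.smul_mem (Op R Q Q) c ha

/-- The trace form on the span of the group gives a lower bound for the numerical rank. -/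
lemma gAlg_le_rB {n : ℕ} {Q : C} (f : Basis (Fin n → ι) K (R.H.obj Q)) {g : Q ⟶ Q}
    (hg : R.H.map g = R.par Q) : finrank K (gAlg (rho R f)) ≤ rB R Q Q (𝟙 _) (𝟙 _) := by
  have hK := R_charZero R
  let β : gAlg (rho R f) →ₗ[K] gAlg (rho R f) →ₗ[K] K :=
    LinearMap.mk₂ K (fun x y => LinearMap.trace K (R.H.obj Q)
        ((x : Module.End K (R.H.obj Q)) * (y : Module.End K (R.H.obj Q))))
      (fun x x' y => by rw [AddMemClass.coe_add, add_mul, map_add])
      (fun c x y => by rw [SetLike.val_smul, smul_mul_assoc, map_smul])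
      (fun x y y' => by rw [AddMemClass.coe_add, mul_add, map_add])
      (fun c x y => by rw [SetLike.val_smul, mul_smul_comm, map_smul])
  have hinj : Function.Injective β := by
    rw [← LinearMap.ker_eq_bot, LinearMap.ker_eq_bot']
    intro x hx
    apply Subtype.ext
    exact gAlg_nondeg (rho R f) x.2 fun y hy =>
      congrArg (fun φ : gAlg (rho R f) →ₗ[K] K => φ ⟨y, hy⟩) hx
  have hrk : rk β = finrank K (gAlg (rho R f)) := LinearMap.finrank_range_of_inj hinj
  obtain ⟨x, y, hxy⟩ := exists_dual β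
  have hpar : R.par Q ∈ Op R Q Q := by rw [← hg]; exact Op.map g
  have h1 := le_rB (R := R) (P := Q) (Q := Q) (p := 𝟙 _) (q := 𝟙 _)
    (fun i => ModuleCat.ofHom (x i : Module.End K (R.H.obj Q)))
    (fun i => ModuleCat.ofHom (y i : Module.End K (R.H.obj Q)) ≫ R.par Q)
    (fun i => rho_Op f (x i).2) (fun i => Op.comp (rho_Op f (y i).2) hpar) ?_
  · rw [Fintype.card_fin, hrk] at h1
    exact h1
  · intro i j
    rw [← hxy i j, Category.id_comp, Category.id_comp, st, Category.assoc, Category.assoc,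
      R.par_sq, Category.comp_id]
    change LinearMap.trace K (R.H.obj Q) ((y j : Module.End K (R.H.obj Q)) *
      (x i : Module.End K (R.H.obj Q))) = _
    exact LinearMap.trace_mul_comm _ _ _

lemma par_tensor_alg {P Q : C} {g : P ⟶ P} {g' : Q ⟶ Q} (hg : R.H.map g = R.par P)
    (hg' : R.H.map g' = R.par Q) : R.H.map (g ⊗ₘ g') = R.par (P ⊗ Q) := by
  rw [← bx_map, hg, hg', bx_par]

lemma par_tw {M : C} (h : R.CPlus M) : ∀ n, ∃ g : tw M (𝟙_ C) n ⟶ tw M (𝟙_ C) n,
    R.H.map g = R.par (tw M (𝟙_ C) n)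
  | 0 => by
    refine ⟨𝟙 _, ?_⟩
    rw [CategoryTheory.Functor.map_id]
    exact R.par_unit.symm
  | n + 1 => by
    obtain ⟨g, hg⟩ := (cplus_iff R M).1 h
    obtain ⟨g', hg'⟩ := par_tw h n
    exact ⟨g ⊗ₘ g', par_tensor_alg hg hg'⟩

/-- **The growth of the numerical rank if the sign conjecture holds.** -/
lemma growth {M : C} (h : R.CPlus M) (n : ℕ) :
    dm R M ^ (2 * n) ≤ rB R (tw M (𝟙_ C) n) (tw M (𝟙_ C) n) (𝟙 _) (𝟙 _) *
      (n + 1) ^ (dm R M ^ 2) := by
  have hK := R_charZero R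
  obtain ⟨ι, _, _, e, s, he⟩ := exists_hbasis R M
  obtain ⟨g, hg⟩ := par_tw h n
  have h1 := gAlg_le_rB (wb R e n) hg
  have h2 := gspan (wb R e n) (rho R (wb R e n)) (by
    intro σ
    obtain ⟨θ, hθ⟩ := exists_auto e he n σ
    let u : (Module.End K (R.H.obj (tw M (𝟙_ C) n)))ˣ :=
      { val := (R.H.map θ.hom).hom
        inv := (R.H.map θ.inv).hom
        val_inv := by
          change (R.H.map θ.hom).hom ∘ₗ (R.H.map θ.inv).hom = 1
          rw [← ModuleCat.hom_comp, ← Functor.map_comp, θ.inv_hom_id,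
            CategoryTheory.Functor.map_id]
          rfl
        inv_val := by
          change (R.H.map θ.inv).hom ∘ₗ (R.H.map θ.hom).hom = 1
          rw [← ModuleCat.hom_comp, ← Functor.map_comp, θ.hom_inv_id,
            CategoryTheory.Functor.map_id]
          rfl }
    refine ⟨⟨u, ⟨θ, rfl⟩, σ, hθ⟩, fun w => ?_⟩
    obtain ⟨t, ht⟩ := hθ w
    refine ⟨((t : ℤ) : K), ?_, ht⟩
    intro h0
    have := cast_unit_sq (K := K) t
    rw [h0, zero_mul] at this
    exact zero_ne_one this)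
  have h3 : finrank K (R.H.obj (tw M (𝟙_ C) n)) = Fintype.card ι ^ n := by
    rw [finrank_eq_card_basis (wb R e n), Fintype.card_fun, Fintype.card_fin]
  have h4 : dm R M = Fintype.card ι := finrank_eq_card_basis e
  have h5 : finrank K (Submodule.span K (Set.range (rho R (wb R e n)))) ≤
      finrank K (gAlg (rho R (wb R e n))) := Submodule.finrank_mono (le_gAlg _)
  rw [h3, ← pow_mul, mul_comm n 2] at h2
  rw [h4]
  exact h2.trans (Nat.mul_le_mul_right _ (h5.trans h1))

end

end Pool.Agent.E8helper91.ZO
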