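import Pool.Agent.E8helper91.ZO.Ideal

/-!
# Numerically trivial operators
-/

set_option autoImplicit false
set_option linter.unusedSectionVars false

open CategoryTheory Limits MonoidalCategory Module
open Pool.Agent.Y112.SR Pool.Agent.Y112.KD Pool.Agent.Y112.SC Pool.Agent.Y133.Half

namespace Pool.Agent.E8helper91.ZO

universe v u w

section

variable {C : Type u} [Category.{v} C] [Preadditive C] [Linear ℚ C] [MonoidalCategory C]
  [MonoidalPreadditive C] [MonoidalLinear ℚ C] [SymmetricCategory C] [RightRigidCategory C]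
  {K : Type w} [Field K] (R : SuperRealisation C K)

/-- The operator is orthogonal to the algebraic operators. -/
def NZ {P Q : C} (x : R.H.obj P ⟶ R.H.obj Q) : Prop := ∀ y ∈ Op R Q P, st R (x ≫ y) = 0

variable {R}

lemma NZ.of_map {P Q : C} {x : R.H.obj P ⟶ R.H.obj Q} (h : ∀ g : Q ⟶ P, st R (x ≫ R.H.map g) = 0) :
    NZ R x := by
  intro y hy
  refine Op.ind (p := fun y => st R (x ≫ y) = 0) ?_ ?_ ?_ ?_ hy
  · exact h
  · rw [comp_zero, st_zero]
  · intro a b ha hb; rw [Preadditive.comp_add, st_add, ha, hb, add_zero]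
  · intro c a ha; rw [Linear.comp_smul, st_smul, ha, mul_zero]

lemma numZero_iff (hU : UnitQ C) {P Q : C} (f : P ⟶ Q) : NumZero hU f ↔ NZ R (R.H.map f) := by
  have hK := R_charZero R
  constructor
  · intro h
    apply NZ.of_map
    intro g
    rw [← Functor.map_comp, st_map R hU, h g, Rat.cast_zero]
  · intro h g
    have h1 := h _ (Op.map g)
    rw [← Functor.map_comp, st_map R hU] at h1
    exact_mod_cast h1

lemma NZ.zero {P Q : C} : NZ R (0 : R.H.obj P ⟶ R.H.obj Q) := by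
  intro y _
  rw [zero_comp, st_zero]

lemma NZ.add {P Q : C} {x y : R.H.obj P ⟶ R.H.obj Q} (hx : NZ R x) (hy : NZ R y) :
    NZ R (x + y) := by
  intro z hz
  rw [Preadditive.add_comp, st_add, hx z hz, hy z hz, add_zero]

lemma NZ.smul {P Q : C} (c : K) {x : R.H.obj P ⟶ R.H.obj Q} (hx : NZ R x) : NZ R (c • x) := by
  intro z hz
  rw [Linear.smul_comp, st_smul, hx z hz, mul_zero]

lemma NZ.comp_right {P Q S : C} {x : R.H.obj P ⟶ R.H.obj Q} (hx : NZ R x)
    {y : R.H.obj Q ⟶ R.H.obj S} (hy : y ∈ Op R Q S) : NZ R (x ≫ y) := by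
  intro z hz
  rw [Category.assoc]
  exact hx _ (Op.comp hy hz)

lemma NZ.comp_left {P Q S : C} {x : R.H.obj P ⟶ R.H.obj Q} (hx : NZ R x)
    {y : R.H.obj S ⟶ R.H.obj P} (hy : y ∈ Op R S P) : NZ R (y ≫ x) := by
  intro z hz
  rw [Category.assoc, ← st_comm R (Op.par hy), Category.assoc]
  exact hx _ (Op.comp hz hy)

lemma idJ_right {M : C} {x y : R.H.obj M ⟶ R.H.obj M} (hx : x ∈ idJ R M) (hy : y ∈ Op R M M) :
    x ≫ y ∈ idJ R M := by
  refine Op.ind (p := fun y => x ≫ y ∈ idJ R M) ?_ ?_ ?_ ?_ hy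
  · intro f
    refine Submodule.span_induction (p := fun x _ => x ≫ R.H.map f ∈ idJ R M) ?_ ?_ ?_ ?_ hx
    · rintro _ ⟨u, hu, rfl⟩
      refine Submodule.subset_span ⟨u ≫ f, idI_right R hu f, ?_⟩
      exact Functor.map_comp _ _ _
    · rw [zero_comp]; exact Submodule.zero_mem _
    · intro a b _ _ ha hb; rw [Preadditive.add_comp]; exact Submodule.add_mem _ ha hb
    · intro c a _ ha; rw [Linear.smul_comp]; exact Submodule.smul_mem _ _ ha
  · rw [comp_zero]; exact Submodule.zero_mem _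
  · intro a b ha hb; rw [Preadditive.comp_add]; exact Submodule.add_mem _ ha hb
  · intro c a ha; rw [Linear.comp_smul]; exact Submodule.smul_mem _ _ ha

/-- A rational functional on the coefficient field. -/
lemma exists_phi (K : Type*) [Field K] [CharZero K] : ∃ φ : K →ₗ[ℚ] ℚ, φ 1 = 1 := by
  have h1 : LinearMap.ker (Algebra.linearMap ℚ K) = ⊥ :=
    LinearMap.ker_eq_bot.2 (algebraMap ℚ K).injective
  obtain ⟨φ, hφ⟩ := (Algebra.linearMap ℚ K).exists_leftInverse_of_injective h1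
  refine ⟨φ, ?_⟩
  have := congrArg (fun f : ℚ →ₗ[ℚ] ℚ => f 1) hφ
  simpa using this

lemma phi_cast {K : Type*} [Field K] [CharZero K] (φ : K →ₗ[ℚ] ℚ) (t : K) (r : ℚ) :
    φ (t * (r : K)) = r * φ t := by
  have : t * (r : K) = r • t := by rw [Rat.smul_def, mul_comm]
  rw [this, map_smul, smul_eq_mul]

lemma trq_sub (hU : UnitQ C) {P : C} (a b : P ⟶ P) : trq hU P (a - b) = trq hU P a - trq hU P b :=
  map_sub (trq hU P) (a : End P) (b : End P)

lemma trq_add (hU : UnitQ C) {P : C} (a b : P ⟶ P) : trq hU P (a + b) = trq hU P a + trq hU P b :=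
  map_add (trq hU P) (a : End P) (b : End P)

lemma trq_smul (hU : UnitQ C) {P : C} (q : ℚ) (a : P ⟶ P) : trq hU P (q • a) = q * trq hU P a :=
  map_smul (trq hU P) q (a : End P)

lemma trq_zero (hU : UnitQ C) {P : C} : trq hU P (0 : P ⟶ P) = 0 := map_zero (trq hU P)

/-- The rational combination of the coordinates. -/
lemma trq_comb (hU : UnitQ C) {ι : Type*} {P Q : C} (a : ι → ℚ) (c : ι →₀ (P ⟶ Q)) (g : Q ⟶ P) :
    trq hU P ((c.sum fun i f => a i • f) ≫ g) = c.sum fun i f => a i * trq hU P (f ≫ g) := by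
  rw [Finsupp.sum, Finsupp.sum, Preadditive.sum_comp]
  have h : ∀ s : Finset ι, trq hU P (∑ i ∈ s, (a i • c i) ≫ g : P ⟶ P) =
      ∑ i ∈ s, a i * trq hU P (c i ≫ g) := by
    classical
    intro s
    induction s using Finset.induction_on with
    | empty => rw [Finset.sum_empty, Finset.sum_empty, trq_zero]
    | insert i s hi ih =>
      rw [Finset.sum_insert hi, Finset.sum_insert hi, trq_add, ih, Linear.smul_comp, trq_smul]
  exact h _

/-- Up to numerically trivial operators, the span of the ideal contains the identity only if the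
ideal does. -/
lemma exists_unit (hU : UnitQ C) {M : C} {e : R.H.obj M ⟶ R.H.obj M} (he : e ∈ idJ R M)
    (hN : NZ R (𝟙 _ - e)) : ∃ u ∈ idI R M, NumZero hU (𝟙 M - u) := by
  have hK := R_charZero R
  obtain ⟨φ, hφ⟩ := exists_phi K
  let b := Basis.ofVectorSpace ℚ K
  obtain ⟨c, hc, hce⟩ := exists_coords b (idI R M) he
  refine ⟨c.sum fun i f => φ (b i) • f, ?_, fun g => ?_⟩
  · exact Submodule.sum_mem _ fun i _ => Submodule.smul_mem _ _ (hc i)
  · have h1 := hN _ (Op.map g)
    rw [Preadditive.sub_comp, Category.id_comp, st_sub, st_map R hU, hce, st_coords b hU,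
      sub_eq_zero] at h1
    have h2 := congrArg φ h1
    have h3 := phi_cast φ 1 (trq hU M g)
    rw [one_mul, hφ, mul_one] at h3
    rw [h3, Finsupp.sum, map_sum] at h2
    rw [Preadditive.sub_comp, Category.id_comp, trq_sub, trq_comb, h2, sub_eq_zero, Finsupp.sum]
    refine Finset.sum_congr rfl fun i _ => ?_
    rw [phi_cast, mul_comm]

/-- A nonzero algebraic operator which is orthogonal to the algebraic operators gives a numerically
trivial morphism with nonzero realisation. -/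
lemma exists_phantom (hU : UnitQ C) {P Q : C} {x : R.H.obj P ⟶ R.H.obj Q} (hx : x ∈ Op R P Q)
    (hN : NZ R x) (h0 : x ≠ 0) : ∃ f : P ⟶ Q, NumZero hU f ∧ R.H.map f ≠ 0 := by
  have hK := R_charZero R
  let b := Basis.ofVectorSpace ℚ K
  have hx' : x ∈ Submodule.span K ((fun f : P ⟶ Q => R.H.map f) ''
      ((⊤ : Submodule ℚ (P ⟶ Q)) : Set (P ⟶ Q))) := by
    rw [Submodule.top_coe, Set.image_univ]
    exact hx
  obtain ⟨c, -, hc⟩ := exists_coords b ⊤ hx'
  have h1 : ∃ i, R.H.map (c i) ≠ 0 := by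
    by_contra hcon
    push Not at hcon
    apply h0
    rw [hc, Finsupp.sum]
    exact Finset.sum_eq_zero fun i _ => by rw [hcon, smul_zero]
  obtain ⟨i, hi⟩ := h1
  refine ⟨c i, fun g => ?_, hi⟩
  have h2 := hN _ (Op.map g)
  rw [hc, st_coords b hU] at h2
  have h3 : ∑ j ∈ c.support, trq hU P (c j ≫ g) • b j = 0 := by
    rw [← h2, Finsupp.sum]
    refine Finset.sum_congr rfl fun j _ => ?_
    rw [Rat.smul_def, mul_comm]
  have h4 := linearIndependent_iff'.1 b.linearIndependent c.support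
    (fun j => trq hU P (c j ≫ g)) h3
  by_cases his : i ∈ c.support
  · exact h4 i his
  · rw [Finsupp.notMem_support_iff.1 his, zero_comp, trq_zero]

/-- The sign conjecture modulo numerical equivalence in terms of the ideal. -/
lemma numCPlus_iff (hU : UnitQ C) (M : C) : NumCPlus R hU M ↔
    ∃ u ∈ idI R M, NumZero hU (𝟙 M - u) :=
  ⟨fun ⟨u, h1, h2⟩ => ⟨u, h2, h1⟩, fun ⟨u, h1, h2⟩ => ⟨u, h2, h1⟩⟩

lemma NZ_of_unit (hU : UnitQ C) {M : C} {e : R.H.obj M ⟶ R.H.obj M} (he : e ∈ idJ R M)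
    (htr : ∀ u ∈ idJ R M, st R ((𝟙 _ - e) ≫ u) = 0) {u : M ⟶ M} (hu : u ∈ idI R M)
    (hN : NumZero hU (𝟙 M - u)) : NZ R (𝟙 _ - e) := by
  intro v hv
  have hf : 𝟙 _ - e ∈ Op R M M := Submodule.sub_mem _ (Op.id M) (idJ_Op he)
  have h1 : (𝟙 _ - e) ≫ v = (𝟙 _ - e) ≫ R.H.map u ≫ v + (𝟙 _ - e) ≫ R.H.map (𝟙 M - u) ≫ v := by
    rw [← Preadditive.comp_add, ← Preadditive.add_comp, ← Functor.map_add, add_sub_cancel,
      CategoryTheory.Functor.map_id, Category.id_comp]
  have h2 := (numZero_iff (R := R) hU _).1 hN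
  rw [h1, st_add, htr _ (idJ_right (Submodule.subset_span ⟨u, hu, rfl⟩) hv), zero_add,
    ← Category.assoc]
  have h3 := NZ.comp_left h2 hf v hv
  exact h3

/-- Powers. -/
lemma exists_inv {M : C} (u : M ⟶ M) (n : ℕ) : ∃ v z : M ⟶ M, v ≫ u = 𝟙 M - z ∧
    ((R.H.map z).hom : Module.End K (R.H.obj M)) =
      ((R.H.map (𝟙 M - u)).hom : Module.End K (R.H.obj M)) ^ n := by
  induction n with
  | zero =>
    refine ⟨0, 𝟙 M, by rw [zero_comp, sub_self], ?_⟩
    rw [CategoryTheory.Functor.map_id, pow_zero]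
    rfl
  | succ n ih =>
    obtain ⟨v, z, h1, h2⟩ := ih
    refine ⟨v + z, z ≫ (𝟙 M - u), ?_, ?_⟩
    · rw [Preadditive.add_comp, h1, Preadditive.comp_sub, Category.comp_id]
      abel
    · rw [Functor.map_comp, ModuleCat.hom_comp, h2, pow_succ']
      rfl

/-- If the parity operator is algebraic in the span, then the sign conjecture modulo numerical
equivalence implies the sign conjecture. -/
lemma cplus_of_one (hU : UnitQ C) {M : C} (h1 : 𝟙 _ ∈ idJ R M) : R.CPlus M := by
  have hK := R_charZero R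
  obtain ⟨u, hu, huN⟩ := exists_unit hU h1 (by rw [sub_self]; exact NZ.zero)
  have hpar : R.par M ∈ Op R M M := by
    have h2 := idJ_even h1
    rw [Category.id_comp] at h2
    have h3 := Submodule.sub_mem _ h2 (Op.id M)
    rwa [add_sub_cancel_left] at h3
  have hNZ := (numZero_iff (R := R) hU _).1 huN
  set ν : Module.End K (R.H.obj M) := (R.H.map (𝟙 M - u)).hom with hν
  let L := (ModuleCat.homLinearEquiv (S := K) (M := R.H.obj M) (N := R.H.obj M))
  have hnil : IsNilpotent ν := by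
    obtain ⟨q, hq1, hq2⟩ := exists_fit ν
    apply hq2
    by_contra hne
    let J : Submodule K (Module.End K (R.H.obj M)) :=
      { carrier := {a | ModuleCat.ofHom a ∈ Op R M M ∧ NZ R (ModuleCat.ofHom a)}
        add_mem' := fun {a b} ha hb => ⟨Submodule.add_mem _ ha.1 hb.1, ha.2.add hb.2⟩
        zero_mem' := ⟨Submodule.zero_mem _, NZ.zero⟩
        smul_mem' := fun c a ha => ⟨Submodule.smul_mem _ c ha.1, ha.2.smul c⟩ }
    have hJ : ∀ a ∈ J, ∀ b ∈ J, a * b ∈ J := fun a ha b hb =>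
      ⟨Op.comp hb.1 ha.1, NZ.comp_right hb.2 ha.1⟩
    have hνJ : ν ∈ J := ⟨Op.map _, hNZ⟩
    have h3 := fit_mem hJ hνJ q
    set f := (Polynomial.aeval ν) q * ν with hf
    have h4 := h3.2 _ hpar
    have h5 : st R (ModuleCat.ofHom f ≫ R.par M) = LinearMap.trace K (R.H.obj M) f := by
      rw [st, Category.assoc, R.par_sq, Category.comp_id, ModuleCat.hom_ofHom]
    rw [h5, trace_idem (K := K) (f := f) hq1] at h4
    have h6 : finrank K (LinearMap.range f) = 0 := by exact_mod_cast h4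
    exact hne (LinearMap.range_eq_bot.1 (Submodule.finrank_eq_zero.1 h6))
  obtain ⟨n, hn⟩ := hnil
  obtain ⟨v, z, h2, h3⟩ := exists_inv (R := R) u n
  rw [← hν, hn] at h3
  obtain ⟨w, hw⟩ := idI_left R hu v
  refine ⟨w, ?_⟩
  have h4 : R.H.map z = 0 := ModuleCat.hom_ext h3
  rw [hw, h2, Functor.map_sub, h4, sub_zero, CategoryTheory.Functor.map_id, Category.id_comp]

end

end Pool.Agent.E8helper91.ZO
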